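import Pool.Graph.R_pool_sql_team_seeded_3997aac3.Q265.PR.D

set_option autoImplicit false

/-! # Power nonresidues whose order need not be prime -/

namespace Pool.Agent.H96.PR.F4

open Finset Pool.Agent.H471R4.BW Pool.Agent.Q265.PR

theorem exists_chi' (p l : ℕ) [Fact p.Prime] (hl : 2 ≤ l) (hd : l ∣ p - 1) :
    ∃ χ : DirichletCharacter ℂ p, orderOf χ = l := by
  have hc : l ∣ Fintype.card (ZMod p) - 1 := by rw [ZMod.card]; exact hd
  exact MulChar.exists_mulChar_orderOf (ZMod p) hc (Complex.isPrimitiveRoot_exp l (show l ≠ 0 by omega))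

theorem root_of' (p l : ℕ) [Fact p.Prime] (hl : 2 ≤ l) (hd : l ∣ p - 1) (x : ZMod p)
    (hx : x ^ ((p - 1) / l) = 1) : ∃ c : ZMod p, c ≠ 0 ∧ c ^ l = x := by
  have hp : p.Prime := Fact.out
  have hp1 : 0 < p - 1 := by have := hp.two_le; omega
  obtain ⟨m, hm⟩ := hd
  have hm2 : (p - 1) / l = m := by rw [hm, Nat.mul_div_cancel_left _ (show 0 < l by omega)]
  rw [hm2] at hx
  have hm0 : 0 < m := by
    rcases Nat.eq_zero_or_pos m with h | h
    · rw [h, mul_zero] at hm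
      omega
    · exact h
  have hx0 : x ≠ 0 := by
    rintro rfl
    rw [zero_pow hm0.ne'] at hx
    exact zero_ne_one hx
  obtain ⟨g, hg⟩ := IsCyclic.exists_generator (α := (ZMod p)ˣ)
  have hg2 : orderOf g = p - 1 := by
    rw [orderOf_eq_card_of_forall_mem_zpowers hg, Nat.card_eq_fintype_card, ZMod.card_units]
  obtain ⟨k, hk⟩ := (mem_powers_iff_mem_zpowers.2 (hg (Units.mk0 x hx0)))
  simp only at hk
  have h1 : g ^ (k * m) = 1 := by
    rw [pow_mul, hk]
    apply Units.ext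
    rw [Units.val_pow_eq_pow_val, Units.val_mk0, hx, Units.val_one]
  have h2 := orderOf_dvd_of_pow_eq_one h1
  rw [hg2, hm] at h2
  obtain ⟨j, hj⟩ := Nat.dvd_of_mul_dvd_mul_right hm0 h2
  refine ⟨((g ^ j : (ZMod p)ˣ) : ZMod p), Units.ne_zero _, ?_⟩
  rw [← Units.val_pow_eq_pow_val, ← pow_mul, mul_comm j l, ← hj, hk, Units.val_mk0]

theorem chi_one' (p l : ℕ) [Fact p.Prime] (hl : 2 ≤ l) (hd : l ∣ p - 1)
    (χ : DirichletCharacter ℂ p) (hχ : χ ^ l = 1) (x : ZMod p) (hx : x ^ ((p - 1) / l) = 1) :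
    χ x = 1 := by
  obtain ⟨c, hc0, rfl⟩ := root_of' p l hl hd x hx
  rw [map_pow, ← MulChar.pow_apply' χ (show l ≠ 0 by omega), hχ]
  exact MulChar.one_apply (Ne.isUnit hc0)

/-- the number of `m ≤ X` with `χ m = 1` -/
theorem count_one' (p l X : ℕ) [Fact p.Prime] (hl : 2 ≤ l) (hX : X < p)
    (χ : DirichletCharacter ℂ p) (hχ : orderOf χ = l) (δ : ℝ)
    (hs : ∀ ψ : DirichletCharacter ℂ p, ψ ≠ 1 → ‖shortSum p ψ X‖ ≤ δ * X) (hδ : 0 ≤ δ) :
    (l : ℝ) * #{m ∈ Icc 1 X | χ ((m : ℕ) : ZMod p) = 1} ≤ X + l * (δ * X) := by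
  have hχl : χ ^ l = 1 := by rw [← hχ]; exact pow_orderOf_eq_one χ
  have hval : ∀ m ∈ Icc 1 X, χ ((m : ℕ) : ZMod p) ^ l = 1 := by
    intro m hm
    rw [mem_Icc] at hm
    rw [← MulChar.pow_apply' χ (show l ≠ 0 by omega), hχl]
    apply MulChar.one_apply
    apply Ne.isUnit
    rw [Ne, ZMod.natCast_eq_zero_iff]
    intro h
    have := Nat.le_of_dvd (by omega) h
    omega
  have hgeo : ∀ m ∈ Icc 1 X, (∑ j ∈ range l, χ ((m : ℕ) : ZMod p) ^ j) =
      if χ ((m : ℕ) : ZMod p) = 1 then (l : ℂ) else 0 := by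
    intro m hm
    split_ifs with h
    · rw [h]
      simp
    · have h1 := mul_neg_geom_sum (χ ((m : ℕ) : ZMod p)) l
      rw [hval m hm, sub_self] at h1
      rcases mul_eq_zero.1 h1 with h2 | h2
      · exact absurd (sub_eq_zero.1 h2).symm h
      · exact h2
  have h1 : ((l : ℝ) * #{m ∈ Icc 1 X | χ ((m : ℕ) : ZMod p) = 1} : ℂ) =
      ∑ j ∈ range l, ∑ m ∈ Icc 1 X, χ ((m : ℕ) : ZMod p) ^ j := by
    rw [sum_comm, sum_congr rfl hgeo, ← sum_filter, sum_const, nsmul_eq_mul, mul_comm]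
    push_cast
    ring
  have h2 : ‖∑ j ∈ range l, ∑ m ∈ Icc 1 X, χ ((m : ℕ) : ZMod p) ^ j‖ ≤ X + l * (δ * X) := by
    obtain ⟨l', rfl⟩ : ∃ l', l = l' + 1 := ⟨l - 1, by omega⟩
    rw [sum_range_succ']
    have h3 : ‖∑ j ∈ range l', ∑ m ∈ Icc 1 X, χ ((m : ℕ) : ZMod p) ^ (j + 1)‖ ≤
        l' * (δ * X) := by
      refine (norm_sum_le _ _).trans ?_
      calc ∑ j ∈ range l', ‖∑ m ∈ Icc 1 X, χ ((m : ℕ) : ZMod p) ^ (j + 1)‖
          ≤ ∑ _j ∈ range l', δ * X := by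
            refine sum_le_sum fun j hj => ?_
            rw [mem_range] at hj
            have hne : χ ^ (j + 1) ≠ 1 := by
              intro h
              have h4 := orderOf_dvd_of_pow_eq_one h
              rw [hχ] at h4
              have := Nat.le_of_dvd (by omega) h4
              omega
            have h5 := hs _ hne
            unfold shortSum at h5
            refine le_trans (le_of_eq ?_) h5
            congr 1
            refine sum_congr rfl fun m _ => ?_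
            rw [MulChar.pow_apply' χ (by omega)]
        _ = l' * (δ * X) := by rw [sum_const, card_range, nsmul_eq_mul]
    have h6 : ‖∑ m ∈ Icc 1 X, χ ((m : ℕ) : ZMod p) ^ 0‖ ≤ X := by
      simp
    refine (norm_add_le _ _).trans ?_
    have h7 : (0 : ℝ) ≤ δ * X := by positivity
    push_cast
    nlinarith
  have h8 : (l : ℝ) * #{m ∈ Icc 1 X | χ ((m : ℕ) : ZMod p) = 1} =
      ‖∑ j ∈ range l, ∑ m ∈ Icc 1 X, χ ((m : ℕ) : ZMod p) ^ j‖ := by
    rw [← h1]
    rw [norm_mul, Complex.norm_of_nonneg (by positivity)]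
    simp
  rw [h8]
  exact h2

/-- the least `l`-th power nonresidue is at most `p ^ (1 / (4 e ^ (1 - 1 / l)) + ε)` -/
theorem least_fix' (l : ℕ) (hl : 2 ≤ l) (ε : ℝ) (hε : 0 < ε) : ∃ p₀ : ℕ, ∀ p : ℕ, p₀ ≤ p →
    p.Prime → l ∣ p - 1 → ∃ b : ℕ, 1 ≤ b ∧
      (b : ℝ) ≤ (p : ℝ) ^ (1 / (4 * Real.exp (1 - 1 / (l : ℝ))) + ε) ∧
      ((b : ℕ) : ZMod p) ^ ((p - 1) / l) ≠ 1 := by
  classical
  obtain ⟨η, hηdef⟩ : ∃ η, η = min ε (1 / 16) := ⟨_, rfl⟩
  have hη : 0 < η := by rw [hηdef]; exact lt_min hε (by norm_num)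
  have hηε : η ≤ ε := by rw [hηdef]; exact min_le_left _ _
  have hη16 : η ≤ 1 / 16 := by rw [hηdef]; exact min_le_right _ _
  have hl2 : (2 : ℝ) ≤ l := by exact_mod_cast hl
  have hl0 : (0 : ℝ) < l := by linarith
  obtain ⟨β, hβdef⟩ : ∃ β : ℝ, β = 1 - 1 / (l : ℝ) := ⟨_, rfl⟩
  rw [← hβdef]
  have hβ : 1 / 2 ≤ β := by
    rw [hβdef]
    have : 1 / (l : ℝ) ≤ 1 / 2 := one_div_le_one_div_of_le (by norm_num) hl2
    linarith
  have hrho := rho_l β η hβ hη
  obtain ⟨b, hb⟩ : ∃ b, b = 1 / (4 * Real.exp β) + 3 / 4 * η := ⟨_, rfl⟩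
  have hb0 : 0 < b := by rw [hb]; positivity
  rw [← hb] at hrho
  obtain ⟨γ, hγ⟩ : ∃ γ, γ = β - Real.log ((1 / 4 + η / 2) / b) := ⟨_, rfl⟩
  have hγ0 : 0 < γ := by rw [hγ]; linarith
  obtain ⟨C, hC0, hC⟩ := Pool.Agent.Helper923.HMertens.mertens_ratio
  obtain ⟨N0, hN0⟩ := bfm (bin (mom tup) nu1 nu2b shf hol) (η / 4) (γ / 3) 1
    (fun r => 2 * (r : ℝ)) (by positivity) (by positivity) one_pos (fun r => by positivity)
  obtain ⟨L0, hL0⟩ : ∃ L0 : ℝ, Real.log 2 / (η / 4) ≤ L0 ∧ Real.log 2 / b ≤ L0 ∧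
      3 * C / (γ * b) < L0 ∧ 1 ≤ L0 :=
    ⟨max (Real.log 2 / (η / 4)) (max (Real.log 2 / b) (max (3 * C / (γ * b) + 1) 1)),
      le_max_left _ _, (le_max_left _ _).trans (le_max_right _ _),
      lt_of_lt_of_le (lt_add_one _) (((le_max_left _ _).trans (le_max_right _ _)).trans
        (le_max_right _ _)),
      ((le_max_right _ _).trans (le_max_right _ _)).trans (le_max_right _ _)⟩
  obtain ⟨hL1, hL2, hL3, hL4⟩ := hL0
  refine ⟨max N0 (max 1 ⌈Real.exp L0⌉₊), fun p hp hpp hd => ?_⟩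
  have hNN0 : N0 ≤ p := (le_max_left _ _).trans hp
  have hNexp : Real.exp L0 ≤ p := by
    have : ⌈Real.exp L0⌉₊ ≤ p := ((le_max_right _ _).trans (le_max_right _ _)).trans hp
    exact (Nat.le_ceil _).trans (by exact_mod_cast this)
  have : Fact p.Prime := ⟨hpp⟩
  have : NeZero p := ⟨hpp.ne_zero⟩
  have hNr1 : (1 : ℝ) ≤ p := by exact_mod_cast hpp.one_lt.le
  have hNpos : (0 : ℝ) < p := by linarith
  have hlog : L0 ≤ Real.log p := (Real.le_log_iff_exp_le hNpos).mpr hNexp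
  have hLpos : 0 < Real.log p := by linarith
  have hpow : ∀ t : ℝ, 0 < t → Real.log 2 / t ≤ Real.log p → (2 : ℝ) ≤ (p : ℝ) ^ t := by
    intro t ht hle
    rw [div_le_iff₀ ht] at hle
    rw [Real.rpow_def_of_pos hNpos]
    calc (2 : ℝ) = Real.exp (Real.log 2) := (Real.exp_log (by norm_num)).symm
      _ ≤ Real.exp (Real.log p * t) := Real.exp_le_exp.mpr hle
  by_contra hcon
  push Not at hcon
  have hqn : (2 : ℝ) ≤ (p : ℝ) ^ (η / 4) := hpow _ (by positivity) (hL1.trans hlog)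
  obtain ⟨y, hydef⟩ : ∃ y : ℕ, y = ⌊(p : ℝ) ^ (1 / (4 * Real.exp β) + η)⌋₊ := ⟨_, rfl⟩
  have hyup : (y : ℝ) ≤ (p : ℝ) ^ (1 / (4 * Real.exp β) + ε) := by
    rw [hydef]
    exact (Nat.floor_le (by positivity)).trans
      (Real.rpow_le_rpow_of_exponent_le hNr1 (by linarith))
  have hyb : (p : ℝ) ^ b < y := by
    have h1 : (p : ℝ) ^ (1 / (4 * Real.exp β) + η) < y + 1 := by
      rw [hydef]
      exact Nat.lt_floor_add_one _
    have h2 : (p : ℝ) ^ (1 / (4 * Real.exp β) + η) = (p : ℝ) ^ (η / 4) * (p : ℝ) ^ b := by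
      rw [← Real.rpow_add hNpos, hb]
      congr 1
      ring
    have h3 : (1 : ℝ) ≤ (p : ℝ) ^ b := Real.one_le_rpow hNr1 hb0.le
    rw [h2] at h1
    nlinarith
  have hy2 : (2 : ℝ) < y := lt_of_le_of_lt (hpow b hb0 (hL2.trans hlog)) hyb
  have hy2' : 2 ≤ y := by
    have : (2 : ℕ) < y := by exact_mod_cast hy2
    omega
  have hypos : (0 : ℝ) < y := by linarith
  have hlogy : b * Real.log p < Real.log y := by
    have := Real.log_lt_log (Real.rpow_pos_of_pos hNpos b) hyb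
    rwa [Real.log_rpow hNpos] at this
  have hlogypos : 0 < Real.log y := by
    have : 0 < b * Real.log p := by positivity
    linarith
  -- X
  obtain ⟨X, hXdef⟩ : ∃ X : ℕ, X = ⌈(p : ℝ) ^ (1 / 4 + η / 4)⌉₊ := ⟨_, rfl⟩
  have hX1 : (p : ℝ) ^ (1 / 4 + η / 4) ≤ X := by rw [hXdef]; exact Nat.le_ceil _
  have hXpow : (X : ℝ) ≤ (p : ℝ) ^ (1 / 4 + η / 2) := by
    have h1 : (X : ℝ) ≤ (p : ℝ) ^ (1 / 4 + η / 4) + 1 := by
      rw [hXdef]; exact (Nat.ceil_lt_add_one (by positivity)).le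
    have h2 : (1 : ℝ) ≤ (p : ℝ) ^ (1 / 4 + η / 4) := Real.one_le_rpow hNr1 (by positivity)
    have h4 : (p : ℝ) ^ (1 / 4 + η / 2) = (p : ℝ) ^ (η / 4) * (p : ℝ) ^ (1 / 4 + η / 4) := by
      rw [← Real.rpow_add hNpos]; congr 1; ring
    rw [h4]
    nlinarith
  have hX2 : (X : ℝ) ≤ Real.sqrt p := by
    rw [Real.sqrt_eq_rpow]
    exact hXpow.trans (Real.rpow_le_rpow_of_exponent_le hNr1 (by linarith))
  have hXge1 : (1 : ℝ) ≤ X := (Real.one_le_rpow hNr1 (by positivity)).trans hX1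
  have hXpos : (0 : ℝ) < X := by linarith
  have hXp : X < p := by
    have h1 : (X : ℝ) < p := by
      refine lt_of_le_of_lt (hXpow.trans (Real.rpow_le_rpow_of_exponent_le hNr1
        (show (1 / 4 + η / 2 : ℝ) ≤ 1 / 2 by linarith))) ?_
      have h2 : (p : ℝ) ^ ((1 : ℝ) / 2) < (p : ℝ) ^ (1 : ℝ) :=
        Real.rpow_lt_rpow_of_exponent_lt (by exact_mod_cast hpp.one_lt) (by norm_num)
      rwa [Real.rpow_one] at h2
    exact_mod_cast h1
  obtain ⟨χ, hχ⟩ := exists_chi' p l hl hd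
  have hχl : χ ^ l = 1 := by rw [← hχ]; exact pow_orderOf_eq_one χ
  have hsum : ∀ ψ : DirichletCharacter ℂ p, ψ ≠ 1 → ‖shortSum p ψ X‖ ≤ γ / 3 * X := fun ψ hψ =>
    hN0 p hNN0 ψ (Pool.Agent.Y165.HN.fam_all p ψ hψ) X hX1 hX2
  have hcount := count_one' p l X hl hXp χ hχ (γ / 3) hsum (by positivity)
  have hsub : (Icc 1 X).filter (fun m : ℕ => ∀ q : ℕ, q.Prime → q ∣ m → q ≤ y) ⊆
      (Icc 1 X).filter (fun m : ℕ => χ ((m : ℕ) : ZMod p) = 1) := by
    intro m hm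
    rw [mem_filter, mem_Icc] at hm ⊢
    refine ⟨hm.1, vin_one p χ m (by omega) fun q hq hqm => ?_⟩
    refine chi_one' p l hl hd χ hχl _ (hcon q hq.one_lt.le ?_)
    exact le_trans (by exact_mod_cast hm.2 q hq hqm) hyup
  have hcard : ((#{m ∈ Icc 1 X | ∀ q : ℕ, q.Prime → q ∣ m → q ≤ y} : ℕ) : ℝ) ≤
      #{m ∈ Icc 1 X | χ ((m : ℕ) : ZMod p) = 1} := by
    exact_mod_cast card_le_card hsub
  have hsm := (smooth_count y X).trans hcard
  -- the sum over the primes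
  have hprim : ∑ q ∈ (Ioc y X).filter Nat.Prime, (1 : ℝ) / q ≤ β - γ + γ / 3 := by
    have hCy : C / Real.log y ≤ γ / 3 := by
      rw [div_le_iff₀ hlogypos]
      have h5 : 3 * C < Real.log p * (γ * b) := by
        have := lt_of_lt_of_le hL3 hlog
        rwa [div_lt_iff₀ (by positivity)] at this
      nlinarith [mul_lt_mul_of_pos_left hlogy hγ0]
    rcases le_or_gt X y with hXy | hXy
    · rw [Finset.Ioc_eq_empty_of_le hXy, Finset.filter_empty, Finset.sum_empty]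
      have h1 : 0 ≤ Real.log ((1 / 4 + η / 2) / b) := by
        apply Real.log_nonneg
        rw [le_div_iff₀ hb0, one_mul, hb]
        have h2 : 1 / (4 * Real.exp β) ≤ 1 / (4 * (3 / 2)) := by
          apply one_div_le_one_div_of_le (by norm_num)
          have := Real.add_one_le_exp β
          linarith
        linarith
      have : β - γ = Real.log ((1 / 4 + η / 2) / b) := by rw [hγ]; ring
      rw [this]
      positivity
    · have hm := hC y X hy2' hXy.le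
      have hm2 := (abs_le.mp hm).2
      have hlogX : Real.log X ≤ (1 / 4 + η / 2) * Real.log p := by
        have := Real.log_le_log hXpos hXpow
        rwa [Real.log_rpow hNpos] at this
      have hlogXpos : 0 < Real.log X := by
        apply Real.log_pos
        have : 1 < X := by omega
        exact_mod_cast this
      have hratio : Real.log X / Real.log y ≤ (1 / 4 + η / 2) / b := by
        rw [div_le_div_iff₀ hlogypos hb0]
        calc Real.log X * b ≤ ((1 / 4 + η / 2) * Real.log p) * b := by gcongr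
          _ = (1 / 4 + η / 2) * (b * Real.log p) := by ring
          _ ≤ (1 / 4 + η / 2) * Real.log y := by gcongr
      have hlr : Real.log (Real.log X / Real.log y) ≤ β - γ := by
        rw [hγ]
        have := Real.log_le_log (div_pos hlogXpos hlogypos) hratio
        linarith
      linarith
  have h1l : β = 1 - 1 / (l : ℝ) := hβdef
  have h6 : (l : ℝ) * (X - X * (β - γ + γ / 3)) ≤ X + l * (γ / 3 * X) := by
    refine le_trans ?_ hcount
    refine mul_le_mul_of_nonneg_left (le_trans ?_ hsm) hl0.le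
    have := mul_le_mul_of_nonneg_left hprim hXpos.le
    linarith
  have h7 : (l : ℝ) * (X - X * (β - γ + γ / 3)) - (X + l * (γ / 3 * X)) =
      l * X * (γ / 3) := by
    rw [h1l]
    field_simp
    ring
  have h8 : 0 < (l : ℝ) * X * (γ / 3) := by positivity
  linarith


end Pool.Agent.H96.PR.F4
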