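import Pool.Graph.R_seed8.Y165.HN.Burg

/-!
# Gaussian integers modulo a prime ideal of degree one: the multiplicative collisions
-/

set_option autoImplicit false

namespace Pool.Agent.H96.PR

open Finset

/-- the residue of `a + b i` where `ι` is the residue of `i` -/
def gz {p : ℕ} (ι : ZMod p) (w : ℕ × ℕ) : ZMod p := (w.1 : ZMod p) + (w.2 : ZMod p) * ι

/-- the Gaussian integer `a + b i` -/
def gi (w : ℕ × ℕ) : GaussianInt := ⟨(w.1 : ℤ), (w.2 : ℤ)⟩

/-- the norm -/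
def nm (w : ℕ × ℕ) : ℕ := w.1 ^ 2 + w.2 ^ 2

/-- the reduction -/
noncomputable def phi {p : ℕ} (ι : ZMod p) (h : ι * ι = -1) : GaussianInt →+* ZMod p :=
  Zsqrtd.lift ⟨ι, by rw [h]; simp⟩

theorem phi_apply {p : ℕ} (ι : ZMod p) (h : ι * ι = -1) (z : GaussianInt) :
    phi ι h z = (z.re : ZMod p) + (z.im : ZMod p) * ι := by
  unfold phi
  rw [Zsqrtd.lift_apply_apply]

theorem phi_gi {p : ℕ} (ι : ZMod p) (h : ι * ι = -1) (w : ℕ × ℕ) : phi ι h (gi w) = gz ι w := by
  rw [phi_apply]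
  unfold gi gz
  simp

theorem norm_gi (w : ℕ × ℕ) : (gi w).norm = (nm w : ℤ) := by
  rw [Zsqrtd.norm_def]
  unfold gi nm
  push_cast
  ring

theorem norm_sq (z : GaussianInt) : z.norm = z.re ^ 2 + z.im ^ 2 := by
  rw [Zsqrtd.norm_def]
  ring

theorem dvd_norm {p : ℕ} (ι : ZMod p) (h : ι * ι = -1) (z : GaussianInt) (hz : phi ι h z = 0) :
    (p : ℤ) ∣ z.norm := by
  rw [← ZMod.intCast_zmod_eq_zero_iff_dvd]
  have h1 := congrArg (phi ι h) (Zsqrtd.norm_eq_mul_conj z)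
  rw [map_mul, hz, zero_mul, map_intCast] at h1
  exact h1

theorem eq_of_phi {p : ℕ} (ι : ZMod p) (h : ι * ι = -1) (x y : GaussianInt)
    (hxy : phi ι h x = phi ι h y) (hlt : (x - y).norm < p) : x = y := by
  have h1 : phi ι h (x - y) = 0 := by rw [map_sub, hxy, sub_self]
  have h2 := dvd_norm ι h _ h1
  have h3 : 0 ≤ (x - y).norm := GaussianInt.norm_nonneg _
  have h4 : (x - y).norm = 0 := Int.eq_zero_of_dvd_of_nonneg_of_lt h3 hlt h2
  rw [Zsqrtd.norm_eq_zero_iff (by norm_num)] at h4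
  exact sub_eq_zero.1 h4

theorem norm_sub_le (x y : GaussianInt) : (x - y).norm ≤ 2 * (x.norm + y.norm) := by
  rw [norm_sq, norm_sq, norm_sq]
  simp only [Zsqrtd.re_sub, Zsqrtd.im_sub]
  nlinarith [sq_nonneg (x.re + y.re), sq_nonneg (x.im + y.im)]

/-- the residue is not zero if the norm is small -/
theorem gz_ne_zero {p : ℕ} (ι : ZMod p) (h : ι * ι = -1) (w : ℕ × ℕ) (h0 : 0 < nm w)
    (hlt : nm w < p) : gz ι w ≠ 0 := by
  intro hz
  rw [← phi_gi ι h] at hz
  have h1 := dvd_norm ι h _ hz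
  rw [norm_gi] at h1
  have h2 := Int.natCast_dvd_natCast.1 h1
  have := Nat.le_of_dvd h0 h2
  omega

/-- the box -/
def box (X : ℕ) : Finset (ℕ × ℕ) := Icc 1 X ×ˢ Icc 1 X

theorem mem_box {X : ℕ} {w : ℕ × ℕ} : w ∈ box X ↔ (1 ≤ w.1 ∧ w.1 ≤ X) ∧ 1 ≤ w.2 ∧ w.2 ≤ X := by
  unfold box
  rw [mem_product, mem_Icc, mem_Icc]

theorem card_box (X : ℕ) : (box X).card = X ^ 2 := by
  unfold box
  rw [card_product, Nat.card_Icc, Nat.add_sub_cancel, pow_two]

theorem nm_le {X : ℕ} {w : ℕ × ℕ} (hw : w ∈ box X) : nm w ≤ 2 * X ^ 2 := by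
  rw [mem_box] at hw
  unfold nm
  have h1 := Nat.pow_le_pow_left hw.1.2 2
  have h2 := Nat.pow_le_pow_left hw.2.2 2
  omega

theorem nm_pos {X : ℕ} {w : ℕ × ℕ} (hw : w ∈ box X) : 0 < nm w := by
  rw [mem_box] at hw
  unfold nm
  have h1 : 0 < w.1 ^ 2 := pow_pos (by omega) 2
  omega

theorem gi_inj : Function.Injective gi := by
  intro w w' h
  unfold gi at h
  rw [Zsqrtd.ext_iff] at h
  simp only [Nat.cast_inj] at h
  exact Prod.ext h.1 h.2

/-- number of solutions of `w' m = w m'` -/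
noncomputable def cn2 (X : ℕ) (w w' : ℕ × ℕ) : ℕ := by
  classical
  exact ((box X ×ˢ box X).filter fun m => gi w' * gi m.1 = gi w * gi m.2).card

theorem gi_ne_zero {w : ℕ × ℕ} (h : 0 < nm w) : gi w ≠ 0 := by
  intro h0
  have h1 := norm_gi w
  rw [h0, Zsqrtd.norm_zero] at h1
  omega

theorem cn2_same (X : ℕ) (w : ℕ × ℕ) (hw : 0 < nm w) : cn2 X w w ≤ X ^ 2 := by
  classical
  unfold cn2
  rw [← card_box]
  apply Finset.card_le_card_of_injOn (fun m => m.1)
  · intro m hm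
    simp only [coe_filter, mem_product, Set.mem_ofPred_eq] at hm
    exact hm.1.1
  · intro m hm m' hm' e
    simp only [coe_filter, mem_product, Set.mem_ofPred_eq] at hm hm' e
    have h0 := gi_ne_zero hw
    have e1 := gi_inj (mul_left_cancel₀ h0 hm.2)
    have e2 := gi_inj (mul_left_cancel₀ h0 hm'.2)
    exact Prod.ext e (by rw [← e1, ← e2, e])

theorem coprime_gi {w w' : ℕ × ℕ} (hc : Nat.Coprime (nm w) (nm w')) :
    IsCoprime (gi w) (gi w') := by
  have h1 : IsCoprime ((nm w : ℕ) : ℤ) ((nm w' : ℕ) : ℤ) := Nat.isCoprime_iff_coprime.2 hc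
  have h2 := h1.map (Int.castRingHom GaussianInt)
  have e : ∀ w : ℕ × ℕ, (Int.castRingHom GaussianInt) ((nm w : ℕ) : ℤ) = gi w * star (gi w) := by
    intro w
    have := Zsqrtd.norm_eq_mul_conj (gi w)
    rw [norm_gi] at this
    exact this
  rw [e, e] at h2
  exact (h2.of_mul_left_left).of_mul_right_left

/-- the Gaussian integers of norm at most `R` -/
noncomputable def disc (R : ℕ) : Finset (ℤ × ℤ) :=
  Icc (-(Nat.sqrt R : ℤ)) (Nat.sqrt R) ×ˢ Icc (-(Nat.sqrt R : ℤ)) (Nat.sqrt R)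

theorem mem_disc {R : ℕ} {z : GaussianInt} (h : z.norm ≤ R) : (z.re, z.im) ∈ disc R := by
  rw [norm_sq] at h
  have key : ∀ x y : ℤ, x ^ 2 + y ^ 2 ≤ R → x ∈ Icc (-(Nat.sqrt R : ℤ)) (Nat.sqrt R) := by
    intro x y hxy
    have h1 : x.natAbs * x.natAbs ≤ R := by
      have h2 : ((x.natAbs * x.natAbs : ℕ) : ℤ) = x ^ 2 := by
        push_cast
        rw [← pow_two, sq_abs]
      have h3 : x ^ 2 ≤ R := by nlinarith [sq_nonneg y]
      rw [← h2] at h3
      exact_mod_cast h3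
    have h2 : x.natAbs ≤ Nat.sqrt R := Nat.le_sqrt.2 h1
    rw [mem_Icc]
    omega
  unfold disc
  rw [mem_product]
  exact ⟨key _ _ h, key z.im z.re (by linarith)⟩

theorem card_disc {R : ℕ} (hR : 1 ≤ R) : (disc R).card ≤ 9 * R := by
  unfold disc
  rw [card_product, Int.card_Icc]
  have h1 : ((Nat.sqrt R : ℤ) + 1 - -(Nat.sqrt R : ℤ)).toNat = 2 * Nat.sqrt R + 1 := by omega
  rw [h1]
  have h2 : 1 ≤ Nat.sqrt R := Nat.le_sqrt.2 (by omega)
  have h3 := Nat.sqrt_le R
  nlinarith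

theorem cn2_diff (X : ℕ) (w w' : ℕ × ℕ) (hw : (nm w).Prime) (hw' : (nm w').Prime)
    (hne : nm w ≠ nm w') : cn2 X w w' ≤ 9 * (2 * X ^ 2 / max (nm w) (nm w')) := by
  classical
  have hcop := coprime_gi ((Nat.coprime_primes hw hw').2 hne)
  have hw0 := gi_ne_zero hw.pos
  have hw0' := gi_ne_zero hw'.pos
  have hrep : ∀ m : (ℕ × ℕ) × (ℕ × ℕ), gi w' * gi m.1 = gi w * gi m.2 →
      ∃ γ, gi m.1 = gi w * γ ∧ gi m.2 = gi w' * γ := by
    intro m hm
    have h1 : gi w ∣ gi w' * gi m.1 := ⟨gi m.2, hm⟩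
    obtain ⟨γ, hγ⟩ := hcop.dvd_of_dvd_mul_left h1
    refine ⟨γ, hγ, ?_⟩
    rw [hγ] at hm
    apply mul_left_cancel₀ hw0
    rw [← hm]
    ring
  set R := 2 * X ^ 2 / max (nm w) (nm w') with hR
  have hmax : 0 < max (nm w) (nm w') := lt_of_lt_of_le hw.pos (le_max_left _ _)
  have hnorm : ∀ m : (ℕ × ℕ) × (ℕ × ℕ), m.1 ∈ box X → m.2 ∈ box X → ∀ γ : GaussianInt,
      gi m.1 = gi w * γ → gi m.2 = gi w' * γ → γ.norm ≤ R ∧ 0 < γ.norm := by
    intro m hm1 hm2 γ h1 h2
    have e1 := congrArg Zsqrtd.norm h1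
    have e2 := congrArg Zsqrtd.norm h2
    rw [Zsqrtd.norm_mul, norm_gi, norm_gi] at e1 e2
    have h3 : 0 ≤ γ.norm := GaussianInt.norm_nonneg _
    obtain ⟨g, hg⟩ : ∃ g : ℕ, γ.norm = g := ⟨γ.norm.toNat, by omega⟩
    rw [hg] at e1 e2 ⊢
    have e1' : nm m.1 = nm w * g := by exact_mod_cast e1
    have e2' : nm m.2 = nm w' * g := by exact_mod_cast e2
    have b1 := nm_le hm1
    have b2 := nm_le hm2
    have p1 := nm_pos hm1
    constructor
    · have : g ≤ R := by
        rw [hR, Nat.le_div_iff_mul_le hmax]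
        rcases le_total (nm w) (nm w') with hle | hle
        · rw [max_eq_right hle, mul_comm, ← e2']; exact b2
        · rw [max_eq_left hle, mul_comm, ← e1']; exact b1
      exact_mod_cast this
    · have : 0 < g := by
        rcases Nat.eq_zero_or_pos g with h0 | h0
        · rw [h0, mul_zero] at e1'
          omega
        · exact h0
      exact_mod_cast this
  rcases Nat.eq_zero_or_pos R with h0 | h0
  · unfold cn2
    refine le_of_eq_of_le ?_ (Nat.zero_le _)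
    rw [Finset.card_eq_zero, Finset.filter_eq_empty_iff]
    intro m hm hc
    rw [mem_product] at hm
    obtain ⟨γ, h1, h2⟩ := hrep m hc
    have := hnorm m hm.1 hm.2 γ h1 h2
    rw [h0] at this
    push_cast at this
    omega
  · refine le_trans ?_ (card_disc h0)
    unfold cn2
    have hch : ∀ m : (ℕ × ℕ) × (ℕ × ℕ), ∃ γ : GaussianInt, (gi w' * gi m.1 = gi w * gi m.2) →
        gi m.1 = gi w * γ ∧ gi m.2 = gi w' * γ := by
      intro m
      by_cases h : gi w' * gi m.1 = gi w * gi m.2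
      · obtain ⟨γ, hγ⟩ := hrep m h
        exact ⟨γ, fun _ => hγ⟩
      · exact ⟨0, fun h' => absurd h' h⟩
    choose G hG using hch
    apply Finset.card_le_card_of_injOn (fun m => ((G m).re, (G m).im))
    · intro m hm
      simp only [coe_filter, mem_product, Set.mem_ofPred_eq] at hm
      obtain ⟨h1, h2⟩ := hG m hm.2
      exact mem_disc (hnorm m hm.1.1 hm.1.2 _ h1 h2).1
    · intro m hm m' hm' e
      simp only [coe_filter, mem_product, Set.mem_ofPred_eq, Prod.mk.injEq] at hm hm' e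
      have eG : G m = G m' := Zsqrtd.ext e.1 e.2
      obtain ⟨h1, h2⟩ := hG m hm.2
      obtain ⟨h1', h2'⟩ := hG m' hm'.2
      rw [← eG] at h1' h2'
      exact Prod.ext (gi_inj (h1.trans h1'.symm)) (gi_inj (h2.trans h2'.symm))

/-- the conditions on the multipliers -/
structure Mult (A : Finset (ℕ × ℕ)) (M : ℕ) : Prop where
  pr : ∀ w ∈ A, (nm w).Prime
  inj : ∀ w ∈ A, ∀ w' ∈ A, nm w = nm w' → w = w'
  le : ∀ w ∈ A, w.1 ≤ M ∧ w.2 ≤ M

theorem sum_cn2 (A : Finset (ℕ × ℕ)) (X M : ℕ) (hA : Mult A M) :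
    ∑ w ∈ A, ∑ w' ∈ A, cn2 X w w' ≤ 37 * (A.card * X ^ 2) := by
  classical
  have h1 : ∀ a ∈ A, ∀ b ∈ A, cn2 X a b ≤ (if a = b then X ^ 2 else 0) +
      ((if nm b < nm a then 9 * (2 * X ^ 2 / nm a) else 0) +
        (if nm a < nm b then 9 * (2 * X ^ 2 / nm b) else 0)) := by
    intro a ha b hb
    rcases lt_trichotomy (nm a) (nm b) with h | h | h
    · have := cn2_diff X a b (hA.pr a ha) (hA.pr b hb) h.ne
      rw [max_eq_right h.le] at this
      have hab : a ≠ b := by rintro rfl; omega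
      simp only [hab, h, not_lt_of_gt h, if_true, if_false]
      omega
    · have hab := hA.inj a ha b hb h
      subst hab
      have := cn2_same X a (hA.pr a ha).pos
      simp only [lt_irrefl, if_true, if_false]
      omega
    · have := cn2_diff X a b (hA.pr a ha) (hA.pr b hb) h.ne'
      rw [max_eq_left h.le] at this
      have hab : a ≠ b := by rintro rfl; omega
      simp only [hab, h, not_lt_of_gt h, if_true, if_false]
      omega
  have h2 : ∀ a ∈ A, ∑ b ∈ A, (if nm b < nm a then 9 * (2 * X ^ 2 / nm a) else 0) ≤ 18 * X ^ 2 := by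
    intro a ha
    rw [← Finset.sum_filter, Finset.sum_const, smul_eq_mul]
    have : (A.filter fun b => nm b < nm a).card ≤ nm a := by
      have h3 : (A.filter fun b => nm b < nm a).card ≤ (range (nm a)).card := by
        apply Finset.card_le_card_of_injOn nm
        · intro b hb
          simp only [coe_filter, Set.mem_ofPred_eq] at hb
          simp only [coe_range, Set.mem_Iio]
          exact hb.2
        · intro b hb b' hb' e
          simp only [coe_filter, Set.mem_ofPred_eq] at hb hb'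
          exact hA.inj b hb.1 b' hb'.1 e
      rwa [card_range] at h3
    calc _ ≤ nm a * (9 * (2 * X ^ 2 / nm a)) := Nat.mul_le_mul_right _ this
      _ = 9 * (nm a * (2 * X ^ 2 / nm a)) := by ring
      _ ≤ 9 * (2 * X ^ 2) := Nat.mul_le_mul_left _ (Nat.mul_div_le _ _)
      _ = 18 * X ^ 2 := by ring
  have h3 : ∑ a ∈ A, ∑ b ∈ A, (if nm a < nm b then 9 * (2 * X ^ 2 / nm b) else 0) ≤
      A.card * (18 * X ^ 2) := by
    rw [Finset.sum_comm]
    calc _ ≤ ∑ b ∈ A, 18 * X ^ 2 := Finset.sum_le_sum fun b hb => h2 b hb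
      _ = A.card * (18 * X ^ 2) := by simp
  have h4 : ∑ a ∈ A, ∑ b ∈ A, (if nm b < nm a then 9 * (2 * X ^ 2 / nm a) else 0) ≤
      A.card * (18 * X ^ 2) := by
    calc _ ≤ ∑ b ∈ A, 18 * X ^ 2 := Finset.sum_le_sum fun b hb => h2 b hb
      _ = A.card * (18 * X ^ 2) := by simp
  have h5 : ∑ a ∈ A, ∑ b ∈ A, (if a = b then X ^ 2 else 0) = A.card * X ^ 2 := by
    rw [Finset.sum_congr rfl (fun a ha => by rw [Finset.sum_ite_eq, if_pos ha])]
    simp
  calc ∑ a ∈ A, ∑ b ∈ A, cn2 X a b ≤ ∑ a ∈ A, ∑ b ∈ A, ((if a = b then X ^ 2 else 0) +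
      ((if nm b < nm a then 9 * (2 * X ^ 2 / nm a) else 0) +
        (if nm a < nm b then 9 * (2 * X ^ 2 / nm b) else 0))) :=
        Finset.sum_le_sum fun a ha => Finset.sum_le_sum fun b hb => h1 a ha b hb
    _ = ∑ a ∈ A, ∑ b ∈ A, (if a = b then X ^ 2 else 0) +
        (∑ a ∈ A, ∑ b ∈ A, (if nm b < nm a then 9 * (2 * X ^ 2 / nm a) else 0) +
          ∑ a ∈ A, ∑ b ∈ A, (if nm a < nm b then 9 * (2 * X ^ 2 / nm b) else 0)) := by
        simp only [Finset.sum_add_distrib]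
    _ ≤ 37 * (A.card * X ^ 2) := by
        rw [h5]
        have e : 37 * (A.card * X ^ 2) = A.card * X ^ 2 + (A.card * (18 * X ^ 2) +
          A.card * (18 * X ^ 2)) := by ring
        omega

end Pool.Agent.H96.PR
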