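import Pool.Agent.H96.PR.G1

/-!
# The bound of Burgess for boxes of Gaussian integers modulo a prime ideal of degree one
-/

set_option autoImplicit false

namespace Pool.Agent.H96.PR

open Finset Pool.Agent.H471R4.BW

section

variable {p : ℕ} [Fact p.Prime] (ι : ZMod p)

/-- the sum of `χ` over the box -/
noncomputable def boxSum (χ : DirichletCharacter ℂ p) (X : ℕ) : ℂ := ∑ m ∈ box X, χ (gz ι m)

/-- number of representations -/
noncomputable def nu2 (A : Finset (ℕ × ℕ)) (X : ℕ) (x : ZMod p) : ℕ := by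
  classical
  exact ((A ×ˢ box X).filter fun w => gz ι w.2 = gz ι w.1 * x).card

theorem nu2_sum (A : Finset (ℕ × ℕ)) (X : ℕ) (hA : ∀ a ∈ A, gz ι a ≠ 0) :
    ∑ x : ZMod p, nu2 ι A X x = A.card * X ^ 2 := by
  classical
  have h1 : ∑ x : ZMod p, nu2 ι A X x =
      ∑ x : ZMod p, ∑ w ∈ A ×ˢ box X, if gz ι w.2 = gz ι w.1 * x then 1 else 0 := by
    refine Finset.sum_congr rfl fun x _ => ?_
    unfold nu2
    rw [Finset.card_filter]
  rw [h1, Finset.sum_comm]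
  have h2 : ∀ w ∈ A ×ˢ box X,
      (∑ x : ZMod p, if gz ι w.2 = gz ι w.1 * x then 1 else 0) = 1 := by
    intro w hw
    obtain ⟨ha, _⟩ := Finset.mem_product.mp hw
    have hu := hA _ ha
    have h3 : ∀ x : ZMod p, (gz ι w.2 = gz ι w.1 * x) ↔ ((gz ι w.1)⁻¹ * gz ι w.2 = x) := by
      intro x
      constructor
      · intro h
        rw [h, inv_mul_cancel_left₀ hu]
      · intro h
        rw [← h, mul_inv_cancel_left₀ hu]
    simp_rw [h3]
    rw [Finset.sum_ite_eq]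
    simp
  rw [Finset.sum_congr rfl h2, Finset.sum_const, Finset.card_product, card_box]
  simp

theorem nu2_sq (h : ι * ι = -1) (A : Finset (ℕ × ℕ)) (X M : ℕ) (hA : Mult A M)
    (hA0 : ∀ a ∈ A, gz ι a ≠ 0) (hlt : 16 * (M ^ 2 * X ^ 2) < p) :
    ∑ x : ZMod p, (nu2 ι A X x) ^ 2 ≤ 37 * (A.card * X ^ 2) := by
  classical
  refine le_trans ?_ (sum_cn2 A X M hA)
  have e1 : ∀ x : ZMod p, (nu2 ι A X x) ^ 2 = ∑ w ∈ A ×ˢ box X, ∑ w' ∈ A ×ˢ box X,
      (if gz ι w.2 = gz ι w.1 * x ∧ gz ι w'.2 = gz ι w'.1 * x then 1 else 0) := by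
    intro x
    rw [nu2, pow_two, Finset.card_filter, Finset.sum_mul_sum]
    refine Finset.sum_congr rfl fun w _ => Finset.sum_congr rfl fun w' _ => ?_
    by_cases h1 : gz ι w.2 = gz ι w.1 * x <;>
      by_cases h2 : gz ι w'.2 = gz ι w'.1 * x <;> simp [h1, h2]
  rw [Finset.sum_congr rfl fun x _ => e1 x, Finset.sum_comm]
  have e2 : ∀ w ∈ A ×ˢ box X, ∑ x : ZMod p, ∑ w' ∈ A ×ˢ box X,
      (if gz ι w.2 = gz ι w.1 * x ∧ gz ι w'.2 = gz ι w'.1 * x then 1 else 0) ≤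
      ∑ w' ∈ A ×ˢ box X, (if gi w'.1 * gi w.2 = gi w.1 * gi w'.2 then 1 else 0) := by
    intro w hw
    rw [Finset.sum_comm]
    refine Finset.sum_le_sum fun w' hw' => ?_
    rw [mem_product] at hw hw'
    rw [← Finset.card_filter]
    have hu := hA0 _ hw.1
    have hle1 : (univ.filter fun x : ZMod p => gz ι w.2 = gz ι w.1 * x ∧
        gz ι w'.2 = gz ι w'.1 * x).card ≤ 1 := by
      rw [Finset.card_le_one]
      intro x hx x' hx'
      rw [mem_filter] at hx hx'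
      exact mul_left_cancel₀ hu (hx.2.1.symm.trans hx'.2.1)
    by_cases hc : gi w'.1 * gi w.2 = gi w.1 * gi w'.2
    · rw [if_pos hc]; exact hle1
    · rw [if_neg hc, Nat.le_zero, Finset.card_eq_zero, Finset.filter_eq_empty_iff]
      rintro x - ⟨h1, h2⟩
      apply hc
      apply eq_of_phi ι h
      · rw [map_mul, map_mul, phi_gi, phi_gi, phi_gi, phi_gi, h1, h2]
        ring
      · refine lt_of_le_of_lt (norm_sub_le _ _) ?_
        rw [Zsqrtd.norm_mul, Zsqrtd.norm_mul, norm_gi, norm_gi, norm_gi, norm_gi]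
        have b1 := nm_le hw.2
        have b2 := nm_le hw'.2
        have c1 : nm w.1 ≤ 2 * M ^ 2 := by
          have := hA.le _ hw.1
          unfold nm
          have h1 := Nat.pow_le_pow_left this.1 2
          have h2 := Nat.pow_le_pow_left this.2 2
          omega
        have c2 : nm w'.1 ≤ 2 * M ^ 2 := by
          have := hA.le _ hw'.1
          unfold nm
          have h1 := Nat.pow_le_pow_left this.1 2
          have h2 := Nat.pow_le_pow_left this.2 2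
          omega
        have d1 : nm w'.1 * nm w.2 ≤ 2 * M ^ 2 * (2 * X ^ 2) := Nat.mul_le_mul c2 b1
        have d2 : nm w.1 * nm w'.2 ≤ 2 * M ^ 2 * (2 * X ^ 2) := Nat.mul_le_mul c1 b2
        have d3 : 2 * (nm w'.1 * nm w.2 + nm w.1 * nm w'.2) < p := by
          calc 2 * (nm w'.1 * nm w.2 + nm w.1 * nm w'.2) ≤
              2 * (2 * M ^ 2 * (2 * X ^ 2) + 2 * M ^ 2 * (2 * X ^ 2)) := by omega
            _ = 16 * (M ^ 2 * X ^ 2) := by ring
            _ < p := hlt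
        exact_mod_cast d3
  refine (Finset.sum_le_sum e2).trans_eq ?_
  rw [Finset.sum_product]
  refine Finset.sum_congr rfl fun a _ => ?_
  have e3 : ∀ m ∈ box X, ∑ w' ∈ A ×ˢ box X, (if gi w'.1 * gi m = gi a * gi w'.2 then 1 else 0) =
      ∑ b ∈ A, ∑ m' ∈ box X, (if gi b * gi m = gi a * gi m' then 1 else 0) := by
    intro m _
    rw [Finset.sum_product]
  rw [Finset.sum_congr rfl e3, Finset.sum_comm]
  refine Finset.sum_congr rfl fun b _ => ?_
  rw [cn2, Finset.card_filter, Finset.sum_product]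

/-- shifting in both directions -/
theorem shift2 (f : ℕ → ℕ → ℂ) (hf : ∀ a b, ‖f a b‖ ≤ 1) (X h k : ℕ) :
    ‖∑ m ∈ box X, f m.1 m.2 - ∑ m ∈ box X, f (m.1 + h) (m.2 + k)‖ ≤ 2 * (h + k) * X := by
  have e1 : ∀ g : ℕ → ℕ → ℂ, ∑ m ∈ box X, g m.1 m.2 = ∑ a ∈ Icc 1 X, ∑ b ∈ Icc 1 X, g a b := by
    intro g
    unfold box
    rw [Finset.sum_product]
  rw [e1 f, e1 (fun a b => f (a + h) (b + k))]
  have e2 : ∑ a ∈ Icc 1 X, ∑ b ∈ Icc 1 X, f a b - ∑ a ∈ Icc 1 X, ∑ b ∈ Icc 1 X, f (a + h) (b + k) =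
      ∑ b ∈ Icc 1 X, (∑ a ∈ Icc 1 X, f a b - ∑ a ∈ Icc 1 X, f (a + h) b) +
      ∑ a ∈ Icc 1 X, (∑ b ∈ Icc 1 X, f (a + h) b - ∑ b ∈ Icc 1 X, f (a + h) (b + k)) := by
    rw [Finset.sum_sub_distrib, Finset.sum_sub_distrib,
      Finset.sum_comm (s := Icc 1 X) (t := Icc 1 X) (f := fun b a => f a b),
      Finset.sum_comm (s := Icc 1 X) (t := Icc 1 X) (f := fun b a => f (a + h) b)]
    ring
  rw [e2]
  refine (norm_add_le _ _).trans ?_
  have h1 : ‖∑ b ∈ Icc 1 X, (∑ a ∈ Icc 1 X, f a b - ∑ a ∈ Icc 1 X, f (a + h) b)‖ ≤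
      X * (2 * h) := by
    refine (norm_sum_le _ _).trans ?_
    calc ∑ b ∈ Icc 1 X, ‖∑ a ∈ Icc 1 X, f a b - ∑ a ∈ Icc 1 X, f (a + h) b‖ ≤
        ∑ _b ∈ Icc 1 X, (2 * h : ℝ) :=
          Finset.sum_le_sum fun b _ => SHFx.shift (fun a => f a b) (fun a => hf a b) X h
      _ = X * (2 * h) := by rw [sum_const, Nat.card_Icc, nsmul_eq_mul]; simp
  have h2 : ‖∑ a ∈ Icc 1 X, (∑ b ∈ Icc 1 X, f (a + h) b - ∑ b ∈ Icc 1 X, f (a + h) (b + k))‖ ≤
      X * (2 * k) := by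
    refine (norm_sum_le _ _).trans ?_
    calc ∑ a ∈ Icc 1 X, ‖∑ b ∈ Icc 1 X, f (a + h) b - ∑ b ∈ Icc 1 X, f (a + h) (b + k)‖ ≤
        ∑ _a ∈ Icc 1 X, (2 * k : ℝ) :=
          Finset.sum_le_sum fun a _ => SHFx.shift (fun b => f (a + h) b) (fun b => hf _ b) X k
      _ = X * (2 * k) := by rw [sum_const, Nat.card_Icc, nsmul_eq_mul]; simp
  linarith

theorem shf2 (χ : DirichletCharacter ℂ p) (A : Finset (ℕ × ℕ)) (X M B : ℕ)
    (hA0 : ∀ a ∈ A, gz ι a ≠ 0) (hM : ∀ a ∈ A, a.1 ≤ M ∧ a.2 ≤ M) :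
    (A.card : ℝ) * B * ‖boxSum ι χ X‖ ≤
      ∑ x : ZMod p, (nu2 ι A X x : ℝ) * ‖∑ b ∈ range B, χ (x + (b : ZMod p))‖ +
        (A.card : ℝ) * B * (4 * M * B * X) := by
  classical
  have : NeZero p := ⟨(Fact.out : p.Prime).ne_zero⟩
  set T : ZMod p → ℝ := fun x => ‖∑ b ∈ range B, χ (x + (b : ZMod p))‖ with hT
  have hχ : ∀ a : ZMod p, ‖χ a‖ ≤ 1 := fun a => χ.norm_le_one a
  have h1 : ∀ a ∈ A, ∀ b ∈ range B,
      ‖boxSum ι χ X - ∑ m ∈ box X, χ (gz ι m + gz ι a * (b : ZMod p))‖ ≤ 4 * M * B * X := by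
    intro a ha b hb
    rw [Finset.mem_range] at hb
    have h := shift2 (fun x y => χ (gz ι (x, y))) (fun x y => hχ _) X (a.1 * b) (a.2 * b)
    have e : ∑ m ∈ box X, χ (gz ι (m.1 + a.1 * b, m.2 + a.2 * b)) =
        ∑ m ∈ box X, χ (gz ι m + gz ι a * (b : ZMod p)) := by
      refine Finset.sum_congr rfl fun m _ => ?_
      congr 1
      unfold gz
      push_cast
      ring
    rw [e] at h
    refine h.trans ?_
    have h2 : a.1 * b + a.2 * b ≤ 2 * (M * B) := by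
      have := Nat.mul_le_mul (hM a ha).1 hb.le
      have := Nat.mul_le_mul (hM a ha).2 hb.le
      omega
    have h3 : ((a.1 * b : ℕ) : ℝ) + ((a.2 * b : ℕ) : ℝ) ≤ 2 * (M * B) := by exact_mod_cast h2
    calc 2 * (((a.1 * b : ℕ) : ℝ) + ((a.2 * b : ℕ) : ℝ)) * X ≤ 2 * (2 * (M * B)) * X := by
          gcongr
      _ = 4 * M * B * X := by ring
  have h2 : ‖∑ a ∈ A, ∑ b ∈ range B, ∑ m ∈ box X, χ (gz ι m + gz ι a * (b : ZMod p))‖ ≤
      ∑ x : ZMod p, (nu2 ι A X x : ℝ) * T x := by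
    have e1 : ∑ a ∈ A, ∑ b ∈ range B, ∑ m ∈ box X, χ (gz ι m + gz ι a * (b : ZMod p)) =
        ∑ w ∈ A ×ˢ box X, ∑ b ∈ range B, χ (gz ι w.2 + gz ι w.1 * (b : ZMod p)) := by
      rw [Finset.sum_product]
      refine Finset.sum_congr rfl fun a _ => ?_
      rw [Finset.sum_comm]
    rw [e1]
    refine (norm_sum_le _ _).trans ?_
    have e2 : ∑ x : ZMod p, (nu2 ι A X x : ℝ) * T x =
        ∑ w ∈ A ×ˢ box X, ∑ x : ZMod p, if gz ι w.2 = gz ι w.1 * x then T x else 0 := by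
      rw [Finset.sum_comm]
      refine Finset.sum_congr rfl fun x _ => ?_
      unfold nu2
      rw [Finset.card_filter]
      push_cast
      rw [Finset.sum_mul]
      refine Finset.sum_congr rfl fun w _ => ?_
      split_ifs <;> simp
    rw [e2]
    refine Finset.sum_le_sum fun w hw => ?_
    rw [Finset.mem_product] at hw
    have hu := hA0 _ hw.1
    set x0 : ZMod p := (gz ι w.1)⁻¹ * gz ι w.2 with hx0
    have hx1 : gz ι w.1 * x0 = gz ι w.2 := by
      rw [hx0, mul_inv_cancel_left₀ hu]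
    have h3 : ∑ x : ZMod p, (if gz ι w.2 = gz ι w.1 * x then T x else 0) = T x0 := by
      rw [Finset.sum_eq_single x0]
      · rw [if_pos hx1.symm]
      · intro y _ hy
        rw [if_neg]
        intro h
        apply hy
        rw [hx0, h, inv_mul_cancel_left₀ hu]
      · intro h; exact absurd (Finset.mem_univ _) h
    rw [h3]
    have e3 : ∑ b ∈ range B, χ (gz ι w.2 + gz ι w.1 * (b : ZMod p)) =
        χ (gz ι w.1) * ∑ b ∈ range B, χ (x0 + (b : ZMod p)) := by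
      rw [Finset.mul_sum]
      refine Finset.sum_congr rfl fun b _ => ?_
      rw [← map_mul]
      congr 1
      rw [mul_add, hx1]
    rw [e3, norm_mul]
    calc ‖χ (gz ι w.1)‖ * ‖∑ b ∈ range B, χ (x0 + (b : ZMod p))‖
        ≤ 1 * ‖∑ b ∈ range B, χ (x0 + (b : ZMod p))‖ :=
          mul_le_mul_of_nonneg_right (hχ _) (norm_nonneg _)
      _ = T x0 := one_mul _
  have h3 : ‖∑ a ∈ A, ∑ b ∈ range B, (boxSum ι χ X -
      ∑ m ∈ box X, χ (gz ι m + gz ι a * (b : ZMod p)))‖ ≤ (A.card : ℝ) * B * (4 * M * B * X) := by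
    refine (norm_sum_le _ _).trans ?_
    have h4 : ∀ a ∈ A, ‖∑ b ∈ range B, (boxSum ι χ X -
        ∑ m ∈ box X, χ (gz ι m + gz ι a * (b : ZMod p)))‖ ≤ B * (4 * M * B * X) := by
      intro a ha
      refine (norm_sum_le _ _).trans ?_
      refine (Finset.sum_le_sum fun b hb => h1 a ha b hb).trans ?_
      rw [Finset.sum_const, Finset.card_range, nsmul_eq_mul]
    refine (Finset.sum_le_sum h4).trans ?_
    rw [Finset.sum_const, nsmul_eq_mul]
    exact le_of_eq (by ring)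
  have e4 : (A.card : ℂ) * B * boxSum ι χ X =
      ∑ a ∈ A, ∑ b ∈ range B, (boxSum ι χ X -
        ∑ m ∈ box X, χ (gz ι m + gz ι a * (b : ZMod p))) +
      ∑ a ∈ A, ∑ b ∈ range B, ∑ m ∈ box X, χ (gz ι m + gz ι a * (b : ZMod p)) := by
    rw [← Finset.sum_add_distrib]
    have : ∀ a ∈ A, (∑ b ∈ range B, (boxSum ι χ X -
        ∑ m ∈ box X, χ (gz ι m + gz ι a * (b : ZMod p))) +
        ∑ b ∈ range B, ∑ m ∈ box X, χ (gz ι m + gz ι a * (b : ZMod p))) = B * boxSum ι χ X := by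
      intro a _
      rw [← Finset.sum_add_distrib]
      simp only [sub_add_cancel]
      rw [Finset.sum_const, Finset.card_range, nsmul_eq_mul]
    rw [Finset.sum_congr rfl this, Finset.sum_const, nsmul_eq_mul, mul_assoc]
  have e5 : (A.card : ℝ) * B * ‖boxSum ι χ X‖ = ‖(A.card : ℂ) * B * boxSum ι χ X‖ := by
    rw [norm_mul, norm_mul, Complex.norm_natCast, Complex.norm_natCast]
  rw [e5, e4]
  refine (norm_add_le _ _).trans ?_
  linarith

theorem bin2 (h : ι * ι = -1) (χ : DirichletCharacter ℂ p) (A : Finset (ℕ × ℕ)) (X M B r : ℕ)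
    (K : ℝ) (hr : 1 ≤ r) (hK : 0 ≤ K) (hB : 1 ≤ B) (hX : 1 ≤ X) (hAne : A.Nonempty)
    (hA : Mult A M) (hA0 : ∀ a ∈ A, gz ι a ≠ 0) (hlt : 16 * (M ^ 2 * X ^ 2) < p)
    (hNB : Real.sqrt p ≤ (B : ℝ) ^ r) [NeZero p] (hC : Complete p χ r B K) :
    ‖boxSum ι χ X‖ ≤ 4 * M * B * X +
      X ^ 2 * (37 * ((r : ℝ) ^ (2 * r) + K) * Real.sqrt p / (A.card * X ^ 2)) ^
        (1 / (2 * r : ℝ)) := by
  set Tf : ZMod p → ℝ := fun x => ‖∑ b ∈ range B, χ (x + (b : ZMod p))‖ with hTf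
  set P : ℝ := (A.card : ℝ) with hP
  set Y : ℝ := (X : ℝ) ^ 2 with hY
  have hP1 : 1 ≤ P := by
    rw [hP]; exact_mod_cast hAne.card_pos
  have hX1 : (1 : ℝ) ≤ X := by exact_mod_cast hX
  have hY1 : (1 : ℝ) ≤ Y := by rw [hY]; nlinarith
  have hB1 : (1 : ℝ) ≤ B := by exact_mod_cast hB
  have hP0 : 0 < P := by linarith
  have hX0 : (0 : ℝ) < X := by linarith
  have hY0 : (0 : ℝ) < Y := by linarith
  have hB0 : (0 : ℝ) < B := by linarith
  set S : ℝ := ∑ x : ZMod p, (nu2 ι A X x : ℝ) * Tf x with hS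
  have hS0 : 0 ≤ S := Finset.sum_nonneg (fun x _ => mul_nonneg (Nat.cast_nonneg _) (norm_nonneg _))
  have e1 : ∑ x : ZMod p, (nu2 ι A X x : ℝ) = P * Y := by
    have := nu2_sum ι A X hA0
    rw [hP, hY]
    exact_mod_cast this
  have e2 : ∑ x : ZMod p, ((nu2 ι A X x : ℝ)) ^ 2 ≤ 37 * P * Y := by
    have := nu2_sq ι h A X M hA hA0 hlt
    rw [hP, hY, mul_assoc]
    exact_mod_cast this
  have e3 : ∑ x : ZMod p, Tf x ^ (2 * r) ≤
      ((r : ℝ) ^ (2 * r) + K) * (B : ℝ) ^ (2 * r) * Real.sqrt p := by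
    refine (mom tup p χ r B K hr hK hC).trans ?_
    have hN0 : (0 : ℝ) ≤ p := Nat.cast_nonneg _
    have hNs : (p : ℝ) = Real.sqrt p * Real.sqrt p := (Real.mul_self_sqrt hN0).symm
    have h6 : (B : ℝ) ^ r * p ≤ (B : ℝ) ^ (2 * r) * Real.sqrt p := by
      calc (B : ℝ) ^ r * p = (B : ℝ) ^ r * (Real.sqrt p * Real.sqrt p) := by rw [← hNs]
        _ = (B : ℝ) ^ r * Real.sqrt p * Real.sqrt p := by ring
        _ ≤ (B : ℝ) ^ r * (B : ℝ) ^ r * Real.sqrt p := by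
            apply mul_le_mul_of_nonneg_right _ (Real.sqrt_nonneg _)
            exact mul_le_mul_of_nonneg_left hNB (by positivity)
        _ = (B : ℝ) ^ (2 * r) * Real.sqrt p := by rw [two_mul, pow_add]
    have h7 : (r : ℝ) ^ (2 * r) * ((B : ℝ) ^ r * p) ≤
        (r : ℝ) ^ (2 * r) * ((B : ℝ) ^ (2 * r) * Real.sqrt p) :=
      mul_le_mul_of_nonneg_left h6 (by positivity)
    nlinarith [h7]
  set Q : ℝ := 37 * ((r : ℝ) ^ (2 * r) + K) * Real.sqrt p / (P * Y) with hQ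
  have hQ0 : 0 ≤ Q := by rw [hQ]; positivity
  have hH := hol (ZMod p) r hr (fun x => (nu2 ι A X x : ℝ)) Tf (fun x => Nat.cast_nonneg _)
    (fun x => norm_nonneg _)
  have hpow : S ^ (2 * r) ≤ (P * Y * B) ^ (2 * r) * Q := by
    refine hH.trans ?_
    rw [e1]
    have h8 : (P * Y) ^ (2 * r - 2) * (∑ x : ZMod p, ((nu2 ι A X x : ℝ)) ^ 2) *
        ∑ x : ZMod p, Tf x ^ (2 * r) ≤ (P * Y) ^ (2 * r - 2) * (37 * P * Y) *
        (((r : ℝ) ^ (2 * r) + K) * (B : ℝ) ^ (2 * r) * Real.sqrt p) := by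
      apply mul_le_mul _ e3 (Finset.sum_nonneg (fun x _ => by positivity)) (by positivity)
      exact mul_le_mul_of_nonneg_left e2 (by positivity)
    refine h8.trans (le_of_eq ?_)
    have h9 : (P * Y * B) ^ (2 * r) =
        (P * Y) ^ (2 * r - 2) * (P * Y) ^ 2 * (B : ℝ) ^ (2 * r) := by
      rw [← pow_add, mul_pow (P * Y) (B : ℝ)]
      congr 2
      omega
    rw [h9, hQ]
    field_simp
  have hroot : S ≤ P * Y * B * Q ^ (1 / (2 * r : ℝ)) := by
    have hr0 : (2 * r : ℕ) ≠ 0 := by omega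
    have hq : (Q ^ (1 / (2 * r : ℝ))) ^ (2 * r) = Q := by
      rw [← Real.rpow_natCast, ← Real.rpow_mul hQ0]
      have : 1 / (2 * (r : ℝ)) * ((2 * r : ℕ) : ℝ) = 1 := by
        push_cast
        have : (r : ℝ) ≠ 0 := by
          have : (1 : ℝ) ≤ r := by exact_mod_cast hr
          linarith
        field_simp
      rw [this, Real.rpow_one]
    have h10 : S ^ (2 * r) ≤ (P * Y * B * Q ^ (1 / (2 * r : ℝ))) ^ (2 * r) := by
      rw [mul_pow (P * Y * B), hq]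
      exact hpow
    exact (pow_le_pow_iff_left₀ hS0 (by positivity) hr0).1 h10
  have hsh := shf2 ι χ A X M B hA0 hA.le
  have hfin : P * B * ‖boxSum ι χ X‖ ≤
      P * B * (4 * M * B * X + Y * Q ^ (1 / (2 * r : ℝ))) := by
    calc P * B * ‖boxSum ι χ X‖ ≤ S + P * B * (4 * M * B * X) := hsh
      _ ≤ P * Y * B * Q ^ (1 / (2 * r : ℝ)) + P * B * (4 * M * B * X) := by linarith
      _ = _ := by ring
  exact le_of_mul_le_mul_left hfin (by positivity)

end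

end Pool.Agent.H96.PR
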