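import Pool.Agent.H96.PR.M4

/-!
# The primes which are one modulo four: sums over intervals, and a lower bound for their number
-/

set_option autoImplicit false

namespace Pool.Agent.H96.PR.M4

open Finset Filter Topology

/-- the primes `≤ N` which are `1` modulo `4` -/
def P4 (N : ℕ) : Finset ℕ := (Icc 1 N).filter (fun q => q.Prime ∧ q % 4 = 1)

lemma split4 (S : Finset ℕ) (f : ℕ → ℝ) :
    ∑ q ∈ S.filter (fun q => q.Prime ∧ q % 4 = 1), f q =
      1 / 2 * (∑ q ∈ S.filter Nat.Prime, f q) + 1 / 2 * (∑ q ∈ S.filter Nat.Prime, chi q * f q) -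
        1 / 2 * (if 2 ∈ S then f 2 else 0) := by
  have h2 : (if 2 ∈ S then f 2 else 0) = ∑ q ∈ S.filter Nat.Prime, if q = 2 then f q else 0 := by
    rw [Finset.sum_ite_eq']
    simp only [mem_filter, Nat.prime_two, and_true]
  have h1 : ∑ q ∈ S.filter (fun q => q.Prime ∧ q % 4 = 1), f q =
      ∑ q ∈ S.filter Nat.Prime, if q % 4 = 1 then f q else 0 := by
    rw [← Finset.filter_filter, Finset.sum_filter]
  rw [h1, h2, Finset.mul_sum, Finset.mul_sum, Finset.mul_sum, ← Finset.sum_add_distrib,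
    ← Finset.sum_sub_distrib]
  refine Finset.sum_congr rfl fun q hq => ?_
  rw [mem_filter] at hq
  have hp := hq.2
  unfold chi
  by_cases hq2 : q = 2
  · subst hq2
    norm_num
  · have hodd := hp.odd_of_ne_two hq2
    have h4 : q % 4 = 1 ∨ q % 4 = 3 := by
      obtain ⟨k, hk⟩ := hodd
      omega
    rcases h4 with h | h
    · rw [h]
      simp only [if_true, hq2, if_false]
      ring
    · rw [h]
      norm_num
      exact fun h => absurd h hq2

/-- the sum of `log q / q` over the primes `q ≤ N`, `q = 1` modulo `4` -/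
theorem log_sum : ∃ C : ℝ, 0 ≤ C ∧ ∀ N : ℕ, 1 ≤ N →
    |∑ q ∈ P4 N, Real.log q / q - 1 / 2 * Real.log N| ≤ C := by
  obtain ⟨C1, h1⟩ := Pool.Agent.Helper923.HMertens.mertens_log
  obtain ⟨C2, h2⟩ := chi_prime_sum
  have hC1 : 0 ≤ C1 := (abs_nonneg _).trans (h1 1 le_rfl)
  have hC2 : 0 ≤ C2 := (abs_nonneg _).trans (h2 1)
  refine ⟨C1 + C2 + 1, by positivity, fun N hN => ?_⟩
  have h3 := h1 N hN
  have h4 := h2 N
  unfold P4
  rw [split4]
  have e1 : ∑ q ∈ (Icc 1 N).filter Nat.Prime, chi q * (Real.log q / q) =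
      ∑ q ∈ (Icc 1 N).filter Nat.Prime, chi q * Real.log q / q :=
    Finset.sum_congr rfl fun q _ => by ring
  rw [e1]
  have h5 : |1 / 2 * (if 2 ∈ Icc 1 N then Real.log (2 : ℕ) / (2 : ℕ) else 0)| ≤ 1 := by
    have h6 : Real.log (2 : ℕ) ≤ 1 := by
      have := Real.log_two_lt_d9
      push_cast
      linarith
    have h7 : 0 ≤ Real.log (2 : ℕ) := Real.log_natCast_nonneg 2
    split_ifs
    · push_cast at *
      rw [abs_of_nonneg (by positivity)]
      linarith
    · simp
  have a1 := abs_le.1 h3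
  have a2 := abs_le.1 h4
  have a3 := abs_le.1 h5
  rw [abs_le]
  constructor <;> linarith [a1.1, a1.2, a2.1, a2.2, a3.1, a3.2]

lemma sum_Ioc_succ (f : ℕ → ℝ) (a b : ℕ) (hab : a ≤ b) :
    ∑ q ∈ (Ioc a (b + 1)).filter Nat.Prime, f q =
      ∑ q ∈ (Ioc a b).filter Nat.Prime, f q + if (b + 1).Prime then f (b + 1) else 0 := by
  rw [Finset.sum_filter, Finset.sum_filter, Finset.sum_Ioc_succ_top (by omega)]

lemma sum_Icc_succ (f : ℕ → ℝ) (b : ℕ) :
    ∑ q ∈ (Icc 1 (b + 1)).filter Nat.Prime, f q =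
      ∑ q ∈ (Icc 1 b).filter Nat.Prime, f q + if (b + 1).Prime then f (b + 1) else 0 := by
  rw [Finset.sum_filter, Finset.sum_filter, Finset.sum_Icc_succ_top (by omega)]

/-- the sum of `χ(q) / q` over an interval -/
theorem chi_ratio : ∃ C : ℝ, 0 ≤ C ∧ ∀ a b : ℕ, 2 ≤ a → a ≤ b →
    |∑ q ∈ (Ioc a b).filter Nat.Prime, chi q * (1 / q)| ≤ C / Real.log a := by
  obtain ⟨C, hC⟩ := chi_prime_sum
  have hC0 : 0 ≤ C := (abs_nonneg _).trans (hC 1)
  refine ⟨2 * C, by positivity, fun a b ha hab => ?_⟩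
  have ha' : (2 : ℝ) ≤ a := by exact_mod_cast ha
  have hla : 0 < Real.log a := Real.log_pos (by linarith)
  have key : |∑ q ∈ (Ioc a b).filter Nat.Prime, chi q * (1 / q) -
      (∑ p ∈ (Icc 1 b).filter Nat.Prime, chi p * Real.log p / p) / Real.log b| ≤
      C * (2 / Real.log a - 1 / Real.log b) := by
    induction b, hab using Nat.le_induction with
    | base =>
      rw [Finset.Ioc_self, Finset.filter_empty, Finset.sum_empty, zero_sub, abs_neg, abs_div,
        abs_of_pos hla]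
      calc _ ≤ C / Real.log a := div_le_div_of_nonneg_right (hC a) hla.le
        _ = _ := by ring
    | succ b hb ih =>
      have hb' : (2 : ℝ) ≤ b := by exact_mod_cast ha.trans hb
      have hlb : 0 < Real.log b := Real.log_pos (by linarith)
      have hlb1 : Real.log b ≤ Real.log ((b + 1 : ℕ) : ℝ) := by
        apply Real.log_le_log (by linarith)
        push_cast
        linarith
      have hlb2 : 0 < Real.log ((b + 1 : ℕ) : ℝ) := by linarith
      rw [sum_Ioc_succ _ _ _ hb, sum_Icc_succ]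
      set A := ∑ p ∈ (Icc 1 b).filter Nat.Prime, chi p * Real.log p / p with hA
      set S := ∑ q ∈ (Ioc a b).filter Nat.Prime, chi q * (1 / q) with hS
      have e : S + (if (b + 1).Prime then chi (b + 1) * (1 / ((b + 1 : ℕ) : ℝ)) else 0) -
          (A + if (b + 1).Prime then chi (b + 1) * Real.log ((b + 1 : ℕ) : ℝ) / ((b + 1 : ℕ) : ℝ)
            else 0) / Real.log ((b + 1 : ℕ) : ℝ) =
          (S - A / Real.log b) + A * (1 / Real.log b - 1 / Real.log ((b + 1 : ℕ) : ℝ)) := by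
        split_ifs
        · field_simp
          ring
        · field_simp
          ring
      rw [e]
      have h1 : 0 ≤ 1 / Real.log b - 1 / Real.log ((b + 1 : ℕ) : ℝ) := by
        rw [sub_nonneg]
        exact one_div_le_one_div_of_le hlb hlb1
      have h2 : |A * (1 / Real.log b - 1 / Real.log ((b + 1 : ℕ) : ℝ))| ≤
          C * (1 / Real.log b - 1 / Real.log ((b + 1 : ℕ) : ℝ)) := by
        rw [abs_mul, abs_of_nonneg h1]
        exact mul_le_mul_of_nonneg_right (hC b) h1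
      refine (abs_add_le _ _).trans ((add_le_add ih h2).trans (le_of_eq ?_))
      ring
  have hb' : (2 : ℝ) ≤ b := by exact_mod_cast ha.trans hab
  have hlb : 0 < Real.log b := Real.log_pos (by linarith)
  have h3 : |(∑ p ∈ (Icc 1 b).filter Nat.Prime, chi p * Real.log p / p) / Real.log b| ≤
      C / Real.log b := by
    rw [abs_div, abs_of_pos hlb]
    exact div_le_div_of_nonneg_right (hC b) hlb.le
  have h4 := abs_le.1 key
  have h5 := abs_le.1 h3
  have e1 : C * (2 / Real.log a - 1 / Real.log b) = 2 * C / Real.log a - C / Real.log b := by ring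
  rw [e1] at h4
  rw [abs_le]
  constructor <;> linarith [h4.1, h4.2, h5.1, h5.2]

/-- **the sum of `1 / q` over the primes `q = 1` modulo `4` of an interval** -/
theorem ratio4 : ∃ C : ℝ, 0 ≤ C ∧ ∀ a b : ℕ, 2 ≤ a → a ≤ b →
    ∑ q ∈ (Ioc a b).filter (fun q => q.Prime ∧ q % 4 = 1), (1 : ℝ) / q ≤
      1 / 2 * Real.log (Real.log b / Real.log a) + C / Real.log a := by
  obtain ⟨C1, hC1, h1⟩ := Pool.Agent.Helper923.HMertens.mertens_ratio
  obtain ⟨C2, hC2, h2⟩ := chi_ratio
  refine ⟨C1 + C2, by positivity, fun a b ha hab => ?_⟩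
  rw [split4]
  have h3 := (abs_le.1 (h1 a b ha hab)).2
  have h4 := (abs_le.1 (h2 a b ha hab)).2
  have h5 : (if 2 ∈ Ioc a b then (1 : ℝ) / (2 : ℕ) else 0) = 0 := by
    rw [if_neg]
    rw [mem_Ioc]
    omega
  rw [h5]
  have ha' : (2 : ℝ) ≤ a := by exact_mod_cast ha
  have hla : 0 < Real.log a := Real.log_pos (by linarith)
  have h6 : 0 ≤ C1 / Real.log a := by positivity
  have h7 : 0 ≤ C2 / Real.log a := by positivity
  rw [add_div]
  linarith

/-- **many primes `q = 1` modulo `4`** -/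
theorem many4 (θ : ℝ) (hθ : 0 < θ) (hθ1 : θ < 1) : ∀ᶠ N : ℕ in atTop,
    (N : ℝ) ^ (1 - θ) ≤ #(P4 N) := by
  obtain ⟨C, hC0, hC⟩ := log_sum
  have hev1 : ∀ᶠ N : ℕ in atTop, (16 / θ : ℝ) ≤ (N : ℝ) ^ (θ / 2) :=
    ((tendsto_rpow_atTop (by positivity)).comp tendsto_natCast_atTop_atTop).eventually_ge_atTop _
  have hev2 : ∀ᶠ N : ℕ in atTop, (16 * C / θ : ℝ) ≤ Real.log N :=
    (Real.tendsto_log_atTop.comp tendsto_natCast_atTop_atTop).eventually_ge_atTop _
  filter_upwards [hev1, hev2, eventually_ge_atTop 3] with N h1 h2 h3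
  have hN : (3 : ℝ) ≤ N := by exact_mod_cast h3
  have hN0 : (0 : ℝ) < N := by linarith
  have hlN : 1 ≤ Real.log N := by
    rw [Real.le_log_iff_exp_le hN0]
    have := Real.exp_one_lt_d9
    linarith
  set m : ℕ := ⌊(N : ℝ) ^ (1 - θ / 2)⌋₊ with hm
  have hpow1 : (1 : ℝ) ≤ (N : ℝ) ^ (1 - θ / 2) := Real.one_le_rpow (by linarith) (by linarith)
  have hm1 : 1 ≤ m := Nat.le_floor (by exact_mod_cast hpow1)
  have hm2 : (m : ℝ) ≤ (N : ℝ) ^ (1 - θ / 2) := Nat.floor_le (by positivity)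
  have hm3 : (N : ℝ) ^ (1 - θ / 2) < m + 1 := Nat.lt_floor_add_one _
  have hmN : m ≤ N := by
    have : (m : ℝ) ≤ N := by
      refine hm2.trans ?_
      calc (N : ℝ) ^ (1 - θ / 2) ≤ (N : ℝ) ^ (1 : ℝ) :=
            Real.rpow_le_rpow_of_exponent_le (by linarith) (by linarith)
        _ = N := Real.rpow_one _
    exact_mod_cast this
  have hlm : Real.log m ≤ (1 - θ / 2) * Real.log N := by
    rw [← Real.log_rpow hN0]
    exact Real.log_le_log (by exact_mod_cast hm1) hm2
  have a1 := (abs_le.1 (hC N (by omega))).1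
  have a2 := (abs_le.1 (hC m hm1)).2
  -- the primes above `m`
  have hsub : P4 m ⊆ P4 N := by
    intro q hq
    unfold P4 at *
    rw [mem_filter, mem_Icc] at *
    exact ⟨⟨hq.1.1, by omega⟩, hq.2⟩
  have hdiff : ∑ q ∈ P4 N, Real.log q / q - ∑ q ∈ P4 m, Real.log q / q =
      ∑ q ∈ P4 N \ P4 m, Real.log q / q := by
    rw [← Finset.sum_sdiff hsub]
    ring
  have hbd : ∑ q ∈ P4 N \ P4 m, Real.log q / q ≤
      #(P4 N) * (Real.log N / (N : ℝ) ^ (1 - θ / 2)) := by
    have hcard : #(P4 N \ P4 m) ≤ #(P4 N) := card_le_card sdiff_subset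
    calc ∑ q ∈ P4 N \ P4 m, Real.log q / q ≤
        ∑ _q ∈ P4 N \ P4 m, Real.log N / (N : ℝ) ^ (1 - θ / 2) := by
          apply Finset.sum_le_sum
          intro q hq
          rw [Finset.mem_sdiff] at hq
          unfold P4 at hq
          simp only [mem_filter, mem_Icc, not_and] at hq
          have hqN : q ≤ N := hq.1.1.2
          have hq1 : 1 ≤ q := hq.1.1.1
          have hqm : m < q := by
            by_contra hc
            exact hq.2 ⟨hq1, by omega⟩ hq.1.2.1 hq.1.2.2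
          have hqr : (N : ℝ) ^ (1 - θ / 2) ≤ q := by
            have : ((m + 1 : ℕ) : ℝ) ≤ q := by exact_mod_cast hqm
            push_cast at this
            linarith
          have hq0 : (0 : ℝ) < q := by exact_mod_cast hq1
          apply div_le_div₀ (by linarith) _ (by positivity) hqr
          exact Real.log_le_log hq0 (by exact_mod_cast hqN)
      _ = #(P4 N \ P4 m) * (Real.log N / (N : ℝ) ^ (1 - θ / 2)) := by
          rw [sum_const, nsmul_eq_mul]
      _ ≤ _ := by
          apply mul_le_mul_of_nonneg_right (by exact_mod_cast hcard)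
          positivity
  have hmain : θ / 4 * Real.log N - 2 * C ≤ #(P4 N) * (Real.log N / (N : ℝ) ^ (1 - θ / 2)) := by
    rw [← hdiff] at hbd
    refine le_trans ?_ hbd
    linarith
  have h5 : θ / 8 * Real.log N ≤ #(P4 N) * (Real.log N / (N : ℝ) ^ (1 - θ / 2)) := by
    refine le_trans ?_ hmain
    have h6 : 16 * C ≤ θ * Real.log N := by
      rw [div_le_iff₀ hθ] at h2
      linarith
    linarith
  have h6 : θ / 8 * (N : ℝ) ^ (1 - θ / 2) ≤ #(P4 N) := by
    have h7 : #(P4 N) * (Real.log N / (N : ℝ) ^ (1 - θ / 2)) =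
        #(P4 N) / (N : ℝ) ^ (1 - θ / 2) * Real.log N := by ring
    rw [h7] at h5
    have h8 := le_of_mul_le_mul_right h5 (by linarith)
    rwa [le_div_iff₀ (by positivity)] at h8
  refine le_trans ?_ h6
  have h9 : (N : ℝ) ^ (1 - θ / 2) = (N : ℝ) ^ (θ / 2) * (N : ℝ) ^ (1 - θ) := by
    rw [← Real.rpow_add hN0]
    congr 1
    ring
  rw [h9]
  have h10 : (0 : ℝ) < (N : ℝ) ^ (1 - θ) := by positivity
  have h11 : 1 ≤ θ / 8 * (N : ℝ) ^ (θ / 2) := by
    rw [div_le_iff₀ hθ] at h1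
    linarith
  nlinarith

end Pool.Agent.H96.PR.M4
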