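import Pool.Agent.H96.PR.G2
import Pool.Agent.H96.PR.M4b

/-!
# The bound of Burgess for boxes of Gaussian integers: choice of the parameters
-/

set_option autoImplicit false

namespace Pool.Agent.H96.PR

open Finset Pool.Agent.H471R4.BW Filter

open Classical in
/-- a representation as a sum of two squares -/
noncomputable def rep (q : ℕ) : ℕ × ℕ := if h : ∃ w : ℕ × ℕ, nm w = q then h.choose else (0, 0)

theorem nm_rep {q : ℕ} (hq : q.Prime) (h4 : q % 4 = 1) : nm (rep q) = q := by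
  have : Fact q.Prime := ⟨hq⟩
  obtain ⟨a, b, hab⟩ := Nat.Prime.sq_add_sq (p := q) (by omega)
  have h : ∃ w : ℕ × ℕ, nm w = q := ⟨(a, b), hab⟩
  unfold rep
  rw [dif_pos h]
  exact h.choose_spec

/-- the multipliers -/
noncomputable def mult (M : ℕ) : Finset (ℕ × ℕ) := by
  classical
  exact (M4.P4 (M ^ 2)).image rep

theorem mem_P4 {N q : ℕ} : q ∈ M4.P4 N ↔ (1 ≤ q ∧ q ≤ N) ∧ q.Prime ∧ q % 4 = 1 := by
  unfold M4.P4
  rw [mem_filter, mem_Icc]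

theorem mult_card (M : ℕ) : (mult M).card = (M4.P4 (M ^ 2)).card := by
  classical
  unfold mult
  apply card_image_of_injOn
  intro q hq q' hq' e
  rw [mem_coe, mem_P4] at hq hq'
  rw [← nm_rep hq.2.1 hq.2.2, ← nm_rep hq'.2.1 hq'.2.2]
  exact congrArg nm e

theorem mult_Mult (M : ℕ) : Mult (mult M) M := by
  classical
  have h0 : ∀ w ∈ mult M, ∃ q, q ∈ M4.P4 (M ^ 2) ∧ rep q = w ∧ nm w = q := by
    intro w hw
    unfold mult at hw
    rw [mem_image] at hw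
    obtain ⟨q, hq, rfl⟩ := hw
    exact ⟨q, hq, rfl, nm_rep (mem_P4.1 hq).2.1 (mem_P4.1 hq).2.2⟩
  refine ⟨?_, ?_, ?_⟩
  · intro w hw
    obtain ⟨q, hq, -, h⟩ := h0 w hw
    rw [h]
    exact (mem_P4.1 hq).2.1
  · intro w hw w' hw' e
    obtain ⟨q, hq, h1, h⟩ := h0 w hw
    obtain ⟨q', hq', h1', h'⟩ := h0 w' hw'
    rw [h, h'] at e
    rw [← h1, ← h1', e]
  · intro w hw
    obtain ⟨q, hq, -, h⟩ := h0 w hw
    have h2 := (mem_P4.1 hq).1.2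
    rw [← h] at h2
    unfold nm at h2
    constructor
    · by_contra hc
      have := Nat.pow_lt_pow_left (not_le.1 hc) (show 2 ≠ 0 by norm_num)
      omega
    · by_contra hc
      have := Nat.pow_lt_pow_left (not_le.1 hc) (show 2 ≠ 0 by norm_num)
      omega

theorem mult_le {M : ℕ} : ∀ w ∈ mult M, nm w ≤ M ^ 2 := by
  classical
  intro w hw
  unfold mult at hw
  rw [mem_image] at hw
  obtain ⟨q, hq, rfl⟩ := hw
  rw [nm_rep (mem_P4.1 hq).2.1 (mem_P4.1 hq).2.2]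
  exact (mem_P4.1 hq).1.2

/-- **Burgess for Gaussian integers** -/
theorem burg2 (η δ : ℝ) (hη : 0 < η) (hη1 : η ≤ 1 / 16) (hδ : 0 < δ) : ∃ N0 : ℕ, ∀ p : ℕ,
    N0 ≤ p → ∀ [Fact p.Prime] (ι : ZMod p), ι * ι = -1 → ∀ χ : DirichletCharacter ℂ p, χ ≠ 1 →
      ∀ X : ℕ, (p : ℝ) ^ (1 / 8 + η) ≤ X → (X : ℝ) ≤ (p : ℝ) ^ (3 / 16 : ℝ) →
        ‖boxSum ι χ X‖ ≤ δ * X ^ 2 := by
  obtain ⟨d, hd⟩ : ∃ d, d = min δ 1 := ⟨_, rfl⟩
  have hd0 : 0 < d := by rw [hd]; exact lt_min hδ one_pos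
  have hd1 : d ≤ 1 := by rw [hd]; exact min_le_right _ _
  have hdδ : d ≤ δ := by rw [hd]; exact min_le_left _ _
  obtain ⟨r, hr⟩ := exists_nat_gt (2 / η)
  have hrpos : (0 : ℝ) < r := lt_trans (by positivity) hr
  have hr1 : 1 ≤ r := by exact_mod_cast hrpos
  obtain ⟨s, hs⟩ : ∃ s : ℝ, s = 1 / (2 * (r : ℝ)) := ⟨_, rfl⟩
  have hs0 : 0 < s := by rw [hs]; positivity
  have hsη : s ≤ η / 4 := by
    rw [hs, div_le_iff₀ (by positivity)]
    rw [div_lt_iff₀ hη] at hr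
    linarith
  obtain ⟨N1, hN1⟩ := eventually_atTop.1 (M4.many4 η hη (by linarith))
  have hev1 : ∀ᶠ p : ℕ in atTop, (64 / d : ℝ) ≤ (p : ℝ) ^ (η / 4) :=
    ((tendsto_rpow_atTop (by positivity)).comp tendsto_natCast_atTop_atTop).eventually_ge_atTop _
  have hev2 : ∀ᶠ p : ℕ in atTop, (N1 : ℝ) ≤ (p : ℝ) ^ (1 / 8 : ℝ) :=
    ((tendsto_rpow_atTop (by positivity)).comp tendsto_natCast_atTop_atTop).eventually_ge_atTop _
  have hev3 : ∀ᶠ p : ℕ in atTop,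
      (37 * ((r : ℝ) ^ (2 * r) + 2 * r) / (d / 2) ^ (2 * r) : ℝ) ≤ (p : ℝ) ^ (2 * η) :=
    ((tendsto_rpow_atTop (by positivity)).comp tendsto_natCast_atTop_atTop).eventually_ge_atTop _
  obtain ⟨N0, hN0⟩ := eventually_atTop.1 (hev1.and (hev2.and hev3))
  refine ⟨N0, fun p hp _ ι hι χ hχ X hX1 hX2 => ?_⟩
  obtain ⟨h1, h2, h3⟩ := hN0 p hp
  have hpp : p.Prime := Fact.out
  have : NeZero p := ⟨hpp.ne_zero⟩
  have hp1 : (1 : ℝ) ≤ p := by exact_mod_cast hpp.one_lt.le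
  have hp1' : (1 : ℝ) < p := by exact_mod_cast hpp.one_lt
  have hp0 : (0 : ℝ) < p := by linarith
  obtain ⟨B, hB⟩ : ∃ B : ℕ, B = ⌈(p : ℝ) ^ s⌉₊ := ⟨_, rfl⟩
  have hps1 : 1 ≤ (p : ℝ) ^ s := Real.one_le_rpow hp1 hs0.le
  have hB1 : (p : ℝ) ^ s ≤ B := by rw [hB]; exact Nat.le_ceil _
  have hB2 : (B : ℝ) ≤ 2 * (p : ℝ) ^ s := by
    have := (Nat.ceil_lt_add_one (by linarith : (0 : ℝ) ≤ (p : ℝ) ^ s)).le
    rw [hB]
    linarith
  have hBone : (1 : ℝ) ≤ B := hps1.trans hB1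
  have hBpos : (0 : ℝ) < B := by linarith
  have hXone : (1 : ℝ) ≤ X := (Real.one_le_rpow hp1 (by positivity)).trans hX1
  have hXpos : (0 : ℝ) < X := by linarith
  obtain ⟨M, hM⟩ : ∃ M : ℕ, M = ⌊d * X / (16 * B)⌋₊ := ⟨_, rfl⟩
  have hM1 : (M : ℝ) ≤ d * X / (16 * B) := by rw [hM]; exact Nat.floor_le (by positivity)
  have hM2 : d * X / (16 * B) - 1 < M := by rw [hM]; exact Nat.sub_one_lt_floor _
  have hMB : (M : ℝ) * (16 * B) ≤ d * X := by rwa [le_div_iff₀ (by positivity)] at hM1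
  -- lower bound for `M`
  have hM3 : (p : ℝ) ^ (1 / 8 + η / 2) ≤ M := by
    have e1 : 2 * (p : ℝ) ^ (1 / 8 + η / 2) ≤ d * X / (16 * B) := by
      rw [le_div_iff₀ (by positivity)]
      have e2 : (p : ℝ) ^ (1 / 8 + η / 2) * (p : ℝ) ^ s * (p : ℝ) ^ (η / 4) ≤
          (p : ℝ) ^ (1 / 8 + η) := by
        rw [← Real.rpow_add hp0, ← Real.rpow_add hp0]
        exact Real.rpow_le_rpow_of_exponent_le hp1 (by linarith)
      have e3 : 64 ≤ d * (p : ℝ) ^ (η / 4) := by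
        rw [div_le_iff₀ hd0] at h1
        linarith
      calc 2 * (p : ℝ) ^ (1 / 8 + η / 2) * (16 * B) ≤
          2 * (p : ℝ) ^ (1 / 8 + η / 2) * (16 * (2 * (p : ℝ) ^ s)) := by gcongr
        _ = 64 * ((p : ℝ) ^ (1 / 8 + η / 2) * (p : ℝ) ^ s) := by ring
        _ ≤ (d * (p : ℝ) ^ (η / 4)) * ((p : ℝ) ^ (1 / 8 + η / 2) * (p : ℝ) ^ s) := by gcongr
        _ = d * ((p : ℝ) ^ (1 / 8 + η / 2) * (p : ℝ) ^ s * (p : ℝ) ^ (η / 4)) := by ring
        _ ≤ d * (p : ℝ) ^ (1 / 8 + η) := by gcongr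
        _ ≤ d * X := by gcongr
    have e4 : (1 : ℝ) ≤ (p : ℝ) ^ (1 / 8 + η / 2) := Real.one_le_rpow hp1 (by positivity)
    linarith
  have hMone : (1 : ℝ) ≤ M := (Real.one_le_rpow hp1 (by positivity)).trans hM3
  have hM16 : (M : ℝ) * 16 ≤ X := by
    have e1 : (M : ℝ) * 16 ≤ M * (16 * B) := by nlinarith
    nlinarith
  have hX4 : (X : ℝ) ^ 4 < p := by
    have e1 : (X : ℝ) ^ 4 ≤ ((p : ℝ) ^ (3 / 16 : ℝ)) ^ 4 := pow_le_pow_left₀ hXpos.le hX2 4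
    rw [← Real.rpow_natCast, ← Real.rpow_natCast, ← Real.rpow_mul hp0.le] at e1
    rw [← Real.rpow_natCast]
    refine lt_of_le_of_lt e1 ?_
    calc (p : ℝ) ^ (3 / 16 * ((4 : ℕ) : ℝ)) < (p : ℝ) ^ (1 : ℝ) :=
          Real.rpow_lt_rpow_of_exponent_lt hp1' (by norm_num)
      _ = p := Real.rpow_one _
  have hlt : 16 * (M ^ 2 * X ^ 2) < p := by
    have e1 : (16 : ℝ) * ((M : ℝ) ^ 2 * (X : ℝ) ^ 2) ≤ (X : ℝ) ^ 4 := by
      have e2 : ((M : ℝ) * 16) ^ 2 ≤ (X : ℝ) ^ 2 := pow_le_pow_left₀ (by positivity) hM16 2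
      have e3 : (16 : ℝ) * (M : ℝ) ^ 2 ≤ (X : ℝ) ^ 2 := by
        have := sq_nonneg (M : ℝ)
        linarith
      calc (16 : ℝ) * ((M : ℝ) ^ 2 * (X : ℝ) ^ 2) = (16 * (M : ℝ) ^ 2) * (X : ℝ) ^ 2 := by ring
        _ ≤ (X : ℝ) ^ 2 * (X : ℝ) ^ 2 := mul_le_mul_of_nonneg_right e3 (sq_nonneg _)
        _ = (X : ℝ) ^ 4 := by ring
    have e3 : ((16 * (M ^ 2 * X ^ 2) : ℕ) : ℝ) < p := by
      push_cast
      linarith
    exact_mod_cast e3
  -- the multipliers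
  have hcard : (p : ℝ) ^ (1 / 4 : ℝ) ≤ ((mult M).card : ℝ) := by
    rw [mult_card]
    have e0 : N1 ≤ M ^ 2 := by
      have e1 : (N1 : ℝ) ≤ ((M ^ 2 : ℕ) : ℝ) := by
        push_cast
        have e2 : (p : ℝ) ^ (1 / 8 : ℝ) ≤ (p : ℝ) ^ (1 / 8 + η / 2) :=
          Real.rpow_le_rpow_of_exponent_le hp1 (by linarith)
        nlinarith
      exact_mod_cast e1
    refine le_trans ?_ (hN1 _ e0)
    have e1 : (p : ℝ) ^ (1 / 4 + η) ≤ ((M ^ 2 : ℕ) : ℝ) := by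
      push_cast
      have e2 : (p : ℝ) ^ (1 / 4 + η) = (p : ℝ) ^ (1 / 8 + η / 2) * (p : ℝ) ^ (1 / 8 + η / 2) := by
        rw [← Real.rpow_add hp0]
        congr 1
        ring
      rw [e2, pow_two]
      exact mul_le_mul hM3 hM3 (by positivity) (by positivity)
    calc (p : ℝ) ^ (1 / 4 : ℝ) ≤ ((p : ℝ) ^ (1 / 4 + η)) ^ (1 - η) := by
          rw [← Real.rpow_mul hp0.le]
          exact Real.rpow_le_rpow_of_exponent_le hp1 (by nlinarith)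
      _ ≤ ((M ^ 2 : ℕ) : ℝ) ^ (1 - η) := Real.rpow_le_rpow (by positivity) e1 (by linarith)
  have hcard1 : (1 : ℝ) ≤ ((mult M).card : ℝ) :=
    (Real.one_le_rpow hp1 (by norm_num)).trans hcard
  have hcardpos : (0 : ℝ) < ((mult M).card : ℝ) := by linarith
  have hne : (mult M).Nonempty := by
    rw [← card_pos]
    exact_mod_cast hcardpos
  have hA0 : ∀ a ∈ mult M, gz ι a ≠ 0 := by
    intro a ha
    apply gz_ne_zero ι hι a ((mult_Mult M).pr a ha).pos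
    have e1 := mult_le a ha
    have e2 : M ^ 2 ≤ 16 * (M ^ 2 * X ^ 2) := by
      have : 1 ≤ X ^ 2 := Nat.one_le_pow _ _ (by exact_mod_cast hXpos)
      nlinarith
    omega
  have hBr : Real.sqrt p ≤ (B : ℝ) ^ r := by
    have e1 : ((p : ℝ) ^ s) ^ r = Real.sqrt p := by
      rw [Real.sqrt_eq_rpow, ← Real.rpow_natCast, ← Real.rpow_mul hp0.le, hs]
      congr 1
      field_simp
    rw [← e1]
    exact pow_le_pow_left₀ (by linarith) hB1 r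
  have hBp : (B : ℝ) ≤ (p : ℝ) ^ (1 : ℝ) := by
    have e1 : (2 : ℝ) ≤ (p : ℝ) ^ (η / 4) := by
      have : (64 : ℝ) ≤ 64 / d := by
        rw [le_div_iff₀ hd0]
        nlinarith
      linarith
    calc (B : ℝ) ≤ 2 * (p : ℝ) ^ s := hB2
      _ ≤ (p : ℝ) ^ (η / 4) * (p : ℝ) ^ s := by gcongr
      _ = (p : ℝ) ^ (η / 4 + s) := by rw [Real.rpow_add hp0]
      _ ≤ (p : ℝ) ^ (1 : ℝ) := Real.rpow_le_rpow_of_exponent_le hp1 (by linarith)
  have hcomp : Complete p χ r B (2 * (r : ℝ)) :=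
    Pool.Agent.Y165.HN.fam_all p χ hχ r B hr1 hBp
  have hmain := bin2 ι hι χ (mult M) X M B r (2 * (r : ℝ)) hr1 (by positivity)
    (by exact_mod_cast hBone) (by exact_mod_cast hXone) hne (mult_Mult M) hA0 hlt hBr hcomp
  -- the second term
  have hAX : (p : ℝ) ^ (2 * η) * Real.sqrt p ≤ (mult M).card * (X : ℝ) ^ 2 := by
    have e1 : (p : ℝ) ^ (1 / 4 : ℝ) * ((p : ℝ) ^ (1 / 8 + η)) ^ 2 =
        (p : ℝ) ^ (2 * η) * Real.sqrt p := by
      rw [Real.sqrt_eq_rpow, ← Real.rpow_natCast, ← Real.rpow_mul hp0.le, ← Real.rpow_add hp0,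
        ← Real.rpow_add hp0]
      congr 1
      push_cast
      ring
    rw [← e1]
    exact mul_le_mul hcard (pow_le_pow_left₀ (by positivity) hX1 2) (by positivity) hcardpos.le
  have hsq : 0 < Real.sqrt p := Real.sqrt_pos.2 hp0
  have hQ : 37 * ((r : ℝ) ^ (2 * r) + 2 * r) * Real.sqrt p / ((mult M).card * (X : ℝ) ^ 2) ≤
      (d / 2) ^ (2 * r) := by
    rw [div_le_iff₀ (by positivity)]
    rw [div_le_iff₀ (by positivity)] at h3
    calc 37 * ((r : ℝ) ^ (2 * r) + 2 * r) * Real.sqrt p ≤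
        ((p : ℝ) ^ (2 * η) * (d / 2) ^ (2 * r)) * Real.sqrt p :=
          mul_le_mul_of_nonneg_right h3 hsq.le
      _ = (d / 2) ^ (2 * r) * ((p : ℝ) ^ (2 * η) * Real.sqrt p) := by ring
      _ ≤ (d / 2) ^ (2 * r) * ((mult M).card * (X : ℝ) ^ 2) :=
          mul_le_mul_of_nonneg_left hAX (by positivity)
  have hQ0 : 0 ≤ 37 * ((r : ℝ) ^ (2 * r) + 2 * r) * Real.sqrt p /
      ((mult M).card * (X : ℝ) ^ 2) := by positivity
  have hroot : (37 * ((r : ℝ) ^ (2 * r) + 2 * r) * Real.sqrt p /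
      ((mult M).card * (X : ℝ) ^ 2)) ^ (1 / (2 * r : ℝ)) ≤ d / 2 := by
    calc (37 * ((r : ℝ) ^ (2 * r) + 2 * r) * Real.sqrt p /
      ((mult M).card * (X : ℝ) ^ 2)) ^ (1 / (2 * r : ℝ)) ≤ ((d / 2) ^ (2 * r)) ^ (1 / (2 * r : ℝ)) :=
          Real.rpow_le_rpow hQ0 hQ (by positivity)
      _ = d / 2 := by
          rw [← Real.rpow_natCast, ← Real.rpow_mul (by positivity)]
          have : ((2 * r : ℕ) : ℝ) * (1 / (2 * r : ℝ)) = 1 := by
            push_cast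
            field_simp
          rw [this, Real.rpow_one]
  have hfirst : 4 * (M : ℝ) * B * X ≤ d * X ^ 2 / 4 := by
    have := mul_le_mul_of_nonneg_right hMB hXpos.le
    nlinarith
  calc ‖boxSum ι χ X‖ ≤ _ := hmain
    _ ≤ d * X ^ 2 / 4 + X ^ 2 * (d / 2) :=
        add_le_add hfirst (mul_le_mul_of_nonneg_left hroot (by positivity))
    _ ≤ d * X ^ 2 := by nlinarith [sq_nonneg (X : ℝ)]
    _ ≤ δ * X ^ 2 := mul_le_mul_of_nonneg_right hdδ (by positivity)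

end Pool.Agent.H96.PR
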