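import Pool.Graph.R_pool_sql_team_seeded_3997aac3.Q265.PR.B

/-!
# The algorithm: rounds computable in polynomial time

The state is `(p, l, b, N, g, z)`. For `p = 1` modulo `8` the algorithm first searches a quadratic
nonresidue: as long as `z = 0` the state is `(p, h, b, a, c, 0)`. The integers `b = 1, 2, …` are tested.
If `b` is no fourth power, then (`b` being a square) `h = b ^ ((p - 1) / 8)` is a square root of `-1`, and
from then on the numbers `a + c h` and `c + a h`, `c ≤ a`, are tested too. Afterwards `z - 1` is the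
nonresidue which was found (`z - 1 = p - 1` for all other `p`), and the rounds treat the numbers
`l = 2, 3, …` with `l ^ e ≤ p` one after the other: if `l` divides the part `N` of `p - 1` which is left, an
`l`-th power nonresidue is searched among `z - 1, 1, 2, 3, …`, and its power of order `l ^ v` is multiplied
into `g`.
-/

set_option autoImplicit false

namespace Pool.Agent.NPC.H96PR

open Pool.Agent.NPC Pool.Agent.H595R2.PR
open Pool.Agent.NPC.Q265PR (poly_pow strip_le strip_pos size_add_one_le)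

/-- the states -/
abbrev St := ℕ × ℕ × ℕ × ℕ × ℕ × ℕ

/-- the test values `z - 1, 1, 2, 3, …` -/
def tz (z b : ℕ) : ℕ := if b = 0 then z - 1 else b

/-- one round of the main part -/
def stm (e : ℕ) (s : St) : St :=
  if s.1 < s.2.1 ^ e then s
  else if s.2.2.2.1 % s.2.1 = 0 then
    if pw s.1 (tz s.2.2.2.2.2 s.2.2.1) ((s.1 - 1) / s.2.1) = 1 then
      (s.1, s.2.1, s.2.2.1 + 1, s.2.2.2.1, s.2.2.2.2.1, s.2.2.2.2.2)
    else (s.1, s.2.1 + 1, 0, strip s.2.1 s.1.size s.2.2.2.1,
      md s.1 (s.2.2.2.2.1 * pw s.1 (tz s.2.2.2.2.2 s.2.2.1)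
        ((s.1 - 1) / (s.2.2.2.1 / strip s.2.1 s.1.size s.2.2.2.1))), s.2.2.2.2.2)
  else (s.1, s.2.1 + 1, 0, s.2.2.2.1, s.2.2.2.2.1, s.2.2.2.2.2)

/-- the state after the quadratic nonresidue `v` has been found -/
def fnd (p v : ℕ) : St := (p, 2, 0, p - 1, 1, v + 1)

/-- one round of the search for a quadratic nonresidue -/
def pre (s : St) : St :=
  if pw s.1 s.2.2.1 ((s.1 - 1) / 2) = 1 then
    if s.2.1 = 0 then
      if pw s.1 s.2.2.1 ((s.1 - 1) / 4) = 1 then
        (s.1, 0, s.2.2.1 + 1, s.2.2.2.1, s.2.2.2.2.1, 0)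
      else (s.1, pw s.1 s.2.2.1 ((s.1 - 1) / 8), s.2.2.1, s.2.2.2.1, s.2.2.2.2.1, 0)
    else if pw s.1 (s.2.2.2.1 + s.2.2.2.2.1 * s.2.1) ((s.1 - 1) / 2) = 1 then
      if pw s.1 (s.2.2.2.2.1 + s.2.2.2.1 * s.2.1) ((s.1 - 1) / 2) = 1 then
        (s.1, s.2.1, s.2.2.1 + 1,
          if s.2.2.2.2.1 < s.2.2.2.1 then s.2.2.2.1 else s.2.2.2.1 + 1,
          if s.2.2.2.2.1 < s.2.2.2.1 then s.2.2.2.2.1 + 1 else 0, 0)
      else fnd s.1 (md s.1 (s.2.2.2.2.1 + s.2.2.2.1 * s.2.1))
    else fnd s.1 (md s.1 (s.2.2.2.1 + s.2.2.2.2.1 * s.2.1))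
  else fnd s.1 s.2.2.1

/-- one round -/
def stp (e : ℕ) (s : St) : St := if s.2.2.2.2.2 = 0 then pre s else stm e s

/-- the initial state -/
def ini (p : ℕ) : St := if p % 8 = 1 then (p, 0, 1, 1, 0, 0) else fnd p (p - 1)

/-- the list which is put out -/
def outp (A C : ℕ) (s : St) : List ℕ :=
  (List.range (s.1.size ^ C)).map fun a =>
    md s.1 (s.2.2.2.2.1 * pw s.1 (horner s.1 (s.1.size ^ A) a) ((s.1 - 1) / s.2.2.2.1))

section poly

variable {α : Type} [TEnc α]

theorem poly_tz {z b : α → ℕ} (hz : Poly z) (hb : Poly b) : Poly (fun a => tz (z a) (b a)) :=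
  Poly.ite (Poly.decide_eq hb (Poly.const 0)) (Poly.sub hz (Poly.const 1)) hb

theorem poly_fnd {p v : α → ℕ} (hp : Poly p) (hv : Poly v) : Poly (fun a => fnd (p a) (v a)) :=
  Poly.pair hp (Poly.pair (Poly.const 2) (Poly.pair (Poly.const 0)
    (Poly.pair (Poly.sub hp (Poly.const 1)) (Poly.pair (Poly.const 1) (Poly.succ hv)))))

end poly

theorem poly_ini : Poly ini := by
  refine Poly.ite (Poly.decide_eq (Poly.mod Poly.id (Poly.const 8)) (Poly.const 1)) ?_ ?_
  · exact Poly.pair Poly.id (Poly.pair (Poly.const 0) (Poly.pair (Poly.const 1)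
      (Poly.pair (Poly.const 1) (Poly.pair (Poly.const 0) (Poly.const 0)))))
  · exact poly_fnd Poly.id (Poly.sub Poly.id (Poly.const 1))

theorem poly_stm (e : ℕ) : Poly (stm e) := by
  have hp : Poly (fun s : St => s.1) := Poly.fst Poly.id
  have hl : Poly (fun s : St => s.2.1) := Poly.fst (Poly.snd Poly.id)
  have hb : Poly (fun s : St => s.2.2.1) := Poly.fst (Poly.snd (Poly.snd Poly.id))
  have hN : Poly (fun s : St => s.2.2.2.1) :=
    Poly.fst (Poly.snd (Poly.snd (Poly.snd Poly.id)))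
  have hg : Poly (fun s : St => s.2.2.2.2.1) :=
    Poly.fst (Poly.snd (Poly.snd (Poly.snd (Poly.snd Poly.id))))
  have hz : Poly (fun s : St => s.2.2.2.2.2) :=
    Poly.snd (Poly.snd (Poly.snd (Poly.snd (Poly.snd Poly.id))))
  have hsz : UPoly (fun s : St => s.1.size) :=
    Pool.Agent.NPC.H595POL.upoly_size.comp hp
  have hst : Poly (fun s : St => strip s.2.1 s.1.size s.2.2.2.1) :=
    Pool.Agent.NPC.H595POL.poly_strip hl hsz hN
  have hp1 : Poly (fun s : St => s.1 - 1) := Poly.sub hp (Poly.const 1)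
  have htv : Poly (fun s : St => tz s.2.2.2.2.2 s.2.2.1) := poly_tz hz hb
  refine Poly.ite (Poly.decide_lt hp (poly_pow hl e)) Poly.id ?_
  refine Poly.ite (Poly.decide_eq (Poly.mod hN hl) (Poly.const 0)) ?_ ?_
  · refine Poly.ite (Poly.decide_eq (Pool.Agent.NPC.H595POL.poly_pw hp htv (Poly.div hp1 hl))
      (Poly.const 1)) ?_ ?_
    · exact Poly.pair hp (Poly.pair hl (Poly.pair (Poly.succ hb) (Poly.pair hN
        (Poly.pair hg hz))))
    · refine Poly.pair hp (Poly.pair (Poly.succ hl) (Poly.pair (Poly.const 0) (Poly.pair hst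
        (Poly.pair ?_ hz))))
      exact Pool.Agent.NPC.H595POL.poly_md hp (Poly.mul hg
        (Pool.Agent.NPC.H595POL.poly_pw hp htv (Poly.div hp1 (Poly.div hN hst))))
  · exact Poly.pair hp (Poly.pair (Poly.succ hl) (Poly.pair (Poly.const 0) (Poly.pair hN
      (Poly.pair hg hz))))

theorem poly_pre : Poly pre := by
  have hp : Poly (fun s : St => s.1) := Poly.fst Poly.id
  have hh : Poly (fun s : St => s.2.1) := Poly.fst (Poly.snd Poly.id)
  have hb : Poly (fun s : St => s.2.2.1) := Poly.fst (Poly.snd (Poly.snd Poly.id))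
  have ha : Poly (fun s : St => s.2.2.2.1) :=
    Poly.fst (Poly.snd (Poly.snd (Poly.snd Poly.id)))
  have hc : Poly (fun s : St => s.2.2.2.2.1) :=
    Poly.fst (Poly.snd (Poly.snd (Poly.snd (Poly.snd Poly.id))))
  have hp1 : Poly (fun s : St => s.1 - 1) := Poly.sub hp (Poly.const 1)
  have h2 : Poly (fun s : St => (s.1 - 1) / 2) := Poly.div hp1 (Poly.const 2)
  have h4 : Poly (fun s : St => (s.1 - 1) / 4) := Poly.div hp1 (Poly.const 4)
  have h8 : Poly (fun s : St => (s.1 - 1) / 8) := Poly.div hp1 (Poly.const 8)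
  have hv1 : Poly (fun s : St => s.2.2.2.1 + s.2.2.2.2.1 * s.2.1) :=
    Poly.add ha (Poly.mul hc hh)
  have hv2 : Poly (fun s : St => s.2.2.2.2.1 + s.2.2.2.1 * s.2.1) :=
    Poly.add hc (Poly.mul ha hh)
  refine Poly.ite (Poly.decide_eq (Pool.Agent.NPC.H595POL.poly_pw hp hb h2) (Poly.const 1)) ?_ ?_
  · refine Poly.ite (Poly.decide_eq hh (Poly.const 0)) ?_ ?_
    · refine Poly.ite (Poly.decide_eq (Pool.Agent.NPC.H595POL.poly_pw hp hb h4) (Poly.const 1))
        ?_ ?_
      · exact Poly.pair hp (Poly.pair (Poly.const 0) (Poly.pair (Poly.succ hb) (Poly.pair ha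
          (Poly.pair hc (Poly.const 0)))))
      · exact Poly.pair hp (Poly.pair (Pool.Agent.NPC.H595POL.poly_pw hp hb h8) (Poly.pair hb
          (Poly.pair ha (Poly.pair hc (Poly.const 0)))))
    · refine Poly.ite (Poly.decide_eq (Pool.Agent.NPC.H595POL.poly_pw hp hv1 h2) (Poly.const 1))
        ?_ ?_
      · refine Poly.ite (Poly.decide_eq (Pool.Agent.NPC.H595POL.poly_pw hp hv2 h2)
          (Poly.const 1)) ?_ ?_
        · refine Poly.pair hp (Poly.pair hh (Poly.pair (Poly.succ hb) (Poly.pair ?_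
            (Poly.pair ?_ (Poly.const 0)))))
          · exact Poly.ite (Poly.decide_lt hc ha) ha (Poly.succ ha)
          · exact Poly.ite (Poly.decide_lt hc ha) (Poly.succ hc) (Poly.const 0)
        · exact poly_fnd hp (Pool.Agent.NPC.H595POL.poly_md hp hv2)
      · exact poly_fnd hp (Pool.Agent.NPC.H595POL.poly_md hp hv1)
  · exact poly_fnd hp hb

theorem poly_stp (e : ℕ) : Poly (stp e) :=
  Poly.ite (Poly.decide_eq (Poly.snd (Poly.snd (Poly.snd (Poly.snd (Poly.snd Poly.id)))))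
    (Poly.const 0)) poly_pre (poly_stm e)

theorem poly_outp (A C : ℕ) : Poly (outp A C) := by
  have hp : Poly (fun s : St => s.1) := Poly.fst Poly.id
  refine Poly.map (l := fun s : St => List.range (s.1.size ^ C))
    (F := fun s a => md s.1 (s.2.2.2.2.1 * pw s.1 (horner s.1 (s.1.size ^ A) a)
      ((s.1 - 1) / s.2.2.2.1))) ((Pool.Agent.NPC.H595POL.upoly_sizepow C).comp hp).range ?_
  have hp' : Poly (fun q : St × ℕ => q.1.1) := hp.comp (Poly.fst Poly.id)
  have hN' : Poly (fun q : St × ℕ => q.1.2.2.2.1) :=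
    Poly.fst (Poly.snd (Poly.snd (Poly.snd (Poly.fst Poly.id))))
  have hg' : Poly (fun q : St × ℕ => q.1.2.2.2.2.1) :=
    Poly.fst (Poly.snd (Poly.snd (Poly.snd (Poly.snd (Poly.fst Poly.id)))))
  exact Pool.Agent.NPC.H595POL.poly_md hp' (Poly.mul hg' (Pool.Agent.NPC.H595POL.poly_pw hp'
    (Pool.Agent.NPC.H595POL.poly_horner hp' ((Pool.Agent.NPC.H595POL.upoly_sizepow A).comp hp')
      (Poly.snd Poly.id)) (Poly.div (Poly.sub hp' (Poly.const 1)) hN')))

/-! ### on bit strings -/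

/-- the initial state on bit strings -/
def iniB (x : List Bool) : List Bool := bits (ini (valB x))

/-- the rounds on bit strings -/
def stpB (e : ℕ) (x : List Bool) : List Bool :=
  match (unbits St x).map (stp e) with
  | none => []
  | some b => bits b

/-- the output on bit strings -/
def outB (A C : ℕ) (x : List Bool) : List Bool :=
  match (unbits St x).map (outp A C) with
  | none => []
  | some b => bits b

theorem polyTime_iniB : PolyTime iniB := polyTime_bits (poly_ini.comp (Poly.valBits Poly.id))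

theorem polyTime_stpB (e : ℕ) : PolyTime (stpB e) := by
  have h : Poly (fun x : List Bool => (unbits St x).map (stp e)) :=
    Poly.optMap (f := fun _ a => stp e a) poly_unbits ((poly_stp e).comp (Poly.snd Poly.id))
  have h2 := polyTime_opt h
  convert h2 using 2 with x
  unfold stpB
  cases (unbits St x).map (stp e) <;> rfl

theorem polyTime_outB (A C : ℕ) : PolyTime (outB A C) := by
  have h : Poly (fun x : List Bool => (unbits St x).map (outp A C)) :=
    Poly.optMap (f := fun _ a => outp A C a) poly_unbits ((poly_outp A C).comp (Poly.snd Poly.id))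
  have h2 := polyTime_opt h
  convert h2 using 2 with x
  unfold outB
  cases (unbits St x).map (outp A C) <;> rfl

theorem stpB_bits (e : ℕ) (s : St) : stpB e (bits s) = bits (stp e s) := by
  unfold stpB
  rw [unbits_bits]
  rfl

theorem outB_bits (A C : ℕ) (s : St) : outB A C (bits s) = bits (outp A C s) := by
  unfold outB
  rw [unbits_bits]
  rfl

theorem iter_bits (e p : ℕ) (k : ℕ) :
    (stpB e)^[k] (iniB (Nat.bits p)) = bits ((stp e)^[k] (ini p)) := by
  induction k with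
  | zero =>
    simp only [Function.iterate_zero, id]
    unfold iniB
    rw [valB_bits]
  | succ k ih => rw [Function.iterate_succ_apply', ih, stpB_bits, Function.iterate_succ_apply']

/-! ### the states are short -/

theorem pw_zero_of {p b k : ℕ} (hp : 1 ≤ p) (hk : 1 ≤ k) (h : p ∣ b) : pw p b k = 0 := by
  rw [pw_eq]
  unfold md
  rw [max_eq_left hp]
  exact Nat.mod_eq_zero_of_dvd (dvd_pow h (by omega))

/-- the bounds for the entries of the state -/
def Bd (p : ℕ) (s : St) : Prop :=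
  s.1 = p ∧ s.2.1 ≤ p + 1 ∧ s.2.2.1 ≤ p ∧ s.2.2.2.1 ≤ p ∧ s.2.2.2.2.1 ≤ p ∧ s.2.2.2.2.2 ≤ p + 1 ∧
    (s.2.2.2.2.2 = 0 → 8 ≤ p ∧ 1 ≤ s.2.2.1 ∧ s.2.2.2.1 ≤ s.2.2.1) ∧
    (s.2.2.2.2.2 ≠ 0 → 2 ≤ s.2.1 ∧ 1 ≤ s.2.2.2.1 ∧ s.2.2.2.1 ≤ p - 1)

theorem bd_fnd {p v : ℕ} (hp : 2 ≤ p) (hv : v ≤ p) : Bd p (fnd p v) := by
  refine ⟨rfl, ?_, Nat.zero_le _, ?_, ?_, ?_, ?_, ?_⟩
  · show 2 ≤ p + 1
    omega
  · show p - 1 ≤ p
    omega
  · show 1 ≤ p
    omega
  · show v + 1 ≤ p + 1
    omega
  · intro h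
    exact absurd h (Nat.succ_ne_zero v)
  · intro _
    refine ⟨le_rfl, ?_, le_rfl⟩
    show 1 ≤ p - 1
    omega

theorem bd_ini {p : ℕ} (hp : 2 ≤ p) : Bd p (ini p) := by
  unfold ini
  split_ifs with h
  · refine ⟨rfl, Nat.zero_le _, ?_, ?_, Nat.zero_le _, Nat.zero_le _, ?_, ?_⟩
    · show 1 ≤ p
      omega
    · show 1 ≤ p
      omega
    · intro _
      exact ⟨by omega, le_rfl, le_rfl⟩
    · intro h
      exact absurd rfl h
  · exact bd_fnd hp (Nat.sub_le _ _)

theorem bd_pre {p : ℕ} (s : St) (hs : Bd p s) (hz : s.2.2.2.2.2 = 0) :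
    Bd p (pre s) := by
  obtain ⟨p', h, b, a, c, z⟩ := s
  obtain ⟨h1, h2, h3, h4, h5, h6, h7, -⟩ := hs
  simp only at h1 h2 h3 h4 h5 h6 h7 hz
  subst h1
  obtain ⟨h8, h9, h10⟩ := h7 hz
  have hmd : ∀ x, md p' x ≤ p' := fun x =>
    (Pool.Agent.NPC.H595POL.md_le _ _).trans (by rw [max_eq_left (by omega)])
  have hbp : pw p' b ((p' - 1) / 2) = 1 → b + 1 ≤ p' := by
    intro hc
    by_contra hcon
    have hb : b = p' := by omega
    rw [hb, pw_zero_of (by omega) (by omega) dvd_rfl] at hc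
    omega
  unfold pre
  simp only
  split_ifs with c1 c2 c3 c4 c5 c6
  · refine ⟨rfl, Nat.zero_le _, ?_, h4, h5, Nat.zero_le _, ?_, ?_⟩
    · exact hbp c1
    · intro _
      refine ⟨h8, ?_, ?_⟩
      · show 1 ≤ b + 1
        omega
      · show a ≤ b + 1
        omega
    · intro h
      exact absurd rfl h
  · refine ⟨rfl, ?_, h3, h4, h5, Nat.zero_le _, ?_, ?_⟩
    · show pw p' b ((p' - 1) / 8) ≤ p' + 1
      refine (Pool.Agent.NPC.H595POL.pw_le _ _ _).trans ?_
      rw [max_eq_left (by omega)]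
      omega
    · intro _
      exact ⟨h8, h9, h10⟩
    · intro h
      exact absurd rfl h
  · -- c < a
    have := hbp c1
    refine ⟨rfl, h2, ?_, ?_, ?_, Nat.zero_le _, ?_, ?_⟩
    · show b + 1 ≤ p'
      omega
    · show a ≤ p'
      omega
    · show c + 1 ≤ p'
      omega
    · intro _
      refine ⟨h8, ?_, ?_⟩
      · show 1 ≤ b + 1
        omega
      · show a ≤ b + 1
        omega
    · intro h
      exact absurd rfl h
  · have := hbp c1
    refine ⟨rfl, h2, ?_, ?_, ?_, Nat.zero_le _, ?_, ?_⟩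
    · show b + 1 ≤ p'
      omega
    · show a + 1 ≤ p'
      omega
    · show 0 ≤ p'
      omega
    · intro _
      refine ⟨h8, ?_, ?_⟩
      · show 1 ≤ b + 1
        omega
      · show a + 1 ≤ b + 1
        omega
    · intro h
      exact absurd rfl h
  · exact bd_fnd (by omega) (hmd _)
  · exact bd_fnd (by omega) (hmd _)
  · exact bd_fnd (by omega) h3

theorem bd_stm {p e : ℕ} (hp : 2 ≤ p) (he : 1 ≤ e) (s : St) (hs : Bd p s)
    (hz : s.2.2.2.2.2 ≠ 0) : Bd p (stm e s) := by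
  obtain ⟨p', l, b, N, g, z⟩ := s
  obtain ⟨h1, h2, h3, h4, h5, h6, -, h7⟩ := hs
  simp only at h1 h2 h3 h4 h5 h6 h7 hz
  subst h1
  obtain ⟨h8, h9, h10⟩ := h7 hz
  unfold stm
  simp only
  split_ifs with c1 c2 c3
  · exact ⟨rfl, h2, h3, h4, h5, h6, fun h => absurd h hz, fun _ => ⟨h8, h9, h10⟩⟩
  · -- b + 1
    refine ⟨rfl, h2, ?_, h4, h5, h6, fun h => absurd h hz, fun _ => ⟨h8, h9, h10⟩⟩
    show b + 1 ≤ p'
    by_contra hc
    have hb : b = p' := by omega
    have hl : l ≤ N := Nat.le_of_dvd (by omega) (Nat.dvd_of_mod_eq_zero c2)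
    have hpos : 0 < (p' - 1) / l := Nat.div_pos (by omega) (by omega)
    have h11 : tz z p' = p' := by
      unfold tz
      rw [if_neg (by omega)]
    rw [hb, h11, pw_zero_of (by omega) hpos dvd_rfl] at c3
    omega
  · have hl : l ≤ p' := by
      have h8 : l ^ 1 ≤ l ^ e := Nat.pow_le_pow_right (by omega) he
      rw [pow_one] at h8
      omega
    refine ⟨rfl, ?_, Nat.zero_le _, ?_, ?_, h6, fun h => absurd h hz, fun _ => ⟨?_, ?_, ?_⟩⟩
    · show l + 1 ≤ p' + 1
      omega
    · exact (strip_le _ _ _).trans h4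
    · refine (Pool.Agent.NPC.H595POL.md_le _ _).trans ?_
      rw [max_eq_left (by omega)]
    · show 2 ≤ l + 1
      omega
    · exact strip_pos _ _ _ h9
    · exact (strip_le _ _ _).trans h10
  · have hl : l ≤ p' := by
      have h8 : l ^ 1 ≤ l ^ e := Nat.pow_le_pow_right (by omega) he
      rw [pow_one] at h8
      omega
    refine ⟨rfl, ?_, Nat.zero_le _, h4, h5, h6, fun h => absurd h hz, fun _ => ⟨?_, h9, h10⟩⟩
    · show l + 1 ≤ p' + 1
      omega
    · show 2 ≤ l + 1
      omega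

theorem bd_iter {p e : ℕ} (hp : 2 ≤ p) (he : 1 ≤ e) (k : ℕ) : Bd p ((stp e)^[k] (ini p)) := by
  induction k with
  | zero => exact bd_ini hp
  | succ k ih =>
    rw [Function.iterate_succ_apply']
    unfold stp
    split_ifs with h
    · exact bd_pre _ ih h
    · exact bd_stm hp he _ ih h

theorem len_iter {p e : ℕ} (hp : 2 ≤ p) (he : 1 ≤ e) (k : ℕ) :
    ((stpB e)^[k] (iniB (Nat.bits p))).length ≤ 50 * p.size := by
  rw [iter_bits, bits_length]
  have hb := bd_iter hp he k
  generalize (stp e)^[k] (ini p) = s at hb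
  obtain ⟨p', l, b, N, g, z⟩ := s
  obtain ⟨h1, h2, h3, h4, h5, h6, -, -⟩ := hb
  simp only at h1 h2 h3 h4 h5 h6
  simp only [sz_pair]
  have e1 := sz_nat_le p'
  have e2 := sz_nat_le l
  have e3 := sz_nat_le b
  have e4 := sz_nat_le N
  have e5 := sz_nat_le g
  have e6 := sz_nat_le z
  have f1 : p'.size ≤ p.size := Nat.size_le_size (by omega)
  have f2 : l.size ≤ p.size + 1 := (Nat.size_le_size h2).trans size_add_one_le
  have f3 : b.size ≤ p.size := Nat.size_le_size h3
  have f4 : N.size ≤ p.size := Nat.size_le_size h4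
  have f5 : g.size ≤ p.size := Nat.size_le_size h5
  have f6 : z.size ≤ p.size + 1 := (Nat.size_le_size h6).trans size_add_one_le
  have f7 : 2 ≤ p.size := by
    have : 1 < p.size := Nat.lt_size.2 (by omega)
    omega
  omega

end Pool.Agent.NPC.H96PR
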