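import Pool.Agent.H96.PR.V2

/-!
# A small quadratic nonresidue among the integers and the Gaussian integers
-/

set_option autoImplicit false

namespace Pool.Agent.H96.PR

open Finset Pool.Agent.H471R4.BW

theorem bge_all : BGE := bge (bfm (bin (mom tup) nu1 nu2b shf hol)) vin

theorem exp_two_thirds : Real.exp (2 / 3) < 2 := by
  have h : (2 / 3 : ℝ) < Real.log 2 := by linarith [Real.log_two_gt_d9]
  calc Real.exp (2 / 3) < Real.exp (Real.log 2) := Real.exp_lt_exp.2 h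
    _ = 2 := Real.exp_log (by norm_num)

/-- the two sums together -/
theorem combine {p : ℕ} [Fact p.Prime] (ι : ZMod p) (h : ι * ι = -1)
    (χ : DirichletCharacter ℂ p) (hχ2 : χ ^ 2 = 1) (hι : χ ι = 1) (y Q : ℕ) (hQ : Q < p) :
    badSum p χ y Q + ∑ q ∈ (Ioc y Q).filter (fun q => q.Prime ∧ q % 4 = 1),
      (nb ι χ q : ℝ) * (1 / q) ≤
      ∑ q ∈ (Ioc y Q).filter Nat.Prime, (1 : ℝ) / q +
        ∑ q ∈ (Ioc y Q).filter (fun q => q.Prime ∧ q % 4 = 1), (1 : ℝ) / q := by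
  classical
  have e1 : badSum p χ y Q = ∑ q ∈ (Ioc y Q).filter Nat.Prime,
      (if χ (q : ZMod p) ≠ 1 then (1 : ℝ) / q else 0) := by
    unfold badSum
    rw [← Finset.sum_filter, Finset.filter_filter]
  have e2 : ∀ f : ℕ → ℝ, ∑ q ∈ (Ioc y Q).filter (fun q => q.Prime ∧ q % 4 = 1), f q =
      ∑ q ∈ (Ioc y Q).filter Nat.Prime, (if q % 4 = 1 then f q else 0) := by
    intro f
    rw [← Finset.filter_filter, Finset.sum_filter]
  rw [e1, e2, e2, ← Finset.sum_add_distrib, ← Finset.sum_add_distrib]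
  apply Finset.sum_le_sum
  intro q hq
  rw [mem_filter, mem_Ioc] at hq
  have hq0 : (0 : ℝ) < 1 / (q : ℝ) := by
    have : (0 : ℝ) < q := by exact_mod_cast hq.2.pos
    positivity
  by_cases h4 : q % 4 = 1
  · rw [if_pos h4, if_pos h4]
    by_cases hc : χ (q : ZMod p) ≠ 1
    · rw [if_pos hc]
      have : (nb ι χ q : ℝ) ≤ 1 := by
        exact_mod_cast nb_one ι h χ hχ2 hι hq.2 h4 (by omega) hc
      nlinarith
    · rw [if_neg hc]
      have : (nb ι χ q : ℝ) ≤ 2 := by exact_mod_cast nb_le ι χ q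
      nlinarith
  · rw [if_neg h4, if_neg h4]
    split_ifs <;> linarith

/-- **a small quadratic nonresidue among the integers and the Gaussian integers** -/
theorem exists_nonres (ε : ℝ) (hε : 0 < ε) : ∃ p₀ : ℕ, ∀ p : ℕ, p₀ ≤ p → ∀ [Fact p.Prime]
    (ι : ZMod p), ι * ι = -1 → p % 8 = 1 →
    (∀ b : ℕ, 1 ≤ b → (b : ℝ) ≤ (p : ℝ) ^ (1 / (4 * Real.exp (2 / 3)) + ε) →
      (b : ZMod p) ^ ((p - 1) / 2) = 1) →
    ∃ w : ℕ × ℕ, (nm w).Prime ∧ (nm w : ℝ) ≤ (p : ℝ) ^ (1 / (4 * Real.exp (2 / 3)) + ε) ∧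
      (gz ι w) ^ ((p - 1) / 2) ≠ 1 := by
  obtain ⟨η, hηdef⟩ : ∃ η, η = min ε (1 / 64) := ⟨_, rfl⟩
  have hη : 0 < η := by rw [hηdef]; exact lt_min hε (by norm_num)
  have hηε : η ≤ ε := by rw [hηdef]; exact min_le_left _ _
  have hη64 : η ≤ 1 / 64 := by rw [hηdef]; exact min_le_right _ _
  obtain ⟨θ, hθdef⟩ : ∃ θ : ℝ, θ = 1 / (4 * Real.exp (2 / 3)) := ⟨_, rfl⟩
  have hexp := exp_two_thirds
  have hexp0 : 0 < Real.exp (2 / 3) := Real.exp_pos _
  have hθ8 : 1 / 8 < θ := by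
    rw [hθdef]
    apply one_div_lt_one_div_of_lt (by positivity)
    linarith
  have hrho := Pool.Agent.Q265.PR.rho_l (2 / 3) η (by norm_num) hη
  rw [← hθdef]
  rw [← hθdef] at hrho
  obtain ⟨b, hb⟩ : ∃ b, b = θ + 3 / 4 * η := ⟨_, rfl⟩
  have hb0 : 0 < b := by rw [hb]; positivity
  rw [← hb] at hrho
  obtain ⟨γ, hγ⟩ : ∃ γ, γ = 2 / 3 - Real.log ((1 / 4 + η / 2) / b) := ⟨_, rfl⟩
  have hγ0 : 0 < γ := by rw [hγ]; linarith
  obtain ⟨C1, hC10, hC1⟩ := Pool.Agent.Helper923.HMertens.mertens_ratio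
  obtain ⟨C2, hC20, hC2⟩ := M4.ratio4
  obtain ⟨δ, hδ⟩ : ∃ δ, δ = min (γ / 8) (1 / 8) := ⟨_, rfl⟩
  have hδ0 : 0 < δ := by rw [hδ]; exact lt_min (by positivity) (by norm_num)
  have hδγ : δ ≤ γ / 8 := by rw [hδ]; exact min_le_left _ _
  have hδ8 : δ ≤ 1 / 8 := by rw [hδ]; exact min_le_right _ _
  obtain ⟨N0, hN0⟩ := bge_all (η / 4) δ 1 (fun r => 2 * (r : ℝ)) (by positivity) hδ0 one_pos
    (fun r => by positivity)
  obtain ⟨N1, hN1⟩ := burg2 (η / 8) δ (by positivity) (by linarith) hδ0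
  obtain ⟨L0, hL1, hL2, hL3, hL4, hL5⟩ : ∃ L0 : ℝ, Real.log 2 / (η / 12) ≤ L0 ∧
      Real.log 2 / b ≤ L0 ∧ (C1 + C2) * (8 / γ) / b ≤ L0 ∧ (640 / γ) ^ 2 / b ≤ L0 ∧
      3 * C1 / b ≤ L0 :=
    ⟨max (Real.log 2 / (η / 12)) (max (Real.log 2 / b) (max ((C1 + C2) * (8 / γ) / b)
      (max ((640 / γ) ^ 2 / b) (3 * C1 / b)))),
      le_max_left _ _, (le_max_left _ _).trans (le_max_right _ _),
      ((le_max_left _ _).trans (le_max_right _ _)).trans (le_max_right _ _),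
      (((le_max_left _ _).trans (le_max_right _ _)).trans (le_max_right _ _)).trans
        (le_max_right _ _),
      (((le_max_right _ _).trans (le_max_right _ _)).trans (le_max_right _ _)).trans
        (le_max_right _ _)⟩
  refine ⟨max N0 (max N1 (max 3 ⌈Real.exp L0⌉₊)), fun p hp _ ι hι h8 hint => ?_⟩
  have hpp : p.Prime := Fact.out
  have : NeZero p := ⟨hpp.ne_zero⟩
  have hNN0 : N0 ≤ p := (le_max_left _ _).trans hp
  have hNN1 : N1 ≤ p := ((le_max_left _ _).trans (le_max_right _ _)).trans hp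
  have hp3 : 3 ≤ p := (((le_max_left _ _).trans (le_max_right _ _)).trans (le_max_right _ _)).trans hp
  have hNexp : Real.exp L0 ≤ p := by
    have : ⌈Real.exp L0⌉₊ ≤ p :=
      (((le_max_right _ _).trans (le_max_right _ _)).trans (le_max_right _ _)).trans hp
    exact (Nat.le_ceil _).trans (by exact_mod_cast this)
  have hNr1 : (1 : ℝ) ≤ p := by exact_mod_cast hpp.one_lt.le
  have hNpos : (0 : ℝ) < p := by linarith
  have hlog : L0 ≤ Real.log p := (Real.le_log_iff_exp_le hNpos).mpr hNexp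
  have hpow : ∀ t : ℝ, 0 < t → Real.log 2 / t ≤ Real.log p → (2 : ℝ) ≤ (p : ℝ) ^ t := by
    intro t ht hle
    rw [div_le_iff₀ ht] at hle
    rw [Real.rpow_def_of_pos hNpos]
    calc (2 : ℝ) = Real.exp (Real.log 2) := (Real.exp_log (by norm_num)).symm
      _ ≤ Real.exp (Real.log p * t) := Real.exp_le_exp.mpr hle
  by_contra hcon
  push Not at hcon
  have hq12 : (2 : ℝ) ≤ (p : ℝ) ^ (η / 12) := hpow _ (by positivity) (hL1.trans hlog)
  have hq8 : (2 : ℝ) ≤ (p : ℝ) ^ (η / 8) :=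
    hq12.trans (Real.rpow_le_rpow_of_exponent_le hNr1 (by linarith))
  have hq4 : (8 : ℝ) ≤ (p : ℝ) ^ (η / 4) := by
    have e : (p : ℝ) ^ (η / 4) = (p : ℝ) ^ (η / 12) * ((p : ℝ) ^ (η / 12) * (p : ℝ) ^ (η / 12)) := by
      rw [← Real.rpow_add hNpos, ← Real.rpow_add hNpos]
      congr 1
      ring
    rw [e]
    have h4 : (4 : ℝ) ≤ (p : ℝ) ^ (η / 12) * (p : ℝ) ^ (η / 12) := by nlinarith
    nlinarith
  -- y
  obtain ⟨y, hydef⟩ : ∃ y : ℕ, y = ⌊(p : ℝ) ^ (θ + η)⌋₊ := ⟨_, rfl⟩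
  have hyup : (y : ℝ) ≤ (p : ℝ) ^ (θ + ε) := by
    rw [hydef]
    exact (Nat.floor_le (by positivity)).trans
      (Real.rpow_le_rpow_of_exponent_le hNr1 (by linarith))
  have hyb : (p : ℝ) ^ b < y := by
    have h1 : (p : ℝ) ^ (θ + η) < y + 1 := by
      rw [hydef]
      exact Nat.lt_floor_add_one _
    have h2 : (p : ℝ) ^ (θ + η) = (p : ℝ) ^ (η / 4) * (p : ℝ) ^ b := by
      rw [← Real.rpow_add hNpos, hb]
      congr 1
      ring
    have h3 : (1 : ℝ) ≤ (p : ℝ) ^ b := Real.one_le_rpow hNr1 hb0.le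
    rw [h2] at h1
    nlinarith
  have hy2 : (2 : ℝ) < y := lt_of_le_of_lt (hpow b hb0 (hL2.trans hlog)) hyb
  have hy2' : 2 ≤ y := by
    have : (2 : ℕ) < y := by exact_mod_cast hy2
    omega
  have hypos : (0 : ℝ) < y := by linarith
  have hlogy : b * Real.log p < Real.log y := by
    have := Real.log_lt_log (Real.rpow_pos_of_pos hNpos b) hyb
    rwa [Real.log_rpow hNpos] at this
  have hlogp0 : 0 < Real.log p := Real.log_pos (by exact_mod_cast hpp.one_lt)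
  have hlogypos : 0 < Real.log y := by
    have : 0 < b * Real.log p := by positivity
    linarith
  -- X
  obtain ⟨X, hXdef⟩ : ∃ X : ℕ, X = ⌈(p : ℝ) ^ (1 / 8 + η / 8)⌉₊ := ⟨_, rfl⟩
  have hX1 : (p : ℝ) ^ (1 / 8 + η / 8) ≤ X := by rw [hXdef]; exact Nat.le_ceil _
  have hXone : (1 : ℝ) ≤ (p : ℝ) ^ (1 / 8 + η / 8) := Real.one_le_rpow hNr1 (by positivity)
  have hXup : (X : ℝ) ≤ 2 * (p : ℝ) ^ (1 / 8 + η / 8) := by
    have h1 : (X : ℝ) ≤ (p : ℝ) ^ (1 / 8 + η / 8) + 1 := by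
      rw [hXdef]; exact (Nat.ceil_lt_add_one (by positivity)).le
    linarith
  have hXge1 : (1 : ℝ) ≤ X := hXone.trans hX1
  have hX1' : 1 ≤ X := by exact_mod_cast hXge1
  have hXpos : (0 : ℝ) < X := by linarith
  have hX316 : (X : ℝ) ≤ (p : ℝ) ^ (3 / 16 : ℝ) := by
    calc (X : ℝ) ≤ 2 * (p : ℝ) ^ (1 / 8 + η / 8) := hXup
      _ ≤ (p : ℝ) ^ (η / 8) * (p : ℝ) ^ (1 / 8 + η / 8) := by gcongr
      _ = (p : ℝ) ^ (η / 8 + (1 / 8 + η / 8)) := by rw [← Real.rpow_add hNpos]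
      _ ≤ (p : ℝ) ^ (3 / 16 : ℝ) := Real.rpow_le_rpow_of_exponent_le hNr1 (by linarith)
  obtain ⟨Q, hQdef⟩ : ∃ Q : ℕ, Q = 2 * X ^ 2 := ⟨_, rfl⟩
  have hQr : (Q : ℝ) = 2 * (X : ℝ) ^ 2 := by rw [hQdef]; push_cast; ring
  have hQlow : (p : ℝ) ^ (1 / 4 + η / 4) ≤ Q := by
    have e : (p : ℝ) ^ (1 / 4 + η / 4) = ((p : ℝ) ^ (1 / 8 + η / 8)) ^ 2 := by
      rw [← Real.rpow_natCast, ← Real.rpow_mul hNpos.le]
      congr 1
      push_cast
      ring
    rw [e, hQr]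
    have := pow_le_pow_left₀ (by positivity) hX1 2
    have h0 : (0 : ℝ) ≤ (X : ℝ) ^ 2 := by positivity
    linarith
  have hQup : (Q : ℝ) ≤ (p : ℝ) ^ (1 / 4 + η / 2) := by
    have e : (p : ℝ) ^ (1 / 4 + η / 2) = (p : ℝ) ^ (η / 4) * ((p : ℝ) ^ (1 / 8 + η / 8)) ^ 2 := by
      rw [← Real.rpow_natCast, ← Real.rpow_mul hNpos.le, ← Real.rpow_add hNpos]
      congr 1
      push_cast
      ring
    rw [e, hQr]
    have h1 := pow_le_pow_left₀ (by positivity) hXup 2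
    calc 2 * (X : ℝ) ^ 2 ≤ 2 * (2 * (p : ℝ) ^ (1 / 8 + η / 8)) ^ 2 := by linarith
      _ = 8 * ((p : ℝ) ^ (1 / 8 + η / 8)) ^ 2 := by ring
      _ ≤ (p : ℝ) ^ (η / 4) * ((p : ℝ) ^ (1 / 8 + η / 8)) ^ 2 := by gcongr
  have hQsqrt : (Q : ℝ) ≤ Real.sqrt p := by
    rw [Real.sqrt_eq_rpow]
    exact hQup.trans (Real.rpow_le_rpow_of_exponent_le hNr1 (by linarith))
  have hQp : Q < p := by
    have h1 : (Q : ℝ) < p := by
      refine lt_of_le_of_lt (hQup.trans (Real.rpow_le_rpow_of_exponent_le hNr1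
        (show (1 / 4 + η / 2 : ℝ) ≤ 1 / 2 by linarith))) ?_
      have h2 : (p : ℝ) ^ ((1 : ℝ) / 2) < (p : ℝ) ^ (1 : ℝ) :=
        Real.rpow_lt_rpow_of_exponent_lt (by exact_mod_cast hpp.one_lt) (by norm_num)
      rwa [Real.rpow_one] at h2
    exact_mod_cast h1
  have hXy : 2 * X ≤ y := by
    have h1 : (2 * X : ℝ) ≤ y := by
      calc (2 * X : ℝ) ≤ 4 * (p : ℝ) ^ (1 / 8 + η / 8) := by linarith
        _ ≤ (p : ℝ) ^ (η / 4) * (p : ℝ) ^ (1 / 8 + η / 8) := by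
            apply mul_le_mul_of_nonneg_right (by linarith) (by positivity)
        _ = (p : ℝ) ^ (η / 4 + (1 / 8 + η / 8)) := by rw [← Real.rpow_add hNpos]
        _ ≤ (p : ℝ) ^ b := Real.rpow_le_rpow_of_exponent_le hNr1 (by rw [hb]; linarith)
        _ ≤ y := hyb.le
    exact_mod_cast h1
  -- the character
  have h2d : 2 ∣ p - 1 := by omega
  obtain ⟨χ, hχ⟩ := Pool.Agent.Q265.PR.exists_chi p 2 Nat.prime_two h2d
  have hχ1 : χ ≠ 1 := by
    intro h
    rw [h, orderOf_one] at hχ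
    omega
  have hχ2 : χ ^ 2 = 1 := by rw [← hχ]; exact pow_orderOf_eq_one χ
  have hone : ∀ x : ZMod p, x ^ ((p - 1) / 2) = 1 → χ x = 1 := fun x hx =>
    Pool.Agent.Q265.PR.chi_one p 2 Nat.prime_two h2d χ hχ2 x hx
  have hι1 : χ ι = 1 := by
    apply hone
    obtain ⟨k, hk⟩ : ∃ k, (p - 1) / 2 = 4 * k := ⟨(p - 1) / 8, by omega⟩
    rw [hk, pow_mul]
    have : ι ^ 4 = 1 := by
      calc ι ^ 4 = (ι * ι) * (ι * ι) := by ring
        _ = 1 := by rw [hι]; ring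
    rw [this, one_pow]
  have hy : ∀ l : ℕ, l.Prime → l ≤ y → χ (l : ZMod p) = 1 := by
    intro l hl hly
    apply hone
    apply hint l hl.one_lt.le
    exact le_trans (by exact_mod_cast hly) hyup
  have hyg : ∀ w : ℕ × ℕ, (nm w).Prime → nm w ≤ y → χ (gz ι w) = 1 := by
    intro w hw hwy
    apply hone
    apply hcon w hw
    exact le_trans (by exact_mod_cast hwy) hyup
  -- the two estimates
  have hZ := hN0 p hNN0 χ (Pool.Agent.Y165.HN.fam_all p χ hχ1) Q y hQlow hQsqrt hy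
  have hB := hN1 p hNN1 ι hι χ hχ1 X hX1 hX316
  have hV := vin2 ι hι χ hχ2 hι1 X y hX1' (by rw [← hQdef]; exact hQp) hXy hy2' hy hyg
  rw [← hQdef] at hV
  have hcomb := combine ι hι χ hχ2 hι1 y Q hQp
  have hyQ : y ≤ Q := by
    by_contra hc
    rw [SNG_empty (by omega)] at hZ
    linarith
  have hm := (abs_le.mp (hC1 y Q hy2' hyQ)).2
  have hm2 := hC2 y Q hy2' hyQ
  have hQpos : (0 : ℝ) < Q := by
    have := Real.rpow_pos_of_pos hNpos (1 / 4 + η / 4)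
    linarith
  have hlogQ : Real.log Q ≤ (1 / 4 + η / 2) * Real.log p := by
    have := Real.log_le_log hQpos hQup
    rwa [Real.log_rpow hNpos] at this
  have hlogQpos : 0 < Real.log Q := by
    apply Real.log_pos
    have : (y : ℝ) ≤ Q := by exact_mod_cast hyQ
    linarith
  have hratio : Real.log Q / Real.log y ≤ (1 / 4 + η / 2) / b := by
    rw [div_le_div_iff₀ hlogypos hb0]
    calc Real.log Q * b ≤ ((1 / 4 + η / 2) * Real.log p) * b := by gcongr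
      _ = (1 / 4 + η / 2) * (b * Real.log p) := by ring
      _ ≤ (1 / 4 + η / 2) * Real.log y := by gcongr
  have hlr : Real.log (Real.log Q / Real.log y) ≤ 2 / 3 - γ := by
    rw [hγ]
    have := Real.log_le_log (div_pos hlogQpos hlogypos) hratio
    linarith
  have hbig : ∀ c : ℝ, c / b ≤ L0 → c ≤ Real.log y := by
    intro c hc
    rw [div_le_iff₀ hb0] at hc
    have : L0 * b ≤ Real.log p * b := mul_le_mul_of_nonneg_right hlog hb0.le
    linarith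
  have hCy : (C1 + C2) / Real.log y ≤ γ / 8 := by
    rw [div_le_iff₀ hlogypos]
    have h1 := hbig _ hL3
    have h2 := mul_le_mul_of_nonneg_left h1 (show 0 ≤ γ / 8 by positivity)
    have h3 : γ / 8 * ((C1 + C2) * (8 / γ)) = C1 + C2 := by field_simp
    linarith
  have hC1y : C1 / Real.log y ≤ 1 / 3 := by
    rw [div_le_iff₀ hlogypos]
    have h1 := hbig _ hL5
    linarith
  have hS1 : ∑ q ∈ (Ioc y Q).filter Nat.Prime, (1 : ℝ) / q ≤ 1 := by linarith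
  have hS := sum_inv_sqrt y Q hy2' 1 hS1
  have hsq : Real.sqrt (2 * Q / Real.log y * 1) = 2 * X / Real.sqrt (Real.log y) := by
    rw [mul_one, hQr]
    have : 2 * (2 * (X : ℝ) ^ 2) / Real.log y = (2 * X) ^ 2 / Real.log y := by ring
    rw [this, Real.sqrt_div (by positivity), Real.sqrt_sq (by positivity)]
  rw [hsq] at hS
  have hsly : 640 / γ ≤ Real.sqrt (Real.log y) := by
    apply Real.le_sqrt_of_sq_le
    exact hbig _ hL4
  have hsly0 : 0 < Real.sqrt (Real.log y) := Real.sqrt_pos.2 hlogypos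
  have hE : 40 * (X : ℝ) * ∑ q ∈ (Ioc y Q).filter (fun q => q.Prime ∧ q % 4 = 1),
      1 / Real.sqrt q ≤ X ^ 2 * (γ / 8) := by
    calc 40 * (X : ℝ) * ∑ q ∈ (Ioc y Q).filter (fun q => q.Prime ∧ q % 4 = 1),
        1 / Real.sqrt q ≤ 40 * X * (2 * X / Real.sqrt (Real.log y)) := by gcongr
      _ = X ^ 2 * (80 / Real.sqrt (Real.log y)) := by ring
      _ ≤ X ^ 2 * (γ / 8) := by
          apply mul_le_mul_of_nonneg_left _ (by positivity)
          rw [div_le_iff₀ hsly0]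
          have h2 := mul_le_mul_of_nonneg_left hsly (show 0 ≤ γ / 8 by positivity)
          have h3 : γ / 8 * (640 / γ) = 80 := by field_simp; norm_num
          linarith
  have hK : 1 - 2 * ∑ q ∈ (Ioc y Q).filter (fun q => q.Prime ∧ q % 4 = 1),
      (nb ι χ q : ℝ) * (1 / q) ≤ δ + γ / 8 := by
    have h1 : (X : ℝ) ^ 2 * (1 - 2 * ∑ q ∈ (Ioc y Q).filter (fun q => q.Prime ∧ q % 4 = 1),
      (nb ι χ q : ℝ) * (1 / q)) ≤ X ^ 2 * (δ + γ / 8) := by
      have := hV.trans hB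
      linarith
    exact le_of_mul_le_mul_left h1 (by positivity)
  have hadd : (C1 + C2) / Real.log y = C1 / Real.log y + C2 / Real.log y := add_div _ _ _
  linarith
where
  SNG_empty {p y Q : ℕ} {χ : DirichletCharacter ℂ p} (h : Q ≤ y) : badSum p χ y Q = 0 := by
    classical
    unfold badSum
    rw [Finset.Ioc_eq_empty_of_le h, Finset.filter_empty, Finset.sum_empty]

end Pool.Agent.H96.PR
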