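import Pool.Agent.H96.PR.T2
import Pool.Agent.H96.PR.V3

set_option autoImplicit false

/-! # The search for a quadratic nonresidue -/

namespace Pool.Agent.NPC.H96PR

open Pool.Agent.NPC Pool.Agent.H595R2.PR Finset
open Pool.Agent.NPC.Q265PR (Inv inv_ini pw_one_iff strip_le strip_pos)
open Pool.Agent.H96.PR (nm gz)

/-- the next pair -/
def nxt (w : ℕ × ℕ) : ℕ × ℕ :=
  (if w.2 < w.1 then w.1 else w.1 + 1, if w.2 < w.1 then w.2 + 1 else 0)

/-- the pairs `(a, c)` with `c ≤ a`, `1 ≤ a`, in order -/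
def pr (t : ℕ) : ℕ × ℕ := nxt^[t] (1, 0)

theorem pr_succ (t : ℕ) : pr (t + 1) = nxt (pr t) := Function.iterate_succ_apply' _ _ _

theorem pr_inv (t : ℕ) : 1 ≤ (pr t).1 ∧ (pr t).2 ≤ (pr t).1 ∧
    (pr t).1 ^ 2 + (pr t).1 + 2 * (pr t).2 = 2 * t + 2 := by
  induction t with
  | zero =>
    refine ⟨le_rfl, Nat.zero_le _, rfl⟩
  | succ t ih =>
    rw [pr_succ]
    obtain ⟨h1, h2, h3⟩ := ih
    unfold nxt
    simp only
    split_ifs with h
    · exact ⟨h1, h, by omega⟩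
    · have h4 : (pr t).2 = (pr t).1 := by omega
      refine ⟨by omega, Nat.zero_le _, ?_⟩
      rw [h4] at h3
      nlinarith

theorem pr_exists (a c : ℕ) (ha : 1 ≤ a) (hc : c ≤ a) : ∃ t : ℕ, t ≤ a ^ 2 + c ^ 2 ∧
    pr t = (a, c) := by
  have heven : 2 ∣ a ^ 2 + a := by
    have : a ^ 2 + a = a * (a + 1) := by ring
    rw [this]
    exact (Nat.even_mul_succ_self a).two_dvd
  obtain ⟨m, hm⟩ := heven
  have h1 : a ≤ a ^ 2 := by nlinarith
  have h2 : c ≤ c ^ 2 := by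
    rcases Nat.eq_zero_or_pos c with h | h
    · rw [h]
      exact Nat.zero_le _
    · nlinarith
  refine ⟨m + c - 1, by omega, ?_⟩
  obtain ⟨h3, h4, h5⟩ := pr_inv (m + c - 1)
  generalize pr (m + c - 1) = w at h3 h4 h5
  obtain ⟨a', c'⟩ := w
  simp only at h3 h4 h5
  have h6 : a' ^ 2 + a' + 2 * c' = a ^ 2 + a + 2 * c := by omega
  have h7 : a' = a := by
    rcases lt_trichotomy a' a with h | h | h
    · exfalso
      have : (a' + 1) * (a' + 1) ≤ a * a := Nat.mul_le_mul h h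
      nlinarith
    · exact h
    · exfalso
      have : (a + 1) * (a + 1) ≤ a' * a' := Nat.mul_le_mul h h
      nlinarith
  subst h7
  have h8 : c' = c := by omega
  rw [h8]

/-- the first part of the search -/
theorem phaseA {p e β : ℕ} [Fact p.Prime] (h8 : p % 8 = 1)
    (hβ : ∀ b : ℕ, 1 ≤ b → b < β → ((b : ℕ) : ZMod p) ^ ((p - 1) / 4) = 1) (k : ℕ)
    (hk : k + 1 ≤ β) : (stp e)^[k] (p, 0, 1, 1, 0, 0) = (p, 0, k + 1, 1, 0, 0) := by
  induction k with
  | zero => rfl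
  | succ k ih =>
    rw [Function.iterate_succ_apply', ih (by omega)]
    have h1 := hβ (k + 1) (by omega) (by omega)
    have h2 : (((k + 1 : ℕ)) : ZMod p) ^ ((p - 1) / 2) = 1 := by
      have : (p - 1) / 2 = (p - 1) / 4 * 2 := by omega
      rw [this, pow_mul, h1, one_pow]
    unfold stp pre
    simp only
    rw [if_pos trivial, if_pos ((pw_one_iff _ _).2 h2), if_pos trivial, if_pos ((pw_one_iff _ _).2 h1)]

/-- the tests in a round -/
def Ok (p h β t : ℕ) : Prop :=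
  ((β + t : ℕ) : ZMod p) ^ ((p - 1) / 2) = 1 ∧
  (((pr t).1 + (pr t).2 * h : ℕ) : ZMod p) ^ ((p - 1) / 2) = 1 ∧
  (((pr t).2 + (pr t).1 * h : ℕ) : ZMod p) ^ ((p - 1) / 2) = 1

/-- the second part of the search -/
theorem phaseB {p e β h : ℕ} [Fact p.Prime] (hh : h ≠ 0) (t : ℕ)
    (ht : ∀ i < t, Ok p h β i) :
    (stp e)^[t] (p, h, β, 1, 0, 0) = (p, h, β + t, (pr t).1, (pr t).2, 0) := by
  induction t with
  | zero => rfl
  | succ t ih =>
    rw [Function.iterate_succ_apply', ih (fun i hi => ht i (by omega))]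
    obtain ⟨h1, h2, h3⟩ := ht t (by omega)
    unfold stp pre
    simp only
    rw [if_pos trivial, if_pos ((pw_one_iff _ _).2 h1), if_neg hh, if_pos ((pw_one_iff _ _).2 h2),
      if_pos ((pw_one_iff _ _).2 h3), pr_succ]
    rfl

/-- the last round of the search -/
theorem found {p e β h t : ℕ} [Fact p.Prime] (hh : h ≠ 0) (ht : ¬ Ok p h β t) :
    ∃ v : ℕ, stp e (p, h, β + t, (pr t).1, (pr t).2, 0) = fnd p v ∧
      ((v : ℕ) : ZMod p) ^ ((p - 1) / 2) ≠ 1 ∧
      (v = β + t ∨ ((v : ℕ) : ZMod p) = (((pr t).1 + (pr t).2 * h : ℕ) : ZMod p) ∨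
        ((v : ℕ) : ZMod p) = (((pr t).2 + (pr t).1 * h : ℕ) : ZMod p)) := by
  unfold stp pre
  simp only
  rw [if_pos trivial]
  by_cases c1 : pw p (β + t) ((p - 1) / 2) = 1
  · rw [if_pos c1, if_neg hh]
    by_cases c2 : pw p ((pr t).1 + (pr t).2 * h) ((p - 1) / 2) = 1
    · rw [if_pos c2]
      by_cases c3 : pw p ((pr t).2 + (pr t).1 * h) ((p - 1) / 2) = 1
      · exact absurd ⟨(pw_one_iff _ _).1 c1, (pw_one_iff _ _).1 c2, (pw_one_iff _ _).1 c3⟩ ht
      · rw [if_neg c3]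
        refine ⟨_, rfl, ?_, Or.inr (Or.inr (cor_md _))⟩
        rw [cor_md]
        exact fun h => c3 ((pw_one_iff _ _).2 h)
    · rw [if_neg c2]
      refine ⟨_, rfl, ?_, Or.inr (Or.inl (cor_md _))⟩
      rw [cor_md]
      exact fun h => c2 ((pw_one_iff _ _).2 h)
  · rw [if_neg c1]
    refine ⟨_, rfl, ?_, Or.inl rfl⟩
    exact fun h => c1 ((pw_one_iff _ _).2 h)

theorem gauss_ne {p : ℕ} [Fact p.Prime] {ι : ZMod p} (hι : ι * ι = -1) {a c : ℕ}
    (h0 : 0 < a ^ 2 + c ^ 2) (hp : a ^ 2 + c ^ 2 < p) : (a : ZMod p) + c * ι ≠ 0 := by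
  intro h
  have h1 : ((a : ZMod p) + c * ι) * (a - c * ι) = ((a ^ 2 + c ^ 2 : ℕ) : ZMod p) := by
    push_cast
    linear_combination (-(c : ZMod p) ^ 2) * hι
  rw [h, zero_mul] at h1
  have h2 := h1.symm
  rw [ZMod.natCast_eq_zero_iff] at h2
  have := Nat.le_of_dvd h0 h2
  omega

/-- **the search for a quadratic nonresidue** -/
theorem pre_run {p e y : ℕ} [Fact p.Prime] (h8 : p % 8 = 1) (hy : 4 * y + 8 < p)
    (h4 : ∃ b : ℕ, 1 ≤ b ∧ b ≤ y ∧ ((b : ℕ) : ZMod p) ^ ((p - 1) / 4) ≠ 1)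
    (hG : ∀ ι : ZMod p, ι * ι = -1 →
      (∀ b : ℕ, 1 ≤ b → b ≤ y → ((b : ℕ) : ZMod p) ^ ((p - 1) / 2) = 1) →
      ∃ w : ℕ × ℕ, (nm w).Prime ∧ nm w ≤ y ∧ (gz ι w) ^ ((p - 1) / 2) ≠ 1) :
    ∃ τ v : ℕ, (stp e)^[τ] (ini p) = fnd p v ∧ τ ≤ 2 * y + 1 ∧ ((v : ℕ) : ZMod p) ≠ 0 ∧
      ((v : ℕ) : ZMod p) ^ ((p - 1) / 2) ≠ 1 := by
  classical
  have hp : p.Prime := Fact.out
  have hini : ini p = (p, 0, 1, 1, 0, 0) := if_pos h8
  rw [hini]
  have hex : ∃ b : ℕ, 1 ≤ b ∧ ((b : ℕ) : ZMod p) ^ ((p - 1) / 4) ≠ 1 := by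
    obtain ⟨b, h1, -, h2⟩ := h4
    exact ⟨b, h1, h2⟩
  obtain ⟨β, hβ1, hβ2, hβ3⟩ : ∃ β : ℕ, 1 ≤ β ∧ ((β : ℕ) : ZMod p) ^ ((p - 1) / 4) ≠ 1 ∧
      ∀ b : ℕ, 1 ≤ b → b < β → ((b : ℕ) : ZMod p) ^ ((p - 1) / 4) = 1 := by
    refine ⟨Nat.find hex, (Nat.find_spec hex).1, (Nat.find_spec hex).2, fun b hb hb2 => ?_⟩
    by_contra hc
    exact Nat.find_min hex hb2 ⟨hb, hc⟩
  have hle : ∀ b : ℕ, 1 ≤ b → ((b : ℕ) : ZMod p) ^ ((p - 1) / 4) ≠ 1 → β ≤ b := by
    intro b hb hb2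
    by_contra hc
    exact hb2 (hβ3 b hb (by omega))
  have hβy : β ≤ y := by
    obtain ⟨b, h1, h2, h3⟩ := h4
    exact (hle b h1 h3).trans h2
  have hne : ∀ b : ℕ, 1 ≤ b → b < p → ((b : ℕ) : ZMod p) ≠ 0 := by
    intro b hb hb2 h
    rw [ZMod.natCast_eq_zero_iff] at h
    have := Nat.le_of_dvd (by omega) h
    omega
  have h24 : ∀ x : ZMod p, x ^ ((p - 1) / 4) = 1 → x ^ ((p - 1) / 2) = 1 := by
    intro x hx
    have : (p - 1) / 2 = (p - 1) / 4 * 2 := by omega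
    rw [this, pow_mul, hx, one_pow]
  have hA := phaseA (e := e) h8 hβ3 (β - 1) (by omega)
  rw [show β - 1 + 1 = β by omega] at hA
  by_cases hq : ((β : ℕ) : ZMod p) ^ ((p - 1) / 2) = 1
  · -- the square root of `-1`
    obtain ⟨h, hh⟩ : ∃ h, h = pw p β ((p - 1) / 8) := ⟨_, rfl⟩
    obtain ⟨ι, hι⟩ : ∃ ι : ZMod p, ι = ((β : ℕ) : ZMod p) ^ ((p - 1) / 8) := ⟨_, rfl⟩
    have hhι : ((h : ℕ) : ZMod p) = ι := by rw [hh, hι, cor_pw]
    have hι4 : (ι * ι) * (ι * ι) = 1 := by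
      rw [hι]
      have : (((β : ℕ) : ZMod p) ^ ((p - 1) / 8) * ((β : ℕ) : ZMod p) ^ ((p - 1) / 8)) *
        (((β : ℕ) : ZMod p) ^ ((p - 1) / 8) * ((β : ℕ) : ZMod p) ^ ((p - 1) / 8)) =
        ((β : ℕ) : ZMod p) ^ ((p - 1) / 2) := by
        rw [← pow_add, ← pow_add]
        congr 1
        omega
      rw [this, hq]
    have hι2 : ι * ι ≠ 1 := by
      rw [hι, ← pow_add]
      have : (p - 1) / 8 + (p - 1) / 8 = (p - 1) / 4 := by omega
      rw [this]
      exact hβ2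
    have hιι : ι * ι = -1 := by
      rcases mul_self_eq_one_iff.1 hι4 with h | h
      · exact absurd h hι2
      · exact h
    have hh0 : h ≠ 0 := by
      rintro rfl
      rw [Nat.cast_zero] at hhι
      rw [← hhι, mul_zero] at hιι
      exact one_ne_zero (neg_eq_zero.1 hιι.symm)
    have hstep : stp e (p, 0, β, 1, 0, 0) = (p, h, β, 1, 0, 0) := by
      unfold stp pre
      simp only
      rw [if_pos trivial, if_pos ((pw_one_iff _ _).2 hq), if_pos trivial,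
        if_neg (fun h => hβ2 ((pw_one_iff _ _).1 h)), hh]
    -- some test fails
    have hfail : ∃ t : ℕ, t ≤ y ∧ ¬ Ok p h β t := by
      by_cases hall : ∀ b : ℕ, 1 ≤ b → b ≤ y → ((b : ℕ) : ZMod p) ^ ((p - 1) / 2) = 1
      · obtain ⟨w, hw1, hw2, hw3⟩ := hG ι hιι hall
        obtain ⟨x₁, x₂⟩ := w
        have hnm : nm (x₁, x₂) = x₁ ^ 2 + x₂ ^ 2 := rfl
        have hgz : gz ι (x₁, x₂) = (x₁ : ZMod p) + x₂ * ι := rfl
        rw [hnm] at hw1 hw2
        rw [hgz] at hw3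
        have hpos := hw1.pos
        rcases le_or_gt x₂ x₁ with h21 | h21
        · have hx1 : 1 ≤ x₁ := by
            by_contra hc
            have h1 : x₁ = 0 := by omega
            have h2 : x₂ = 0 := by omega
            rw [h1, h2] at hpos
            omega
          obtain ⟨t, ht1, ht2⟩ := pr_exists x₁ x₂ hx1 h21
          refine ⟨t, ht1.trans hw2, fun hok => hw3 ?_⟩
          have := hok.2.1
          rw [ht2] at this
          push_cast at this
          rw [hhι] at this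
          exact this
        · obtain ⟨t, ht1, ht2⟩ := pr_exists x₂ x₁ (by omega) h21.le
          refine ⟨t, ht1.trans (by omega), fun hok => hw3 ?_⟩
          have := hok.2.2
          rw [ht2] at this
          push_cast at this
          rw [hhι] at this
          exact this
      · push Not at hall
        obtain ⟨b, hb1, hb2, hb3⟩ := hall
        have hb4 := hle b hb1 (fun h => hb3 (h24 _ h))
        refine ⟨b - β, by omega, fun hok => hb3 ?_⟩
        have := hok.1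
        rwa [show β + (b - β) = b by omega] at this
    obtain ⟨t, ht1, ht2, ht3⟩ : ∃ t : ℕ, t ≤ y ∧ ¬ Ok p h β t ∧ ∀ i < t, Ok p h β i := by
      have hex2 : ∃ t : ℕ, ¬ Ok p h β t := by
        obtain ⟨t, -, ht⟩ := hfail
        exact ⟨t, ht⟩
      refine ⟨Nat.find hex2, ?_, Nat.find_spec hex2, fun i hi => ?_⟩
      · obtain ⟨t, h1, h2⟩ := hfail
        exact (Nat.find_min' hex2 h2).trans h1
      · by_contra hc
        exact Nat.find_min hex2 hi hc
    have hB := phaseB (e := e) hh0 t ht3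
    obtain ⟨v, hv1, hv2, hv3⟩ := found (e := e) hh0 ht2
    refine ⟨1 + (t + (1 + (β - 1))), v, ?_, by omega, ?_, hv2⟩
    · rw [Function.iterate_add_apply, Function.iterate_add_apply, Function.iterate_add_apply, hA,
        Function.iterate_one, hstep, hB, hv1]
    · obtain ⟨i1, i2, i3⟩ := pr_inv t
      have hsq : (pr t).2 ^ 2 ≤ (pr t).1 ^ 2 := Nat.pow_le_pow_left i2 2
      have hpos : 0 < (pr t).1 ^ 2 := by positivity
      rcases hv3 with h1 | h1 | h1
      · rw [h1]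
        exact hne _ (by omega) (by omega)
      · rw [h1]
        push_cast
        rw [hhι]
        exact gauss_ne hιι (by omega) (by omega)
      · rw [h1]
        push_cast
        rw [hhι]
        exact gauss_ne hιι (by omega) (by omega)
  · refine ⟨1 + (β - 1), β, ?_, by omega, hne _ hβ1 (by omega), hq⟩
    rw [Function.iterate_add_apply, hA, Function.iterate_one]
    unfold stp pre
    simp only
    rw [if_pos trivial, if_neg (fun h => hq ((pw_one_iff _ _).1 h))]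

end Pool.Agent.NPC.H96PR
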