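import Pool.Agent.H96.PR.T3
import Pool.Agent.H96.PR.F4
import Pool.Graph.R_pool_sql_team_seeded_3997aac3.Q265.PR.E

set_option autoImplicit false

/-! # Primitive roots modulo every prime in deterministic time `p ^ (1 / (4 e ^ (2 / 3)) + ε)` -/

namespace Pool.Agent.H96.PR.T4

open Finset Pool.Agent.NPC.H96PR Pool.Agent.H595R2.PR
open Pool.Agent.NPC.Q265PR (Inv inv_ini pw_one_iff strip_le strip_pos)
open Pool.Agent.Q265.PR.E (size_le_rpow)
open Pool.Agent.H96.PR (nm gz)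

/-- the number `g` is a primitive root modulo `p` -/
def IsPrimRoot (p g : ℕ) : Prop := orderOf (g : ZMod p) = p - 1

open Classical in
/-- After `T` rounds the algorithm made of the three functions `init`, `step`, `out` puts out, on
the input `p` in binary, (the code of) a list of `p.size ^ C` numbers all of which up to a fraction
of at most `p.size ^ (-B)` are primitive roots modulo `p`. -/
def Finds (init step out : List Bool → List Bool) (B C p T : ℕ) : Prop :=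
  ∃ F : List ℕ, out (step^[T] (init (Nat.bits p))) = NPC.bits F ∧ F.length = p.size ^ C ∧
    p.size ^ B * #{i ∈ range F.length | ¬ IsPrimRoot p (F.getD i 0)} ≤ F.length

open Classical in
theorem finds_of {e A B p y T T₀ v : ℕ} (hpp : p.Prime) (hyp : y < p) (he : 1 ≤ e)
    (h1 : (p : ℝ) ^ (1 - 1 / (e : ℝ)) ≤ (Nat.card (Gam p (p.size ^ A)) : ℝ))
    (h2 : p.size ^ A < p) (h3 : p.size ^ ((A + B + 1) * e) < p) (hv : ((v : ℕ) : ZMod p) ≠ 0)
    (hH : Has p e y (v + 1)) (h0 : (stp e)^[T₀] (ini p) = fnd p v)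
    (hT : (T₀ : ℝ) + (p : ℝ) ^ (1 / (e : ℝ)) + y * p.size ≤ T) :
    Finds iniB (stpB e) (outB A (A + B + 1)) B (A + B + 1) p T := by
  have : Fact p.Prime := ⟨hpp⟩
  have hp0 : (0 : ℝ) < p := by exact_mod_cast hpp.pos
  have he0 : (e : ℝ) ≠ 0 := by
    have : (1 : ℝ) ≤ e := by exact_mod_cast he
    linarith
  have hR : p < (⌊(p : ℝ) ^ (1 / (e : ℝ))⌋₊ + 2) ^ e := by
    have h4 : (p : ℝ) ^ (1 / (e : ℝ)) < ((⌊(p : ℝ) ^ (1 / (e : ℝ))⌋₊ + 2 : ℕ) : ℝ) := by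
      have := Nat.lt_floor_add_one ((p : ℝ) ^ (1 / (e : ℝ)))
      push_cast
      linarith
    have h5 : ((p : ℝ) ^ (1 / (e : ℝ))) ^ e <
        ((⌊(p : ℝ) ^ (1 / (e : ℝ))⌋₊ + 2 : ℕ) : ℝ) ^ e :=
      pow_lt_pow_left₀ h4 (by positivity) (by omega)
    rw [← Real.rpow_natCast, ← Real.rpow_mul hp0.le, one_div_mul_cancel he0, Real.rpow_one] at h5
    exact_mod_cast h5
  have hT2 : T₀ + ⌊(p : ℝ) ^ (1 / (e : ℝ))⌋₊ + y * p.size ≤ T := by
    have h4 := Nat.floor_le (show 0 ≤ (p : ℝ) ^ (1 / (e : ℝ)) by positivity)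
    have h5 : ((T₀ + ⌊(p : ℝ) ^ (1 / (e : ℝ))⌋₊ + y * p.size : ℕ) : ℝ) ≤ T := by
      push_cast
      linarith
    exact_mod_cast h5
  obtain ⟨l, N, g, hs, hI, hl⟩ := final hv hyp hH _ hR T T₀ h0 hT2
  have hidx : ((p - 1) / Nat.card (Gam p (p.size ^ A))) ^ e ≤ p := by
    have h4 : (((p - 1) / Nat.card (Gam p (p.size ^ A)) : ℕ) : ℝ) ≤ (p : ℝ) ^ (1 / (e : ℝ)) := by
      refine Nat.cast_div_le.trans ?_
      have h5 : (0 : ℝ) < (p : ℝ) ^ (1 - 1 / (e : ℝ)) := by positivity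
      rw [div_le_iff₀ (lt_of_lt_of_le h5 h1)]
      have h6 : (p : ℝ) ^ (1 / (e : ℝ)) * (p : ℝ) ^ (1 - 1 / (e : ℝ)) = p := by
        rw [← Real.rpow_add hp0]
        have : 1 / (e : ℝ) + (1 - 1 / (e : ℝ)) = 1 := by ring
        rw [this, Real.rpow_one]
      have h7 : ((p - 1 : ℕ) : ℝ) ≤ p := by exact_mod_cast Nat.sub_le p 1
      refine h7.trans ?_
      have h8 := mul_le_mul_of_nonneg_left h1 (show 0 ≤ (p : ℝ) ^ (1 / (e : ℝ)) by positivity)
      rw [h6] at h8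
      exact h8
    have h5 := pow_le_pow_left₀ (by positivity) h4 e
    rw [← Real.rpow_natCast ((p : ℝ) ^ (1 / (e : ℝ))), ← Real.rpow_mul hp0.le,
      one_div_mul_cancel he0, Real.rpow_one] at h5
    exact_mod_cast h5
  have hC : (p.size ^ (A + B + 1)) ^ e ≤ p := by
    rw [← pow_mul]
    exact h3.le
  have hf := few (A := A) (C := A + B + 1) (z := v + 1) h2 hI hl hC hidx
  have hlen : (outp A (A + B + 1) (p, l, 0, N, g, v + 1)).length = p.size ^ (A + B + 1) := by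
    simp [outp]
  refine ⟨outp A (A + B + 1) (p, l, 0, N, g, v + 1), ?_, hlen, ?_⟩
  · rw [iter_bits, hs, outB_bits]
  · rw [hlen]
    have h9 : #{i ∈ range (p.size ^ (A + B + 1)) |
        ¬ IsPrimRoot p ((outp A (A + B + 1) (p, l, 0, N, g, v + 1)).getD i 0)} ≤
        p.size ^ A * p.size := by
      refine le_trans (card_le_card ?_) hf
      intro i hi
      rw [mem_filter] at hi ⊢
      exact hi
    calc p.size ^ B * _ ≤ p.size ^ B * (p.size ^ A * p.size) := Nat.mul_le_mul_left _ h9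
      _ = p.size ^ (A + B + 1) := by ring

/-- `-1` or `2` is a quadratic nonresidue unless `p = 1` modulo `8` -/
theorem easy_two {p : ℕ} [Fact p.Prime] (hp2 : p ≠ 2) (h8 : p % 8 ≠ 1) :
    ((p - 1 : ℕ) : ZMod p) ^ ((p - 1) / 2) ≠ 1 ∨ ((2 : ℕ) : ZMod p) ^ ((p - 1) / 2) ≠ 1 := by
  have hp : p.Prime := Fact.out
  have hodd : p % 2 = 1 := hp.eq_two_or_odd.resolve_left hp2
  have hdiv : (p - 1) / 2 = p / 2 := by omega
  by_cases h4 : p % 4 = 3
  · left
    intro h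
    have h1 : ((p - 1 : ℕ) : ZMod p) = -1 := by
      rw [Nat.cast_sub hp.one_lt.le, Nat.cast_one, ZMod.natCast_self, zero_sub]
    rw [h1, hdiv] at h
    have h2 := (ZMod.euler_criterion p (show (-1 : ZMod p) ≠ 0 by
      rw [neg_ne_zero]; exact one_ne_zero)).2 h
    exact (ZMod.exists_sq_eq_neg_one_iff.1 h2) h4
  · right
    intro h
    rw [hdiv] at h
    have h20 : ((2 : ℕ) : ZMod p) ≠ 0 := by
      rw [Ne, ZMod.natCast_eq_zero_iff]
      intro h
      have := Nat.le_of_dvd (by omega) h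
      have := hp.two_le
      omega
    have h2 := (ZMod.euler_criterion p h20).2 h
    have h3 : IsSquare (2 : ZMod p) := by exact_mod_cast h2
    have h4 := (ZMod.exists_sq_eq_two_iff hp2).1 h3
    omega

/-- **Primitive roots modulo every prime, without the factorisation of `p - 1`, in deterministic
time `p ^ (1 / (4 e ^ (2 / 3)) + ε)`.** -/
theorem main (ε : ℝ) (hε : 0 < ε) (hε1 : ε ≤ 1) (B : ℕ) :
    ∃ (C : ℕ) (init step out : List Bool → List Bool),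
      NPC.PolyTime init ∧ NPC.PolyTime step ∧ NPC.PolyTime out ∧
      (∀ p : ℕ, 2 ≤ p → ∀ k : ℕ, (step^[k] (init (Nat.bits p))).length ≤ 50 * p.size) ∧
      ∃ p₀ : ℕ, ∀ p : ℕ, p₀ ≤ p → p.Prime → ∀ T : ℕ,
        (p : ℝ) ^ (1 / (4 * Real.exp (2 / 3)) + ε) ≤ T → Finds init step out B C p T := by
  obtain ⟨e, he⟩ := exists_nat_gt (4 / ε)
  have he0 : (0 : ℝ) < e := lt_trans (by positivity) he
  have he1 : 1 ≤ e := by
    have : 0 < e := by exact_mod_cast he0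
    omega
  have hee : 1 / (e : ℝ) ≤ ε / 4 := by
    rw [div_lt_iff₀ hε] at he
    rw [div_le_iff₀ he0]
    linarith
  obtain ⟨θ, hθ⟩ : ∃ θ : ℝ, θ = 1 / (4 * Real.exp (2 / 3)) := ⟨_, rfl⟩
  obtain ⟨A, hA⟩ := Gam_large (1 / (e : ℝ)) (by positivity)
  obtain ⟨p₁, hp₁⟩ := hA A le_rfl
  obtain ⟨p₂, hp₂⟩ := pow_size_lt A
  obtain ⟨p₃, hp₃⟩ := pow_size_lt ((A + B + 1) * e)
  obtain ⟨p₄, hp₄⟩ := size_le_rpow (ε / 16) (by positivity)
  obtain ⟨p₅, hp₅⟩ := Pool.Agent.Q265.PR.least_sharp (ε / 4) (by positivity)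
  obtain ⟨p₆, hp₆⟩ := Pool.Agent.H96.PR.F4.least_fix' 4 (by norm_num) (ε / 4) (by positivity)
  obtain ⟨p₇, hp₇⟩ := Pool.Agent.H96.PR.exists_nonres (ε / 4) (by positivity)
  rw [← hθ] at hp₇ ⊢
  refine ⟨A + B + 1, iniB, stpB e, outB A (A + B + 1), polyTime_iniB, polyTime_stpB e,
    polyTime_outB A (A + B + 1), fun p hp k => len_iter hp he1 k,
    p₁ + p₂ + p₃ + p₄ + p₅ + p₆ + p₇ + 8, fun p hp hpp T hT => ?_⟩
  have : Fact p.Prime := ⟨hpp⟩
  have hp1 : (1 : ℝ) ≤ p := by exact_mod_cast hpp.one_lt.le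
  have hp0 : (0 : ℝ) < p := by linarith
  have hsz := hp₄ p (by omega)
  have hsz0 : (4 : ℝ) ≤ p.size := by
    have : 3 < p.size := Nat.lt_size.2 (by omega)
    exact_mod_cast this
  have hθ0 : 0 ≤ θ := by rw [hθ]; positivity
  have hθ1 : θ ≤ 1 / 4 := by
    rw [hθ]
    apply one_div_le_one_div_of_le (by norm_num)
    have := Real.add_one_le_exp (2 / 3 : ℝ)
    linarith
  obtain ⟨y, hy⟩ : ∃ y : ℕ, y = ⌊(p : ℝ) ^ (θ + ε / 4)⌋₊ := ⟨_, rfl⟩
  have hyr : (y : ℝ) ≤ (p : ℝ) ^ (θ + ε / 4) := by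
    rw [hy]
    exact Nat.floor_le (by positivity)
  -- powers
  have hq : (5 : ℝ) ≤ (p : ℝ) ^ (ε / 16) := by linarith
  have hq4 : (625 : ℝ) ≤ (p : ℝ) ^ (ε / 4) := by
    have h1 : (p : ℝ) ^ (ε / 4) = ((p : ℝ) ^ (ε / 16)) ^ 4 := by
      rw [← Real.rpow_natCast, ← Real.rpow_mul hp0.le]
      congr 1
      push_cast
      ring
    rw [h1]
    calc (625 : ℝ) = 5 ^ 4 := by norm_num
      _ ≤ ((p : ℝ) ^ (ε / 16)) ^ 4 := pow_le_pow_left₀ (by norm_num) hq 4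
  have hsz4 : (p.size : ℝ) + 1 ≤ (p : ℝ) ^ (ε / 4) :=
    hsz.trans (Real.rpow_le_rpow_of_exponent_le hp1 (by linarith))
  have hyp : 4 * y + 8 < p := by
    have h1 : (p : ℝ) ^ (θ + ε / 4) * (p : ℝ) ^ (ε / 4) ≤ (p : ℝ) ^ (1 : ℝ) := by
      rw [← Real.rpow_add hp0]
      exact Real.rpow_le_rpow_of_exponent_le hp1 (by linarith)
    rw [Real.rpow_one] at h1
    have h2 : (1 : ℝ) ≤ (p : ℝ) ^ (θ + ε / 4) := Real.one_le_rpow hp1 (by positivity)
    have h3 : (4 * y + 8 : ℝ) < p := by nlinarith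
    exact_mod_cast h3
  -- the search
  obtain ⟨τ, v, hτ1, hτ2, hv, hnr⟩ : ∃ τ v : ℕ, (stp e)^[τ] (ini p) = fnd p v ∧
      τ ≤ 2 * y + 1 ∧ ((v : ℕ) : ZMod p) ≠ 0 ∧
      (((v : ℕ) : ZMod p) ^ ((p - 1) / 2) ≠ 1 ∨ ((2 : ℕ) : ZMod p) ^ ((p - 1) / 2) ≠ 1) := by
    by_cases h8 : p % 8 = 1
    · obtain ⟨τ, v, h1, h2, h3, h4⟩ := pre_run (e := e) (y := y) h8 hyp (by
        obtain ⟨b, hb1, hb2, hb3⟩ := hp₆ p (by omega) hpp (by omega)
        refine ⟨b, hb1, ?_, hb3⟩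
        rw [hy]
        apply Nat.le_floor
        refine hb2.trans (Real.rpow_le_rpow_of_exponent_le hp1 ?_)
        rw [hθ]
        have : 1 / (4 * Real.exp (1 - 1 / ((4 : ℕ) : ℝ))) ≤ 1 / (4 * Real.exp (2 / 3)) := by
          apply one_div_le_one_div_of_le (by positivity)
          have := Real.exp_le_exp.2 (show (2 / 3 : ℝ) ≤ 1 - 1 / ((4 : ℕ) : ℝ) by norm_num)
          linarith
        linarith) (by
        intro ι hι hall
        obtain ⟨w, hw1, hw2, hw3⟩ := hp₇ p (by omega) ι hι h8 (by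
          intro b hb1 hb2
          apply hall b hb1
          rw [hy]
          exact Nat.le_floor hb2)
        refine ⟨w, hw1, ?_, hw3⟩
        rw [hy]
        exact Nat.le_floor hw2)
      exact ⟨τ, v, h1, h2, h3, Or.inl h4⟩
    · refine ⟨0, p - 1, ?_, Nat.zero_le _, ?_, easy_two (by omega) h8⟩
      · exact if_neg h8
      · rw [Nat.cast_sub hpp.one_lt.le, Nat.cast_one, ZMod.natCast_self, zero_sub, neg_ne_zero]
        exact one_ne_zero
  refine finds_of (T₀ := τ) (v := v) (y := y) hpp (by omega) he1 (hp₁ p (by omega) hpp)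
    (hp₂ p (by omega)) (hp₃ p (by omega)) hv ?_ hτ1 ?_
  · intro l hl hd _
    have htz : ∀ b : ℕ, 1 ≤ b → tz (v + 1) b = b := fun b hb => if_neg (by omega)
    by_cases hl2 : l = 2
    · subst hl2
      rcases hnr with h | h
      · exact ⟨0, Nat.zero_le _, h⟩
      · refine ⟨2, ?_, ?_⟩
        · rw [hy]
          apply Nat.le_floor
          have h3 : (p : ℝ) ^ (ε / 4) ≤ (p : ℝ) ^ (θ + ε / 4) :=
            Real.rpow_le_rpow_of_exponent_le hp1 (by linarith)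
          push_cast
          linarith
        · rw [htz 2 (by norm_num)]
          exact h
    · obtain ⟨b, hb1, hb2, hb3⟩ := hp₅ p (by omega) hpp l hl hd
      refine ⟨b, ?_, ?_⟩
      · rw [hy]
        apply Nat.le_floor
        refine hb2.trans (Real.rpow_le_rpow_of_exponent_le hp1 ?_)
        have hl3 : 3 ≤ l := by have := hl.two_le; omega
        have h1 : (3 : ℝ) ≤ l := by exact_mod_cast hl3
        have h2 : 1 / (l : ℝ) ≤ 1 / 3 := one_div_le_one_div_of_le (by norm_num) h1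
        have h3 : 1 / (4 * Real.exp (1 - 1 / (l : ℝ))) ≤ 1 / (4 * Real.exp (2 / 3)) := by
          apply one_div_le_one_div_of_le (by positivity)
          have := Real.exp_le_exp.2 (show 2 / 3 ≤ 1 - 1 / (l : ℝ) by linarith)
          linarith
        linarith
      · rw [htz b hb1]
        exact hb3
  · refine le_trans ?_ hT
    have h1 : (p : ℝ) ^ (1 / (e : ℝ)) ≤ (p : ℝ) ^ (θ + ε / 4) :=
      Real.rpow_le_rpow_of_exponent_le hp1 (by linarith)
    have h2 : (p : ℝ) ^ (θ + ε) = (p : ℝ) ^ (θ + ε / 4) * ((p : ℝ) ^ (ε / 4) *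
        ((p : ℝ) ^ (ε / 4) * (p : ℝ) ^ (ε / 4))) := by
      rw [← Real.rpow_add hp0, ← Real.rpow_add hp0, ← Real.rpow_add hp0]
      congr 1
      ring
    have h3 : (τ : ℝ) ≤ 2 * y + 1 := by exact_mod_cast hτ2
    have h4 : (1 : ℝ) ≤ (p : ℝ) ^ (θ + ε / 4) := Real.one_le_rpow hp1 (by positivity)
    have h5 : (y : ℝ) * p.size ≤ (p : ℝ) ^ (θ + ε / 4) * (p : ℝ) ^ (ε / 4) := by
      apply mul_le_mul hyr (by linarith) (by positivity) (by positivity)
    rw [h2]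
    obtain ⟨a, ha⟩ : ∃ a : ℝ, a = (p : ℝ) ^ (θ + ε / 4) := ⟨_, rfl⟩
    obtain ⟨b, hb⟩ : ∃ b : ℝ, b = (p : ℝ) ^ (ε / 4) := ⟨_, rfl⟩
    rw [← ha] at h1 h4 h5 hyr ⊢
    rw [← hb] at hq4 h5 ⊢
    have h6 : (τ : ℝ) + (p : ℝ) ^ (1 / (e : ℝ)) + y * p.size ≤ a * (4 + b) := by nlinarith
    have h7 : a * (4 + b) ≤ a * (b * (b * b)) := by
      apply mul_le_mul_of_nonneg_left _ (by linarith)
      nlinarith [mul_nonneg (show (0 : ℝ) ≤ b - 625 by linarith) (show (0 : ℝ) ≤ b by linarith)]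
    linarith

end Pool.Agent.H96.PR.T4
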