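import Pool.Agent.H96.PR.G3

/-!
# Gaussian integers without bad prime factors
-/

set_option autoImplicit false

namespace Pool.Agent.H96.PR

open Finset

/-- the representation of a prime as a sum of two squares is unique -/
theorem rep_unique {q u v u' v' : ℕ} (hq : q.Prime) (h : u ^ 2 + v ^ 2 = q)
    (h' : u' ^ 2 + v' ^ 2 = q) : (u' = u ∧ v' = v) ∨ (u' = v ∧ v' = u) := by
  have hpos : ∀ a b : ℕ, a ^ 2 + b ^ 2 = q → 0 < a ∧ a < q := by
    intro a b hab
    have hns : ∀ b : ℕ, b ^ 2 ≠ q := by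
      intro b hb
      rw [← hb] at hq
      exact (Nat.Prime.not_prime_pow (le_refl 2)) hq
    have ha : a ≠ 0 := by
      rintro rfl
      apply hns b
      rw [← hab]
      ring
    have hb : b ≠ 0 := by
      rintro rfl
      apply hns a
      rw [← hab]
      ring
    refine ⟨Nat.pos_of_ne_zero ha, ?_⟩
    have h1 : 0 < b ^ 2 := pow_pos (Nat.pos_of_ne_zero hb) 2
    nlinarith [Nat.pos_of_ne_zero ha]
  obtain ⟨hu, huq⟩ := hpos u v h
  obtain ⟨hv, hvq⟩ := hpos v u (by rw [← h]; ring)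
  obtain ⟨hu', huq'⟩ := hpos u' v' h'
  obtain ⟨hv', hvq'⟩ := hpos v' u' (by rw [← h']; ring)
  zify at h h' hu hv hu' hv'
  have hqz : Prime (q : ℤ) := Nat.prime_iff_prime_int.1 hq
  have hq0 : (0 : ℤ) < q := by exact_mod_cast hq.pos
  have hdvd : (q : ℤ) ∣ ((u : ℤ) * v' - u' * v) * (u * v' + u' * v) := by
    refine ⟨(u : ℤ) ^ 2 - u' ^ 2, ?_⟩
    have e1 : (v : ℤ) ^ 2 = q - u ^ 2 := by linarith
    have e2 : (v' : ℤ) ^ 2 = q - u' ^ 2 := by linarith
    calc ((u : ℤ) * v' - u' * v) * (u * v' + u' * v) = u ^ 2 * v' ^ 2 - u' ^ 2 * v ^ 2 := by ring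
      _ = (q : ℤ) * (u ^ 2 - u' ^ 2) := by rw [e1, e2]; ring
  have sq_lt : ∀ a b : ℤ, 0 < a → 0 < b → a ^ 2 = b ^ 2 → a = b := by
    intro a b ha hb hab
    have : (a - b) * (a + b) = 0 := by linarith [hab, show (a - b) * (a + b) = a ^ 2 - b ^ 2 by ring]
    rcases mul_eq_zero.1 this with h | h <;> omega
  rcases hqz.dvd_or_dvd hdvd with hA | hB
  · left
    have b1 : (u : ℤ) * v' - u' * v < q := by
      nlinarith [mul_pos hu' hv, sq_nonneg ((u : ℤ) - v'), sq_nonneg ((u' : ℤ) - v)]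
    have b2 : -(q : ℤ) < (u : ℤ) * v' - u' * v := by
      nlinarith [mul_pos hu hv', sq_nonneg ((u : ℤ) - v'), sq_nonneg ((u' : ℤ) - v)]
    have h0 : (u : ℤ) * v' - u' * v = 0 := by
      obtain ⟨k, hk⟩ := hA
      have k1 : k < 1 := by
        by_contra hc
        have : (q : ℤ) * 1 ≤ q * k := mul_le_mul_of_nonneg_left (not_lt.1 hc) hq0.le
        linarith
      have k2 : -1 < k := by
        by_contra hc
        have : (q : ℤ) * k ≤ q * (-1) := mul_le_mul_of_nonneg_left (not_lt.1 hc) hq0.le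
        linarith
      have : k = 0 := by omega
      rw [hk, this, mul_zero]
    have e : (u : ℤ) ^ 2 * v' ^ 2 = u' ^ 2 * v ^ 2 := by
      have : (u : ℤ) * v' = u' * v := by linarith
      calc (u : ℤ) ^ 2 * (v' : ℤ) ^ 2 = ((u : ℤ) * v') ^ 2 := by ring
        _ = (u' : ℤ) ^ 2 * (v : ℤ) ^ 2 := by rw [this]; ring
    have e1 : (v : ℤ) ^ 2 = q - u ^ 2 := by linarith
    have e2 : (v' : ℤ) ^ 2 = q - u' ^ 2 := by linarith
    rw [e1, e2] at e
    have e3 : (q : ℤ) * ((u : ℤ) ^ 2 - u' ^ 2) = 0 := by linarith [e, show (u : ℤ) ^ 2 * (q - u' ^ 2) -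
      u' ^ 2 * (q - u ^ 2) = q * ((u : ℤ) ^ 2 - u' ^ 2) by ring]
    have e4 : (u : ℤ) ^ 2 = u' ^ 2 := by
      rcases mul_eq_zero.1 e3 with h | h <;> linarith
    have e5 : (v : ℤ) ^ 2 = v' ^ 2 := by linarith
    have f1 := sq_lt _ _ hu hu' e4
    have f2 := sq_lt _ _ hv hv' e5
    exact ⟨by exact_mod_cast f1.symm, by exact_mod_cast f2.symm⟩
  · right
    have b1 : (u : ℤ) * v' + u' * v < 2 * q := by
      have : (u : ℤ) * v' + u' * v ≤ q := by
        nlinarith [sq_nonneg ((u : ℤ) - v'), sq_nonneg ((u' : ℤ) - v)]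
      linarith
    have b2 : 0 < (u : ℤ) * v' + u' * v := by positivity
    have h0 : (u : ℤ) * v' + u' * v = q := by
      obtain ⟨k, hk⟩ := hB
      have k1 : k < 2 := by
        by_contra hc
        have : (q : ℤ) * 2 ≤ q * k := mul_le_mul_of_nonneg_left (not_lt.1 hc) hq0.le
        linarith
      have k2 : 0 < k := by
        by_contra hc
        have : (q : ℤ) * k ≤ q * 0 := mul_le_mul_of_nonneg_left (not_lt.1 hc) hq0.le
        linarith
      have : k = 1 := by omega
      rw [hk, this, mul_one]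
    have e : ((u : ℤ) * u' - v * v') ^ 2 = 0 := by
      have : ((u : ℤ) * u' - v * v') ^ 2 = (u ^ 2 + v ^ 2) * (u' ^ 2 + v' ^ 2) -
        (u * v' + u' * v) ^ 2 := by ring
      rw [this, h, h', h0]
      ring
    have e1 : (u : ℤ) * u' = v * v' := by
      have := pow_eq_zero_iff (two_ne_zero) |>.1 e
      linarith
    have e2 : (u : ℤ) ^ 2 * u' ^ 2 = v ^ 2 * v' ^ 2 := by
      calc (u : ℤ) ^ 2 * (u' : ℤ) ^ 2 = ((u : ℤ) * u') ^ 2 := by ring
        _ = (v : ℤ) ^ 2 * (v' : ℤ) ^ 2 := by rw [e1]; ring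
    have e3 : (v : ℤ) ^ 2 = q - u ^ 2 := by linarith
    have e4 : (v' : ℤ) ^ 2 = q - u' ^ 2 := by linarith
    rw [e3, e4] at e2
    have e5 : (q : ℤ) * (q - u ^ 2 - u' ^ 2) = 0 := by linarith [e2,
      show (q - (u : ℤ) ^ 2) * (q - u' ^ 2) - u ^ 2 * u' ^ 2 = q * (q - u ^ 2 - u' ^ 2) by ring]
    have e6 : (q : ℤ) - u ^ 2 - u' ^ 2 = 0 := by
      rcases mul_eq_zero.1 e5 with h | h <;> linarith
    have f1 := sq_lt _ _ hv hu' (by linarith)
    have f2 := sq_lt _ _ hu hv' (by linarith)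
    exact ⟨by exact_mod_cast f1.symm, by exact_mod_cast f2.symm⟩

/-- the two Gaussian primes above a prime -/
noncomputable def reps (q : ℕ) : Finset (ℕ × ℕ) := {rep q, (rep q).swap}

theorem mem_reps {q : ℕ} (hq : q.Prime) (h4 : q % 4 = 1) {w : ℕ × ℕ} (hw : nm w = q) :
    w ∈ reps q := by
  have h1 := nm_rep hq h4
  unfold reps
  rw [mem_insert, mem_singleton]
  unfold nm at h1 hw
  rcases rep_unique hq h1 hw with ⟨h, h'⟩ | ⟨h, h'⟩
  · exact Or.inl (Prod.ext h h')
  · exact Or.inr (Prod.ext h h')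

theorem nm_swap (w : ℕ × ℕ) : nm w.swap = nm w := by
  unfold nm
  simp only [Prod.fst_swap, Prod.snd_swap]
  ring

theorem nm_reps {q : ℕ} (hq : q.Prime) (h4 : q % 4 = 1) {w : ℕ × ℕ} (hw : w ∈ reps q) :
    nm w = q := by
  unfold reps at hw
  rw [mem_insert, mem_singleton] at hw
  rcases hw with rfl | rfl
  · exact nm_rep hq h4
  · rw [nm_swap]
    exact nm_rep hq h4

theorem gz_swap {p : ℕ} (ι : ZMod p) (h : ι * ι = -1) (w : ℕ × ℕ) :
    gz ι w * gz ι w.swap = (nm w : ZMod p) * ι := by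
  unfold gz nm
  simp only [Prod.fst_swap, Prod.snd_swap]
  push_cast
  linear_combination ((w.1 : ZMod p) * (w.2 : ZMod p)) * h

/-- every Gaussian integer is a unit times one of the first quadrant -/
theorem quadrant (z : GaussianInt) : ∃ (e : GaussianInt) (w : ℕ × ℕ), z = e * gi w ∧
    (e = 1 ∨ e = -1 ∨ e = ⟨0, 1⟩ ∨ e = ⟨0, -1⟩) := by
  obtain ⟨a, b⟩ := z
  rcases le_total 0 a with ha | ha <;> rcases le_total 0 b with hb | hb
  · refine ⟨1, (a.toNat, b.toNat), ?_, Or.inl rfl⟩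
    unfold gi
    rw [one_mul]
    apply Zsqrtd.ext <;> simp [ha, hb]
  · refine ⟨⟨0, -1⟩, ((-b).toNat, a.toNat), ?_, Or.inr (Or.inr (Or.inr rfl))⟩
    unfold gi
    apply Zsqrtd.ext
    · simp [ha]
    · simp [hb]
  · refine ⟨⟨0, 1⟩, (b.toNat, (-a).toNat), ?_, Or.inr (Or.inr (Or.inl rfl))⟩
    unfold gi
    apply Zsqrtd.ext
    · simp [ha]
    · simp [hb]
  · refine ⟨-1, ((-a).toNat, (-b).toNat), ?_, Or.inr (Or.inl rfl)⟩
    unfold gi
    apply Zsqrtd.ext
    · simp [ha]
    · simp [hb]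

section

variable {p : ℕ} [Fact p.Prime] (ι : ZMod p)

theorem chi_unit (h : ι * ι = -1) (χ : DirichletCharacter ℂ p) (hι : χ ι = 1)
    (e : GaussianInt) (he : e = 1 ∨ e = -1 ∨ e = ⟨0, 1⟩ ∨ e = ⟨0, -1⟩) :
    χ (phi ι h e) = 1 := by
  have hm1 : χ (-1) = 1 := by rw [← h, map_mul, hι, one_mul]
  rcases he with rfl | rfl | rfl | rfl
  · rw [map_one, map_one]
  · rw [map_neg, map_one]
    exact hm1
  · rw [phi_apply]
    simpa using hι
  · rw [phi_apply]
    simp only [Int.cast_zero, zero_add, Int.cast_neg, Int.cast_one]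
    rw [map_mul, hm1, hι, one_mul]

/-- all prime factors good implies good -/
theorem good_of_primes (h : ι * ι = -1) (χ : DirichletCharacter ℂ p)
    (hι : χ ι = 1) (z : GaussianInt) (hz : z ≠ 0)
    (hall : ∀ π : GaussianInt, Prime π → π ∣ z → χ (phi ι h π) = 1) : χ (phi ι h z) = 1 := by
  induction z using UniqueFactorizationMonoid.induction_on_prime with
  | h₁ => exact absurd rfl hz
  | h₂ x hx =>
    have h1 : x.norm.natAbs = 1 := Zsqrtd.norm_eq_one_iff.2 hx
    have h2 : 0 ≤ x.norm := GaussianInt.norm_nonneg x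
    obtain ⟨e, w, rfl, he⟩ := quadrant x
    have he' : IsUnit e := isUnit_of_mul_isUnit_left hx
    have hw' : IsUnit (gi w) := isUnit_of_mul_isUnit_right hx
    have h3 : (gi w).norm.natAbs = 1 := Zsqrtd.norm_eq_one_iff.2 hw'
    rw [norm_gi, Int.natAbs_natCast] at h3
    have h4 : w = (1, 0) ∨ w = (0, 1) := by
      obtain ⟨a, b⟩ := w
      unfold nm at h3
      simp only at h3
      have ha : a ≤ 1 := by nlinarith
      have hb : b ≤ 1 := by nlinarith
      interval_cases a <;> interval_cases b <;> simp_all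
    rw [map_mul, map_mul, chi_unit ι h χ hι e he, one_mul, phi_gi]
    rcases h4 with rfl | rfl
    · unfold gz
      simp
    · unfold gz
      simpa using hι
  | h₃ a π ha hπ ih =>
    rw [map_mul, map_mul, hall π hπ (Dvd.intro _ rfl), one_mul]
    exact ih ha fun π' hπ' hd => hall π' hπ' (hd.mul_left _)

/-- **a bad Gaussian integer of the box has a bad prime factor of large prime norm** -/
theorem bad_factor (h : ι * ι = -1) (χ : DirichletCharacter ℂ p)
    (hι : χ ι = 1) (X y : ℕ) (hXy : 2 * X ≤ y) (hy2 : 2 ≤ y)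
    (hy : ∀ l : ℕ, l.Prime → l ≤ y → χ (l : ZMod p) = 1)
    (hyg : ∀ w : ℕ × ℕ, (nm w).Prime → nm w ≤ y → χ (gz ι w) = 1)
    (m : ℕ × ℕ) (hm : m ∈ box X) (hbad : χ (gz ι m) ≠ 1) :
    ∃ q ∈ (Ioc y (2 * X ^ 2)).filter (fun q => q.Prime ∧ q % 4 = 1),
      ∃ w ∈ reps q, χ (gz ι w) ≠ 1 ∧ gi w ∣ gi m := by
  rw [← phi_gi ι h] at hbad
  have hm0 : gi m ≠ 0 := gi_ne_zero (nm_pos hm)
  have h1 : ∃ π : GaussianInt, Prime π ∧ π ∣ gi m ∧ χ (phi ι h π) ≠ 1 := by
    by_contra hcon
    push Not at hcon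
    exact hbad (good_of_primes ι h χ hι _ hm0 hcon)
  obtain ⟨π, hπ, hπm, hπ1⟩ := h1
  obtain ⟨e, w, hew, he⟩ := quadrant π
  have hew1 := hew
  rw [hew, map_mul, map_mul, chi_unit ι h χ hι e he, one_mul, phi_gi] at hπ1
  have heu : e * star e = 1 := by
    rcases he with rfl | rfl | rfl | rfl
    · simp
    · simp
    · apply Zsqrtd.ext <;> simp
    · apply Zsqrtd.ext <;> simp
  have hwπ : gi w = star e * π := by
    rw [hew, ← mul_assoc, mul_comm (star e) e, heu, one_mul]
  have hwm : gi w ∣ gi m := by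
    refine Dvd.dvd.trans ?_ hπm
    rw [hew]
    exact Dvd.intro_left _ rfl
  -- the norm of `w`
  have hnorm : nm w ∣ nm m := by
    obtain ⟨γ, hγ⟩ := hwm
    have e1 := congrArg Zsqrtd.norm hγ
    rw [Zsqrtd.norm_mul, norm_gi, norm_gi] at e1
    have : (nm w : ℤ) ∣ (nm m : ℤ) := ⟨_, e1⟩
    exact Int.natCast_dvd_natCast.1 this
  have hnle : nm w ≤ 2 * X ^ 2 := (Nat.le_of_dvd (nm_pos hm) hnorm).trans (nm_le hm)
  have hwprime : Prime (gi w) := by
    have : Associated π (gi w) := by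
      refine ⟨⟨star e, e, by rw [mul_comm]; exact heu, heu⟩, ?_⟩
      rw [hwπ]
      exact mul_comm _ _
    exact this.prime hπ
  have hw0 : 0 < nm w := by
    rcases Nat.eq_zero_or_pos (nm w) with h0 | h0
    · exfalso
      apply hwprime.ne_zero
      have := norm_gi w
      rw [h0, Nat.cast_zero, Zsqrtd.norm_eq_zero_iff (by norm_num)] at this
      exact this
    · exact h0
  have hw1 : nm w ≠ 1 := by
    intro h1
    apply hwprime.not_isUnit
    rw [← Zsqrtd.norm_eq_one_iff, norm_gi, h1]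
    rfl
  -- a prime below
  have hdn : gi w ∣ ((nm w : ℕ) : GaussianInt) := by
    have := Zsqrtd.norm_eq_mul_conj (gi w)
    rw [norm_gi] at this
    exact ⟨star (gi w), by rw [← this]; simp⟩
  have hq : ∃ q : ℕ, q.Prime ∧ q ∣ nm w ∧ gi w ∣ ((q : ℕ) : GaussianInt) := by
    have key : ∀ n : ℕ, n ≠ 0 → gi w ∣ ((n : ℕ) : GaussianInt) →
        ∃ q : ℕ, q.Prime ∧ q ∣ n ∧ gi w ∣ ((q : ℕ) : GaussianInt) := by
      intro n
      induction n using Nat.recOnMul with
      | zero => intro h; exact absurd rfl h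
      | one =>
        intro _ hd
        exfalso
        rw [Nat.cast_one] at hd
        exact hwprime.not_isUnit (isUnit_of_dvd_one hd)
      | prime q hq => intro _ hd; exact ⟨q, hq, dvd_rfl, hd⟩
      | mul a b iha ihb =>
        intro hab hd
        push_cast at hd
        rcases hwprime.dvd_or_dvd hd with h | h
        · obtain ⟨q, h1, h2, h3⟩ := iha (left_ne_zero_of_mul hab) h
          exact ⟨q, h1, h2.mul_right _, h3⟩
        · obtain ⟨q, h1, h2, h3⟩ := ihb (right_ne_zero_of_mul hab) h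
          exact ⟨q, h1, h2.mul_left _, h3⟩
    exact key _ hw0.ne' hdn
  obtain ⟨q, hqp, hqn, hqd⟩ := hq
  obtain ⟨γ, hγ⟩ := hqd
  have e1 := congrArg Zsqrtd.norm hγ
  rw [Zsqrtd.norm_mul, norm_gi, Zsqrtd.norm_natCast] at e1
  have hγ0 : 0 ≤ γ.norm := GaussianInt.norm_nonneg _
  obtain ⟨g, hg⟩ : ∃ g : ℕ, γ.norm = g := ⟨γ.norm.toNat, by omega⟩
  rw [hg] at e1
  have e2 : q * q = nm w * g := by exact_mod_cast e1
  have e3 : nm w ∣ q ^ 2 := ⟨g, by rw [pow_two]; exact e2⟩
  rw [Nat.dvd_prime_pow hqp] at e3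
  obtain ⟨k, hk, hk2⟩ := e3
  have hk12 : k = 1 ∨ k = 2 := by
    rcases Nat.eq_zero_or_pos k with h0 | h0
    · rw [h0, pow_zero] at hk2
      exact absurd hk2 hw1
    · omega
  rcases hk12 with rfl | rfl
  · -- norm `q`
    rw [pow_one] at hk2
    have hwp : (nm w).Prime := by rw [hk2]; exact hqp
    have hqy : y < q := by
      by_contra hc
      exact hπ1 (hyg w hwp (by omega))
    have h4 : q % 4 = 1 := by
      have ho : q % 2 = 1 := hqp.eq_two_or_odd.resolve_left (by omega)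
      have h3 : q % 4 ≠ 3 := by
        rw [← hk2]
        unfold nm
        have h5 := Nat.mod_lt w.1 (show 0 < 4 by norm_num)
        have h6 := Nat.mod_lt w.2 (show 0 < 4 by norm_num)
        rw [Nat.add_mod, Nat.pow_mod, Nat.pow_mod w.2]
        generalize w.1 % 4 = x at *
        generalize w.2 % 4 = z at *
        interval_cases x <;> interval_cases z <;> norm_num
      omega
    refine ⟨q, ?_, w, mem_reps hqp h4 hk2, hπ1, hwm⟩
    rw [mem_filter, mem_Ioc]
    exact ⟨⟨hqy, by omega⟩, hqp, h4⟩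
  · -- norm `q ^ 2`
    exfalso
    have hg1 : g = 1 := by
      rw [hk2, pow_two] at e2
      have hpos : 0 < q * q := Nat.mul_pos hqp.pos hqp.pos
      have : q * q * 1 = q * q * g := by rw [mul_one]; exact e2
      exact (Nat.eq_of_mul_eq_mul_left hpos this).symm
    have hγu : IsUnit γ := by
      rw [← Zsqrtd.norm_eq_one_iff, hg, hg1]
      rfl
    have hqX : q ≤ y := by
      have h5 : q ^ 2 ≤ 2 * X ^ 2 := by rw [← hk2]; exact hnle
      have h6 : q ≤ 2 * X := by
        by_contra hc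
        have := Nat.pow_lt_pow_left (not_le.1 hc) (show 2 ≠ 0 by norm_num)
        nlinarith
      omega
    have h5 := hy q hqp hqX
    have h6 : χ (phi ι h γ) = 1 := by
      apply good_of_primes ι h χ hι γ hγu.ne_zero
      intro π' hπ' hd
      exact absurd (isUnit_of_dvd_unit hd hγu) hπ'.not_isUnit
    have h7 : χ (phi ι h ((q : ℕ) : GaussianInt)) = χ (phi ι h (gi w * γ)) := by rw [hγ]
    rw [map_natCast, map_mul, map_mul, h6, mul_one, phi_gi, h5] at h7
    exact hπ1 h7.symm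

end

theorem re_gi (w : ℕ × ℕ) : (gi w).re = w.1 := rfl

theorem im_gi (w : ℕ × ℕ) : (gi w).im = w.2 := rfl

/-- the number of multiples of a prime in the box -/
theorem count_mult (X : ℕ) (w : ℕ × ℕ) (hw : (nm w).Prime) :
    ∃ D : Finset (ℕ × ℕ), (∀ m ∈ box X, gi w ∣ gi m → m ∈ D) ∧
      D.card * nm w ≤ (X + 2 * Nat.sqrt (nm w)) ^ 2 := by
  classical
  refine ⟨(box X).filter fun m => gi w ∣ gi m, fun m hm hd => mem_filter.2 ⟨hm, hd⟩, ?_⟩
  set q := nm w with hq
  set S := Nat.sqrt q with hS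
  have hw0 : gi w ≠ 0 := gi_ne_zero hw.pos
  set I : Finset ℤ := Icc (1 - (S : ℤ)) (X + S) with hI
  have hIc : I.card = X + 2 * S := by
    rw [hI, Int.card_Icc]
    omega
  have h1 : ((box X).filter fun m => gi w ∣ gi m).card * q ≤ (I ×ˢ I).card := by
    have h2 : (((box X).filter fun m => gi w ∣ gi m) ×ˢ range q).card ≤ (I ×ˢ I).card := by
      apply Finset.card_le_card_of_injOn (fun t => ((gi t.1 + ((t.2 : ℕ) : GaussianInt) % gi w).re,
        (gi t.1 + ((t.2 : ℕ) : GaussianInt) % gi w).im))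
      · intro t ht
        simp only [coe_product, Set.mem_prod, mem_coe, mem_filter, mem_range] at ht
        obtain ⟨⟨htb, htd⟩, htq⟩ := ht
        rw [mem_box] at htb
        have hlt := GaussianInt.norm_mod_lt ((t.2 : ℕ) : GaussianInt) hw0
        rw [norm_gi, ← hq, norm_sq] at hlt
        set δ := ((t.2 : ℕ) : GaussianInt) % gi w with hδ
        have key : ∀ x y : ℤ, x ^ 2 + y ^ 2 < q → -(S : ℤ) ≤ x ∧ x ≤ S := by
          intro x y hxy
          have h1 : x.natAbs * x.natAbs ≤ q := by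
            have h2 : ((x.natAbs * x.natAbs : ℕ) : ℤ) = x ^ 2 := by
              push_cast
              rw [← pow_two, sq_abs]
            have h3 : x ^ 2 ≤ q := by nlinarith [sq_nonneg y]
            rw [← h2] at h3
            exact_mod_cast h3
          have h2 : x.natAbs ≤ S := Nat.le_sqrt.2 h1
          omega
        have k1 := key _ _ hlt
        have k2 := key δ.im δ.re (by linarith)
        simp only [coe_product, Set.mem_prod, mem_coe, hI, mem_Icc, Zsqrtd.re_add, Zsqrtd.im_add,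
          re_gi, im_gi]
        rw [← hδ]
        omega
      · intro t ht t' ht' e
        simp only [coe_product, Set.mem_prod, mem_coe, mem_filter, mem_range] at ht ht'
        simp only [Prod.mk.injEq] at e
        have e1 : gi t.1 + ((t.2 : ℕ) : GaussianInt) % gi w =
            gi t'.1 + ((t'.2 : ℕ) : GaussianInt) % gi w := Zsqrtd.ext e.1 e.2
        have e2 : gi w ∣ (((t.2 : ℕ) : GaussianInt) - ((t'.2 : ℕ) : GaussianInt)) := by
          obtain ⟨a, ha⟩ := ht.1.2
          obtain ⟨b, hb⟩ := ht'.1.2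
          have d1 := EuclideanDomain.div_add_mod ((t.2 : ℕ) : GaussianInt) (gi w)
          have d2 := EuclideanDomain.div_add_mod ((t'.2 : ℕ) : GaussianInt) (gi w)
          rw [ha, hb] at e1
          refine ⟨((t.2 : ℕ) : GaussianInt) / gi w - ((t'.2 : ℕ) : GaussianInt) / gi w + b - a, ?_⟩
          linear_combination e1 - d1 + d2
        obtain ⟨γ, hγ⟩ := e2
        have e3 := congrArg Zsqrtd.norm hγ
        rw [Zsqrtd.norm_mul, norm_gi, ← hq] at e3
        have e4 : (((t.2 : ℕ) : GaussianInt) - ((t'.2 : ℕ) : GaussianInt)) =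
            (((t.2 : ℤ) - (t'.2 : ℤ) : ℤ) : GaussianInt) := by push_cast; rfl
        rw [e4, Zsqrtd.norm_intCast] at e3
        have e5 : (q : ℤ) ∣ ((t.2 : ℤ) - (t'.2 : ℤ)) * ((t.2 : ℤ) - (t'.2 : ℤ)) := ⟨_, e3⟩
        have hqz : Prime (q : ℤ) := Nat.prime_iff_prime_int.1 hw
        have e6 : (q : ℤ) ∣ (t.2 : ℤ) - (t'.2 : ℤ) := by
          rcases hqz.dvd_or_dvd e5 with h | h <;> exact h
        have e7 : (t.2 : ℤ) - (t'.2 : ℤ) = 0 := by
          apply Int.eq_zero_of_abs_lt_dvd e6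
          rw [abs_lt]
          have := ht.2
          have := ht'.2
          omega
        have e8 : t.2 = t'.2 := by omega
        rw [e8] at e1
        exact Prod.ext (gi_inj (add_right_cancel e1)) e8
    rw [card_product, card_range] at h2
    exact h2
  rw [card_product, hIc] at h1
  rw [pow_two]
  exact h1

end Pool.Agent.H96.PR
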