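import Pool.Agent.H96.PR.V1
import Pool.Graph.R_pool_sql_team_seeded_3997aac3.Q265.PR.D

/-!
# Small Gaussian integers which are quadratic nonresidues
-/

set_option autoImplicit false

namespace Pool.Agent.H96.PR

open Finset Pool.Agent.H471R4.BW

section

variable {p : ℕ} [Fact p.Prime] (ι : ZMod p)

open Classical in
/-- the number of bad Gaussian primes above `q` -/
noncomputable def nb (χ : DirichletCharacter ℂ p) (q : ℕ) : ℕ :=
  ((reps q).filter fun w => χ (gz ι w) ≠ 1).card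

theorem nb_le (χ : DirichletCharacter ℂ p) (q : ℕ) : nb ι χ q ≤ 2 := by
  unfold nb reps
  exact (card_filter_le _ _).trans card_le_two

theorem chi_pm (χ : DirichletCharacter ℂ p) (hχ2 : χ ^ 2 = 1) (x : ZMod p) (hx : x ≠ 0) :
    χ x = 1 ∨ χ x = -1 := by
  have h1 : χ x ^ 2 = 1 := by
    rw [← MulChar.pow_apply' χ two_ne_zero, hχ2, MulChar.one_apply (Ne.isUnit hx)]
  exact sq_eq_one_iff_of_ne_zero' h1
where
  sq_eq_one_iff_of_ne_zero' {z : ℂ} (h : z ^ 2 = 1) : z = 1 ∨ z = -1 := by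
    have : (z - 1) * (z + 1) = 0 := by linear_combination h
    rcases mul_eq_zero.1 this with h | h
    · exact Or.inl (sub_eq_zero.1 h)
    · exact Or.inr (eq_neg_of_add_eq_zero_left h)

theorem nb_one (h : ι * ι = -1) (χ : DirichletCharacter ℂ p) (hχ2 : χ ^ 2 = 1) (hι : χ ι = 1)
    {q : ℕ} (hq : q.Prime) (h4 : q % 4 = 1) (hqp : q < p) (hbad : χ (q : ZMod p) ≠ 1) :
    nb ι χ q ≤ 1 := by
  classical
  by_contra hc
  have h1 := nm_rep hq h4
  have h2 : 2 ≤ nb ι χ q := by omega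
  unfold nb at h2
  have h3 : (reps q).filter (fun w => χ (gz ι w) ≠ 1) = reps q := by
    apply Finset.eq_of_subset_of_card_le (filter_subset _ _)
    refine le_trans ?_ h2
    unfold reps
    exact card_le_two
  have h4' : rep q ∈ (reps q).filter (fun w => χ (gz ι w) ≠ 1) := by
    rw [h3]; unfold reps; simp
  have h5 : (rep q).swap ∈ (reps q).filter (fun w => χ (gz ι w) ≠ 1) := by
    rw [h3]; unfold reps; simp
  rw [mem_filter] at h4' h5
  have n1 : gz ι (rep q) ≠ 0 := gz_ne_zero ι h _ (by rw [h1]; exact hq.pos) (by rw [h1]; exact hqp)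
  have n2 : gz ι (rep q).swap ≠ 0 := gz_ne_zero ι h _ (by rw [nm_swap, h1]; exact hq.pos)
    (by rw [nm_swap, h1]; exact hqp)
  have e1 := (chi_pm χ hχ2 _ n1).resolve_left h4'.2
  have e2 := (chi_pm χ hχ2 _ n2).resolve_left h5.2
  have e3 := congrArg χ (gz_swap ι h (rep q))
  rw [map_mul, map_mul, e1, e2, hι, h1, mul_one] at e3
  apply hbad
  rw [← e3]
  norm_num

/-- the multiples of a prime in the box -/
theorem count_real (X : ℕ) (w : ℕ × ℕ) (hw : (nm w).Prime) (hX : 1 ≤ X) (hle : nm w ≤ 2 * X ^ 2) :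
    ∃ D : Finset (ℕ × ℕ), (∀ m ∈ box X, gi w ∣ gi m → m ∈ D) ∧
      (D.card : ℝ) ≤ X ^ 2 * (1 / (nm w : ℝ)) + 10 * X * (1 / Real.sqrt (nm w)) := by
  obtain ⟨D, h1, h2⟩ := count_mult X w hw
  refine ⟨D, h1, ?_⟩
  set q := nm w with hq
  have hq0 : (0 : ℝ) < q := by exact_mod_cast hw.pos
  set s : ℝ := Real.sqrt q with hs
  have hs0 : 0 < s := Real.sqrt_pos.2 hq0
  have hss : s * s = q := Real.mul_self_sqrt hq0.le
  have h3 : ((Nat.sqrt q : ℕ) : ℝ) ≤ s := Real.nat_sqrt_le_real_sqrt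
  have hXr : (1 : ℝ) ≤ X := by exact_mod_cast hX
  have h4 : (D.card : ℝ) * (s * s) ≤ (X + 2 * s) ^ 2 := by
    rw [hss]
    have h5 : (D.card : ℝ) * q ≤ ((X : ℝ) + 2 * (Nat.sqrt q : ℕ)) ^ 2 := by exact_mod_cast h2
    refine h5.trans ?_
    apply pow_le_pow_left₀ (by positivity)
    linarith
  have h5 : s ≤ 3 / 2 * X := by
    rw [hs, Real.sqrt_le_left (by positivity)]
    have : (q : ℝ) ≤ 2 * (X : ℝ) ^ 2 := by exact_mod_cast hle
    nlinarith
  rw [← hss]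
  have e : (X : ℝ) ^ 2 * (1 / (s * s)) + 10 * X * (1 / s) = ((X : ℝ) ^ 2 + 10 * X * s) / (s * s) := by
    field_simp
  rw [e, le_div_iff₀ (by positivity)]
  nlinarith

open Classical in
/-- **Vinogradov's method for Gaussian integers** -/
theorem vin2 (h : ι * ι = -1) (χ : DirichletCharacter ℂ p) (hχ2 : χ ^ 2 = 1)
    (hι : χ ι = 1) (X y : ℕ) (hX : 1 ≤ X) (hXp : 2 * X ^ 2 < p) (hXy : 2 * X ≤ y) (hy2 : 2 ≤ y)
    (hy : ∀ l : ℕ, l.Prime → l ≤ y → χ (l : ZMod p) = 1)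
    (hyg : ∀ w : ℕ × ℕ, (nm w).Prime → nm w ≤ y → χ (gz ι w) = 1) :
    (X : ℝ) ^ 2 * (1 - 2 * ∑ q ∈ (Ioc y (2 * X ^ 2)).filter (fun q => q.Prime ∧ q % 4 = 1),
        (nb ι χ q : ℝ) * (1 / q)) -
      40 * X * ∑ q ∈ (Ioc y (2 * X ^ 2)).filter (fun q => q.Prime ∧ q % 4 = 1),
        1 / Real.sqrt q ≤ ‖boxSum ι χ X‖ := by
  set P := (Ioc y (2 * X ^ 2)).filter (fun q => q.Prime ∧ q % 4 = 1) with hP
  set bad := (box X).filter (fun m => χ (gz ι m) ≠ 1) with hbad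
  -- the sum
  have hsum : boxSum ι χ X = (X : ℂ) ^ 2 - 2 * (bad.card : ℂ) := by
    have e1 : ∀ m ∈ box X, χ (gz ι m) = 1 - 2 * (if χ (gz ι m) ≠ 1 then 1 else 0) := by
      intro m hm
      have hne : gz ι m ≠ 0 := gz_ne_zero ι h m (nm_pos hm) (lt_of_le_of_lt (nm_le hm) hXp)
      by_cases hc : χ (gz ι m) = 1
      · rw [if_neg (not_not.2 hc), hc]; ring
      · rw [if_pos hc, (chi_pm χ hχ2 _ hne).resolve_left hc]; ring
    unfold boxSum
    rw [Finset.sum_congr rfl e1, Finset.sum_sub_distrib, ← Finset.mul_sum, ← Finset.sum_filter,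
      Finset.sum_const, Finset.sum_const, card_box, ← hbad]
    simp
  have hnorm : (X : ℝ) ^ 2 - 2 * (bad.card : ℝ) ≤ ‖boxSum ι χ X‖ := by
    have e1 : boxSum ι χ X = (((X : ℝ) ^ 2 - 2 * (bad.card : ℝ) : ℝ) : ℂ) := by
      rw [hsum]; push_cast; ring
    rw [e1, Complex.norm_real, Real.norm_eq_abs]
    exact le_abs_self _
  -- the bad elements
  have hPmem : ∀ q ∈ P, (y < q ∧ q ≤ 2 * X ^ 2) ∧ q.Prime ∧ q % 4 = 1 := by
    intro q hq
    rw [hP, mem_filter, mem_Ioc] at hq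
    exact hq
  have hD : ∀ w : ℕ × ℕ, ∃ D : Finset (ℕ × ℕ), (nm w).Prime → nm w ≤ 2 * X ^ 2 →
      (∀ m ∈ box X, gi w ∣ gi m → m ∈ D) ∧
      (D.card : ℝ) ≤ X ^ 2 * (1 / (nm w : ℝ)) + 10 * X * (1 / Real.sqrt (nm w)) := by
    intro w
    by_cases hc : (nm w).Prime ∧ nm w ≤ 2 * X ^ 2
    · obtain ⟨D, h1⟩ := count_real X w hc.1 hX hc.2
      exact ⟨D, fun _ _ => h1⟩
    · exact ⟨∅, fun h1 h2 => absurd ⟨h1, h2⟩ hc⟩
  choose D hD using hD
  have hcover : bad ⊆ P.biUnion (fun q => ((reps q).filter fun w => χ (gz ι w) ≠ 1).biUnion D) := by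
    intro m hm
    rw [hbad, mem_filter] at hm
    obtain ⟨q, hq, w, hw, hw1, hw2⟩ := bad_factor ι h χ hι X y hXy hy2 hy hyg m hm.1 hm.2
    rw [mem_biUnion]
    refine ⟨q, hq, ?_⟩
    rw [mem_biUnion]
    refine ⟨w, mem_filter.2 ⟨hw, hw1⟩, ?_⟩
    have h2 := hPmem q hq
    have h3 := nm_reps h2.2.1 h2.2.2 hw
    exact (hD w (by rw [h3]; exact h2.2.1) (by rw [h3]; exact h2.1.2)).1 m hm.1 hw2
  have hcard : (bad.card : ℝ) ≤ ∑ q ∈ P, (nb ι χ q : ℝ) *
      (X ^ 2 * (1 / (q : ℝ)) + 10 * X * (1 / Real.sqrt q)) := by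
    have h1 := (card_le_card hcover).trans card_biUnion_le
    have h2 : ((∑ q ∈ P, (((reps q).filter fun w => χ (gz ι w) ≠ 1).biUnion D).card : ℕ) : ℝ) ≤
        ∑ q ∈ P, (nb ι χ q : ℝ) * (X ^ 2 * (1 / (q : ℝ)) + 10 * X * (1 / Real.sqrt q)) := by
      push_cast
      apply Finset.sum_le_sum
      intro q hq
      have h2 := hPmem q hq
      have h3 : ((((reps q).filter fun w => χ (gz ι w) ≠ 1).biUnion D).card : ℝ) ≤
          ((∑ w ∈ (reps q).filter (fun w => χ (gz ι w) ≠ 1), (D w).card : ℕ) : ℝ) := by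
        exact_mod_cast card_biUnion_le
      refine h3.trans ?_
      push_cast
      calc ∑ w ∈ (reps q).filter (fun w => χ (gz ι w) ≠ 1), ((D w).card : ℝ) ≤
          ∑ _w ∈ (reps q).filter (fun w => χ (gz ι w) ≠ 1),
            (X ^ 2 * (1 / (q : ℝ)) + 10 * X * (1 / Real.sqrt q)) := by
            apply Finset.sum_le_sum
            intro w hw
            rw [mem_filter] at hw
            have h4 := nm_reps h2.2.1 h2.2.2 hw.1
            have h5 := (hD w (by rw [h4]; exact h2.2.1) (by rw [h4]; exact h2.1.2)).2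
            rwa [h4] at h5
        _ = _ := by
            rw [sum_const, nsmul_eq_mul]
            rfl
    refine le_trans ?_ h2
    exact_mod_cast h1
  have hcard2 : (bad.card : ℝ) ≤ X ^ 2 * ∑ q ∈ P, (nb ι χ q : ℝ) * (1 / q) +
      20 * X * ∑ q ∈ P, 1 / Real.sqrt q := by
    refine hcard.trans ?_
    rw [Finset.mul_sum, Finset.mul_sum, ← Finset.sum_add_distrib]
    apply Finset.sum_le_sum
    intro q hq
    have h1 : (nb ι χ q : ℝ) ≤ 2 := by exact_mod_cast nb_le ι χ q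
    have h2 : 0 ≤ 10 * (X : ℝ) * (1 / Real.sqrt q) := by positivity
    nlinarith
  nlinarith

end

/-- the sum of `1 / √q` -/
theorem sum_inv_sqrt (y Q : ℕ) (hy : 2 ≤ y) (S : ℝ)
    (hS : ∑ q ∈ (Ioc y Q).filter Nat.Prime, (1 : ℝ) / q ≤ S) :
    ∑ q ∈ (Ioc y Q).filter (fun q => q.Prime ∧ q % 4 = 1), 1 / Real.sqrt q ≤
      Real.sqrt (2 * Q / Real.log y * S) := by
  have hy' : (2 : ℝ) ≤ y := by exact_mod_cast hy
  have hly : 0 < Real.log y := Real.log_pos (by linarith)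
  set P := (Ioc y Q).filter Nat.Prime with hP
  have h1 : ∑ q ∈ (Ioc y Q).filter (fun q => q.Prime ∧ q % 4 = 1), 1 / Real.sqrt q ≤
      ∑ q ∈ P, 1 / Real.sqrt q := by
    apply Finset.sum_le_sum_of_subset_of_nonneg
    · intro q hq
      rw [mem_filter] at hq
      rw [hP, mem_filter]
      exact ⟨hq.1, hq.2.1⟩
    · intro q _ _
      positivity
  refine h1.trans ?_
  apply Real.le_sqrt_of_sq_le
  have h2 : (∑ q ∈ P, 1 / Real.sqrt q) ^ 2 ≤ (P.card : ℝ) * ∑ q ∈ P, (1 / Real.sqrt q) ^ 2 :=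
    sq_sum_le_card_mul_sum_sq
  have h3 : ∑ q ∈ P, (1 / Real.sqrt q) ^ 2 = ∑ q ∈ P, (1 : ℝ) / q := by
    refine Finset.sum_congr rfl fun q _ => ?_
    rw [div_pow, one_pow, Real.sq_sqrt (Nat.cast_nonneg q)]
  rw [h3] at h2
  have h4 : (P.card : ℝ) * Real.log y ≤ 2 * Q := by
    refine le_trans ?_ (Pool.Agent.Helper923.HMertens.theta_le Q)
    calc (P.card : ℝ) * Real.log y = ∑ _q ∈ P, Real.log y := by rw [sum_const, nsmul_eq_mul]
      _ ≤ ∑ q ∈ P, Real.log q := by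
          apply Finset.sum_le_sum
          intro q hq
          rw [hP, mem_filter, mem_Ioc] at hq
          apply Real.log_le_log (by linarith)
          exact_mod_cast hq.1.1.le
      _ ≤ ∑ q ∈ Pool.Agent.Helper923.HMertens.PP Q, Real.log q := by
          apply Finset.sum_le_sum_of_subset_of_nonneg
          · intro q hq
            rw [hP, mem_filter, mem_Ioc] at hq
            rw [mem_filter, mem_Icc]
            exact ⟨⟨by omega, hq.1.2⟩, hq.2⟩
          · intro q _ _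
            exact Real.log_natCast_nonneg q
  have h5 : (P.card : ℝ) ≤ 2 * Q / Real.log y := by rwa [le_div_iff₀ hly]
  have h6 : 0 ≤ ∑ q ∈ P, (1 : ℝ) / q := Finset.sum_nonneg fun q _ => by positivity
  exact h2.trans (mul_le_mul h5 hS h6 (by positivity))

end Pool.Agent.H96.PR
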